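import Pool.Agent.H307R2.OP.BT4
import Pool.Agent.H307R2.OP.PC
import Pool.Agent.H387R2.U3

set_option autoImplicit false

/-!
# Analytic inputs: primes of a block in classes modulo `3 ^ κ` and modulo 9
-/

namespace Pool.Agent.NH75.PC.AN

open Finset Pool.Agent.H307R2.OP

theorem totient_eq (κ : ℕ) (hκ : 1 ≤ κ) :
    ((8 * 3 ^ κ).totient : ℝ) = 8 / 3 * 3 ^ κ ∧ ((3 ^ κ).totient : ℝ) = 2 / 3 * 3 ^ κ := by
  obtain ⟨k, rfl⟩ : ∃ k, κ = k + 1 := ⟨κ - 1, by omega⟩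
  have h3 : (3 ^ (k + 1)).totient = 3 ^ k * 2 := by
    rw [Nat.totient_prime_pow Nat.prime_three (by omega), Nat.add_sub_cancel]
  have h8 : Nat.totient 8 = 4 := by decide
  have hc : Nat.Coprime 8 (3 ^ (k + 1)) := Nat.Coprime.pow_right _ (by decide)
  constructor
  · rw [Nat.totient_mul hc, h3, h8]
    push_cast
    ring
  · rw [h3]
    push_cast
    ring

/-- Brun-Titchmarsh in a class modulo 8 and a class modulo `3 ^ κ` -/
theorem btc (h : BT4) : ∃ N0 : ℕ, ∀ κ : ℕ, 1 ≤ κ → ∀ L X c : ℕ, N0 ≤ X / (8 * 3 ^ κ) + 1 →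
    ∀ b : ZMod (3 ^ κ),
    (((Ioc L (L + X)).filter (fun q : ℕ => (q.Prime ∧ q % 8 = c) ∧ (q : ZMod (3 ^ κ)) = b)).card : ℝ) ≤
      27 / 2 * (((X / (8 * 3 ^ κ) + 1 : ℕ) : ℝ) / Real.log ((X / (8 * 3 ^ κ) + 1 : ℕ) : ℝ)) := by
  obtain ⟨N0, hN0⟩ := h
  refine ⟨N0, fun κ hκ L X c hN b => ?_⟩
  set Q := 8 * 3 ^ κ with hQ
  have hQ0 : 0 < Q := by positivity
  set N := X / Q + 1 with hNdef
  set S := (Ioc L (L + X)).filter (fun q : ℕ => (q.Prime ∧ q % 8 = c) ∧ (q : ZMod (3 ^ κ)) = b) with hS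
  have hlogN : 0 ≤ Real.log (N : ℝ) := Real.log_nonneg (by
    have : 1 ≤ N := Nat.le_add_left 1 _
    exact_mod_cast this)
  rcases S.eq_empty_or_nonempty with h0 | hne
  · rw [h0, card_empty, Nat.cast_zero]
    positivity
  set q0 := S.min' hne with hq0
  have hq0S : q0 ∈ S := S.min'_mem hne
  have hq0m := hq0S
  rw [hS, mem_filter, mem_Ioc] at hq0m
  have hbt := hN0 q0 Q N hQ0 hN
  have hratio : (Q : ℝ) / (Q.totient : ℝ) = 3 := by
    rw [hQ, (totient_eq κ hκ).1]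
    push_cast
    have : (3 : ℝ) ^ κ ≠ 0 := by positivity
    field_simp
  rw [hratio] at hbt
  have hcard : S.card ≤ ((range N).filter (fun k => (q0 + k * Q).Prime)).card := by
    apply Finset.card_le_card_of_injOn (fun q => (q - q0) / Q)
    · intro q hq
      rw [mem_coe] at hq
      have hqm := hq
      rw [hS, mem_filter, mem_Ioc] at hqm
      have hle : q0 ≤ q := S.min'_le q hq
      have hdvd : Q ∣ q - q0 := by
        have h8 : 8 ∣ q - q0 := by
          have e1 := hqm.2.1.2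
          have e2 := hq0m.2.1.2
          omega
        have h3 : 3 ^ κ ∣ q - q0 := by
          have e1 : ((q - q0 : ℕ) : ZMod (3 ^ κ)) = 0 := by
            rw [Nat.cast_sub hle, hqm.2.2, hq0m.2.2, sub_self]
          exact (ZMod.natCast_eq_zero_iff _ _).1 e1
        exact Nat.Coprime.mul_dvd_of_dvd_of_dvd (Nat.Coprime.pow_right _ (by decide)) h8 h3
      have hk : (q - q0) / Q * Q = q - q0 := Nat.div_mul_cancel hdvd
      rw [mem_coe, mem_filter, mem_range]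
      constructor
      · rw [hNdef, Nat.lt_succ_iff]
        exact Nat.div_le_div_right (by omega)
      · rw [hk, Nat.add_sub_cancel' hle]
        exact hqm.2.1.1
    · intro q hq q' hq' he
      rw [mem_coe] at hq hq'
      simp only at he
      have hdv : ∀ q ∈ S, (q - q0) / Q * Q = q - q0 ∧ q0 ≤ q := by
        intro q hq
        have hqm := hq
        rw [hS, mem_filter, mem_Ioc] at hqm
        have hle : q0 ≤ q := S.min'_le q hq
        have h8 : 8 ∣ q - q0 := by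
          have e1 := hqm.2.1.2
          have e2 := hq0m.2.1.2
          omega
        have h3 : 3 ^ κ ∣ q - q0 := by
          have e1 : ((q - q0 : ℕ) : ZMod (3 ^ κ)) = 0 := by
            rw [Nat.cast_sub hle, hqm.2.2, hq0m.2.2, sub_self]
          exact (ZMod.natCast_eq_zero_iff _ _).1 e1
        exact ⟨Nat.div_mul_cancel (Nat.Coprime.mul_dvd_of_dvd_of_dvd
          (Nat.Coprime.pow_right _ (by decide)) h8 h3), hle⟩
      obtain ⟨a1, a2⟩ := hdv q hq
      obtain ⟨b1, b2⟩ := hdv q' hq'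
      rw [he] at a1
      omega
  have hc2 : (S.card : ℝ) ≤ (((range N).filter (fun k => (q0 + k * Q).Prime)).card : ℝ) := by
    exact_mod_cast hcard
  refine hc2.trans (hbt.trans (le_of_eq ?_))
  ring

/-- numerical form: `8 * 3 ^ κ ≤ 2 ^ (i / 50)`, `X ≥ 2 ^ (l i)` -/
theorem btn (h : BT4) : ∃ i0 : ℕ, ∀ i : ℕ, i0 ≤ i → ∀ κ : ℕ, 1 ≤ κ → 8 * 3 ^ κ ≤ 2 ^ (i / 50) →
    ∀ L X c : ℕ, ∀ l : ℝ, 1 / 2 ≤ l → (2 : ℝ) ^ (l * i) ≤ X → ∀ b : ZMod (3 ^ κ),
    (((Ioc L (L + X)).filter (fun q : ℕ => (q.Prime ∧ q % 8 = c) ∧ (q : ZMod (3 ^ κ)) = b)).card : ℝ) *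
      ((3 ^ κ).totient : ℝ) ≤
      9 / 8 * 1.01 * (X / ((l - 1 / 49) * i * Real.log 2)) := by
  obtain ⟨N0, hN0⟩ := btc h
  refine ⟨4 * N0 + 1000, fun i hi κ hκ hQ8 L X c l hl hX b => ?_⟩
  set Q := 8 * 3 ^ κ with hQ
  have hQ0 : 0 < Q := by positivity
  have hQR : (0 : ℝ) < Q := by exact_mod_cast hQ0
  have hiR : (1000 : ℝ) ≤ i := by exact_mod_cast (by omega : 1000 ≤ i)
  have hlog2 : 0 < Real.log 2 := Real.log_pos (by norm_num)
  -- X / Q is large
  have hQle : (Q : ℝ) ≤ (2 : ℝ) ^ ((i : ℝ) / 50) := by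
    have h1 : (Q : ℝ) ≤ (2 : ℝ) ^ (i / 50) := by exact_mod_cast hQ8
    refine h1.trans ?_
    rw [← Real.rpow_natCast]
    apply Real.rpow_le_rpow_of_exponent_le (by norm_num)
    have := @Nat.cast_div_le ℝ _ _ _ i 50
    simpa using this
  have hXpos : (0 : ℝ) < X := lt_of_lt_of_le (by positivity) hX
  have hXQ : (2 : ℝ) ^ ((l - 1 / 50) * i) ≤ X / Q := by
    rw [le_div_iff₀ hQR]
    calc (2 : ℝ) ^ ((l - 1 / 50) * i) * Q ≤ (2 : ℝ) ^ ((l - 1 / 50) * i) * (2 : ℝ) ^ ((i : ℝ) / 50) := by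
          gcongr
      _ = (2 : ℝ) ^ (l * i) := by
          rw [← Real.rpow_add (by norm_num)]
          congr 1
          ring
      _ ≤ X := hX
  have hXQ2 : (1000 : ℝ) ≤ X / Q ∧ (N0 : ℝ) ≤ X / Q := by
    have h1 : (i : ℝ) / 4 ≤ (2 : ℝ) ^ ((l - 1 / 50) * i) := by
      have h2 : (2 : ℝ) ^ ((i : ℝ) / 4) ≤ (2 : ℝ) ^ ((l - 1 / 50) * i) := by
        apply Real.rpow_le_rpow_of_exponent_le (by norm_num)
        nlinarith
      refine le_trans ?_ h2
      have h3 : ((i : ℝ) / 4) * Real.log 2 + 1 ≤ (2 : ℝ) ^ ((i : ℝ) / 4) := by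
        rw [Real.rpow_def_of_pos (by norm_num), mul_comm]
        exact Real.add_one_le_exp _
      have h4 : (2 : ℝ) ^ ((i : ℝ) / 4) = ((2 : ℝ) ^ ((i : ℝ) / 8)) ^ 2 := by
        rw [← Real.rpow_natCast, ← Real.rpow_mul (by norm_num)]
        congr 1
        push_cast
        ring
      have h5 : ((i : ℝ) / 8) * Real.log 2 + 1 ≤ (2 : ℝ) ^ ((i : ℝ) / 8) := by
        rw [Real.rpow_def_of_pos (by norm_num), mul_comm]
        exact Real.add_one_le_exp _
      have h6 := Real.log_two_gt_d9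
      have h7 : (i : ℝ) / 16 ≤ (2 : ℝ) ^ ((i : ℝ) / 8) := by nlinarith
      rw [h4]
      have h8 : ((i : ℝ) / 16) ^ 2 ≤ ((2 : ℝ) ^ ((i : ℝ) / 8)) ^ 2 :=
        pow_le_pow_left₀ (by positivity) h7 2
      refine le_trans ?_ h8
      nlinarith
    have h9 : (1000 : ℝ) ≤ (2 : ℝ) ^ ((l - 1 / 50) * i) := by
      have h2 : (2 : ℝ) ^ ((100 : ℝ)) ≤ (2 : ℝ) ^ ((l - 1 / 50) * i) := by
        apply Real.rpow_le_rpow_of_exponent_le (by norm_num)
        nlinarith
      refine le_trans ?_ h2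
      have h3 : (2 : ℝ) ^ ((100 : ℝ)) = (2 : ℝ) ^ (100 : ℕ) := by
        rw [← Real.rpow_natCast]; norm_num
      rw [h3]; norm_num
    refine ⟨h9.trans hXQ, ?_⟩
    have h10 : (4 * N0 : ℝ) ≤ i := by exact_mod_cast (by omega : 4 * N0 ≤ i)
    calc (N0 : ℝ) ≤ i / 4 := by linarith
      _ ≤ _ := h1
      _ ≤ _ := hXQ
  have hNlow : (X : ℝ) / Q ≤ ((X / Q + 1 : ℕ) : ℝ) := by
    rw [div_le_iff₀ hQR]
    have h1 : X < Q * (X / Q + 1) := Nat.lt_mul_div_succ X hQ0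
    have h2 : (X : ℝ) ≤ ((Q * (X / Q + 1) : ℕ) : ℝ) := by exact_mod_cast h1.le
    push_cast at h2 ⊢
    linarith
  have hNup : ((X / Q + 1 : ℕ) : ℝ) ≤ 1.01 * (X / Q) := by
    have h1 : ((X / Q : ℕ) : ℝ) ≤ X / Q := Nat.cast_div_le
    push_cast
    linarith [hXQ2.1]
  have hN : N0 ≤ X / Q + 1 := by
    have : (N0 : ℝ) ≤ ((X / Q + 1 : ℕ) : ℝ) := hXQ2.2.trans hNlow
    exact_mod_cast this
  have hb := hN0 κ hκ L X c hN b
  have hlogN : (l - 1 / 49) * i * Real.log 2 ≤ Real.log ((X / Q + 1 : ℕ) : ℝ) := by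
    have h1 : Real.log ((2 : ℝ) ^ ((l - 1 / 50) * i)) ≤ Real.log ((X / Q + 1 : ℕ) : ℝ) :=
      Real.log_le_log (by positivity) (hXQ.trans hNlow)
    rw [Real.log_rpow (by norm_num)] at h1
    refine le_trans ?_ h1
    apply mul_le_mul_of_nonneg_right _ hlog2.le
    apply mul_le_mul_of_nonneg_right _ (by linarith)
    linarith
  have hden : 0 < (l - 1 / 49) * i * Real.log 2 := by
    have : 0 < l - 1 / 49 := by linarith
    have : (0 : ℝ) < i := by linarith
    positivity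
  have h3κ : (0 : ℝ) < 3 ^ κ := by positivity
  calc _ ≤ 27 / 2 * (((X / Q + 1 : ℕ) : ℝ) / Real.log ((X / Q + 1 : ℕ) : ℝ)) *
        ((3 ^ κ).totient : ℝ) := by
        apply mul_le_mul_of_nonneg_right hb (Nat.cast_nonneg _)
    _ ≤ 27 / 2 * ((1.01 * (X / Q)) / ((l - 1 / 49) * i * Real.log 2)) * ((3 ^ κ).totient : ℝ) := by
        apply mul_le_mul_of_nonneg_right _ (Nat.cast_nonneg _)
        apply mul_le_mul_of_nonneg_left _ (by norm_num)
        exact div_le_div₀ (by positivity) hNup hden hlogN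
    _ = 9 / 8 * 1.01 * (X / ((l - 1 / 49) * i * Real.log 2)) := by
        rw [(totient_eq κ hκ).2, hQ]
        push_cast
        field_simp
        ring

/-- **primes of a block in a class modulo `3 ^ κ`** -/
theorem block_class (h : BT4) (hp : PCStmt) : ∃ i0 : ℕ, ∀ i : ℕ, i0 ≤ i → ∀ κ : ℕ, 1 ≤ κ →
    8 * 3 ^ κ ≤ 2 ^ (i / 50) → ∀ b : ZMod (3 ^ κ),
    (((PB i 5).filter (fun q : ℕ => (q : ZMod (3 ^ κ)) = b)).card : ℝ) * ((3 ^ κ).totient : ℝ) ≤
      4.8 * ((PB i 5).card : ℝ) := by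
  obtain ⟨i1, h1⟩ := btn h
  obtain ⟨i2, h2⟩ := hp.block
  refine ⟨i1 + i2 + 1, fun i hi κ hκ hQ b => ?_⟩
  have e1 := h1 i (by omega) κ hκ hQ (2 ^ i) (2 ^ i) 5 1 (by norm_num) (by
    rw [one_mul, Real.rpow_natCast]; push_cast; exact le_rfl) b
  have e2 := h2 i (by omega)
  have hset : (PB i 5).filter (fun q : ℕ => (q : ZMod (3 ^ κ)) = b) =
      (Ioc (2 ^ i) (2 ^ i + 2 ^ i)).filter
        (fun q : ℕ => (q.Prime ∧ q % 8 = 5) ∧ (q : ZMod (3 ^ κ)) = b) := by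
    unfold PB
    rw [Finset.filter_filter, pow_succ, mul_two]
  rw [hset]
  refine e1.trans ?_
  have hiR : (0 : ℝ) < i := by exact_mod_cast (by omega : 0 < i)
  have hlog2 : 0 < Real.log 2 := Real.log_pos (by norm_num)
  have e3 : 9 / 8 * 1.01 * (((2 ^ i : ℕ) : ℝ) / ((1 - 1 / 49) * i * Real.log 2)) ≤
      4.8 * (0.99 * (2 : ℝ) ^ i / (4 * i * Real.log 2)) := by
    push_cast
    have h3 : (9 : ℝ) / 8 * 1.01 * ((2 : ℝ) ^ i / ((1 - 1 / 49) * i * Real.log 2)) =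
        (9 / 8 * 1.01 * (49 / 48)) * ((2 : ℝ) ^ i / (i * Real.log 2)) := by
      field_simp
      ring
    have h4 : (4.8 : ℝ) * (0.99 * (2 : ℝ) ^ i / (4 * i * Real.log 2)) =
        (4.8 * 0.99 / 4) * ((2 : ℝ) ^ i / (i * Real.log 2)) := by
      field_simp
    rw [h3, h4]
    apply mul_le_mul_of_nonneg_right _ (by positivity)
    norm_num
  refine e3.trans ?_
  apply mul_le_mul_of_nonneg_left e2 (by norm_num)

/-- a lower bound for the number of the large primes -/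
theorem pr_low (hp : PCStmt) : ∃ I0 : ℕ, ∀ I D c : ℕ, I0 ≤ I → 1 ≤ D → D ≤ 2 ^ (I / 6) →
    (c = 3 ∨ c = 5) →
    1 / 20 * ((2 : ℝ) ^ I / (D * I)) ≤
      (((Ioc (2 ^ (I / 2)) (2 ^ I / D)).filter (fun p => p.Prime ∧ p % 8 = c)).card : ℝ) := by
  obtain ⟨x0, hx0⟩ := hp.low
  refine ⟨2 * x0 + 800, fun I D c hI hD hD6 hc => ?_⟩
  set x : ℕ := 2 ^ I / D with hxdef
  have hxI : 2 ^ (I - I / 6) ≤ x := by
    rw [hxdef, Nat.le_div_iff_mul_le (by omega)]
    calc 2 ^ (I - I / 6) * D ≤ 2 ^ (I - I / 6) * 2 ^ (I / 6) := Nat.mul_le_mul_left _ hD6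
      _ = 2 ^ I := by rw [← pow_add]; congr 1; omega
  have hxle : x ≤ 2 ^ I := Nat.div_le_self _ _
  have hbig : I - I / 6 < 2 ^ (I - I / 6) := Nat.lt_two_pow_self
  have hx0' : x0 ≤ x := by omega
  have hx2 : 2 ≤ x := by omega
  have hcard : ((Icc 1 x).filter (fun p => p.Prime ∧ p % 8 = c)).card ≤
      ((Ioc (2 ^ (I / 2)) x).filter (fun p => p.Prime ∧ p % 8 = c)).card + 2 ^ (I / 2) := by
    have hsub : (Icc 1 x).filter (fun p => p.Prime ∧ p % 8 = c) ⊆
        ((Ioc (2 ^ (I / 2)) x).filter (fun p => p.Prime ∧ p % 8 = c)) ∪ Icc 1 (2 ^ (I / 2)) := by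
      intro p hp
      rw [Finset.mem_filter, Finset.mem_Icc] at hp
      rw [Finset.mem_union, Finset.mem_filter, Finset.mem_Ioc, Finset.mem_Icc]
      by_cases h : p ≤ 2 ^ (I / 2)
      · right; exact ⟨hp.1.1, h⟩
      · left; exact ⟨⟨by omega, hp.1.2⟩, hp.2⟩
    refine (Finset.card_le_card hsub).trans ((Finset.card_union_le _ _).trans ?_)
    rw [Nat.card_Icc, Nat.add_sub_cancel]
  have hcardR : (((Icc 1 x).filter (fun p => p.Prime ∧ p % 8 = c)).card : ℝ) ≤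
      (((Ioc (2 ^ (I / 2)) x).filter (fun p => p.Prime ∧ p % 8 = c)).card : ℝ) + 2 ^ (I / 2) := by
    exact_mod_cast hcard
  have hl := hx0 x hx0' c hc
  have hxR : (2 : ℝ) ≤ x := by exact_mod_cast hx2
  have hlogpos : 0 < Real.log x := Real.log_pos (by linarith)
  have hlogle : Real.log x ≤ I := by
    have h1 : Real.log x ≤ Real.log ((2 : ℝ) ^ I) := by
      apply Real.log_le_log (by linarith)
      exact_mod_cast hxle
    rw [Real.log_pow] at h1
    have h2 : Real.log 2 ≤ 1 := by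
      have := Real.log_two_lt_d9
      linarith
    have h3 : (0 : ℝ) ≤ I := by positivity
    nlinarith
  have hIpos : (0 : ℝ) < I := by
    have : 0 < I := by omega
    exact_mod_cast this
  have hDpos : (0 : ℝ) < D := by
    have : 0 < D := by omega
    exact_mod_cast this
  have hxlow : (2 : ℝ) ^ I / (2 * D) ≤ x := by
    have h1 : 2 ^ I < D * (x + 1) := by
      have := Nat.lt_mul_div_succ (2 ^ I) (show 0 < D by omega)
      simpa [hxdef] using this
    have h2 : (2 : ℝ) ^ I < D * (x + 1) := by exact_mod_cast h1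
    rw [div_le_iff₀ (by positivity)]
    nlinarith
  have h5 : (2 : ℝ) ^ I / (2 * D) / (5 * I) ≤ (x : ℝ) / (5 * Real.log x) := by
    apply div_le_div₀ (by positivity) hxlow (by positivity)
    linarith
  have h6 : (2 : ℝ) ^ (I / 2) ≤ 1 / 20 * (2 ^ I / (D * I)) := by
    have h7 : 20 * I * D * 2 ^ (I / 2) ≤ 2 ^ I := by
      calc 20 * I * D * 2 ^ (I / 2) ≤ 2 ^ (I / 4) * 2 ^ (I / 6) * 2 ^ (I / 2) := by
            apply Nat.mul_le_mul_right
            exact Nat.mul_le_mul (two_pow' I (by omega)) hD6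
        _ = 2 ^ (I / 4 + I / 6 + I / 2) := by rw [pow_add, pow_add]
        _ ≤ 2 ^ I := Nat.pow_le_pow_right (by norm_num) (by omega)
    have h8 : 20 * (I : ℝ) * D * 2 ^ (I / 2) ≤ 2 ^ I := by exact_mod_cast h7
    rw [one_div, inv_mul_eq_div, div_div, le_div_iff₀ (by positivity)]
    nlinarith
  have h9 : (2 : ℝ) ^ I / (2 * D) / (5 * I) = 1 / 10 * (2 ^ I / (D * I)) := by
    field_simp
    ring
  rw [h9] at h5
  linarith
where
  two_pow (m : ℕ) (hm : 200 ≤ m) : 80 * m + 60 ≤ 2 ^ m := by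
    induction m, hm using Nat.le_induction with
    | base => norm_num
    | succ n hn ih =>
      rw [pow_succ]
      omega
  two_pow' (I : ℕ) (hI : 800 ≤ I) : 20 * I ≤ 2 ^ (I / 4) := by
    have h := two_pow (I / 4) (by omega)
    omega

/-- **the large primes in a class modulo `3 ^ κ`** -/
theorem pr_class (h : BT4) (hp : PCStmt) : ∃ I0 : ℕ, ∀ I D c : ℕ, I0 ≤ I → 1 ≤ D →
    D ≤ 2 ^ (I / 6) → (c = 3 ∨ c = 5) → ∀ κ : ℕ, 1 ≤ κ → 8 * 3 ^ κ ≤ 2 ^ (I / 50) →
    ∀ b : ZMod (3 ^ κ),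
    (((((Ioc (2 ^ (I / 2)) (2 ^ I / D)).filter (fun p => p.Prime ∧ p % 8 = c))).filter
        (fun q : ℕ => (q : ZMod (3 ^ κ)) = b)).card : ℝ) * ((3 ^ κ).totient : ℝ) ≤
      60 * (((Ioc (2 ^ (I / 2)) (2 ^ I / D)).filter (fun p => p.Prime ∧ p % 8 = c)).card : ℝ) := by
  obtain ⟨I1, h1⟩ := btn h
  obtain ⟨I2, h2⟩ := pr_low hp
  refine ⟨I1 + I2 + 800, fun I D c hI hD hD6 hc κ hκ hQ b => ?_⟩
  set x : ℕ := 2 ^ I / D with hxdef
  have hxI : 2 ^ (I - I / 6) ≤ x := by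
    rw [hxdef, Nat.le_div_iff_mul_le (by omega)]
    calc 2 ^ (I - I / 6) * D ≤ 2 ^ (I - I / 6) * 2 ^ (I / 6) := Nat.mul_le_mul_left _ hD6
      _ = 2 ^ I := by rw [← pow_add]; congr 1; omega
  have hlow := h2 I D c (by omega) hD hD6 hc
  have hIpos : (0 : ℝ) < I := by
    have : 0 < I := by omega
    exact_mod_cast this
  have hDpos : (0 : ℝ) < D := by
    have : 0 < D := by omega
    exact_mod_cast this
  have hX : (2 : ℝ) ^ ((2 / 3 : ℝ) * I) ≤ x := by
    have e1 : (2 : ℝ) ^ (I - I / 6) ≤ x := by exact_mod_cast hxI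
    refine le_trans ?_ e1
    rw [← Real.rpow_natCast]
    apply Real.rpow_le_rpow_of_exponent_le (by norm_num)
    have e2 : 4 * I ≤ 6 * (I - I / 6) := by omega
    have e3 : (4 : ℝ) * I ≤ 6 * ((I - I / 6 : ℕ) : ℝ) := by exact_mod_cast e2
    linarith
  have e1 := h1 I (by omega) κ hκ hQ 0 x c (2 / 3) (by norm_num) hX b
  have hsub : (((Ioc (2 ^ (I / 2)) x).filter (fun p => p.Prime ∧ p % 8 = c))).filter
        (fun q : ℕ => (q : ZMod (3 ^ κ)) = b) ⊆ (Ioc 0 (0 + x)).filter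
        (fun q : ℕ => (q.Prime ∧ q % 8 = c) ∧ (q : ZMod (3 ^ κ)) = b) := by
    intro q hq
    rw [mem_filter, mem_filter, mem_Ioc] at hq
    rw [mem_filter, mem_Ioc]
    exact ⟨⟨by omega, by omega⟩, hq.1.2, hq.2⟩
  have e2 : (((((Ioc (2 ^ (I / 2)) x).filter (fun p => p.Prime ∧ p % 8 = c))).filter
        (fun q : ℕ => (q : ZMod (3 ^ κ)) = b)).card : ℝ) ≤
      (((Ioc 0 (0 + x)).filter
        (fun q : ℕ => (q.Prime ∧ q % 8 = c) ∧ (q : ZMod (3 ^ κ)) = b)).card : ℝ) := by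
    exact_mod_cast card_le_card hsub
  refine (mul_le_mul_of_nonneg_right e2 (Nat.cast_nonneg _)).trans (e1.trans ?_)
  have hxR : (x : ℝ) ≤ 2 ^ I / D := by
    have := @Nat.cast_div_le ℝ _ _ _ (2 ^ I) D
    rw [← hxdef] at this
    push_cast at this
    exact this
  have hl2 := Real.log_two_gt_d9
  calc 9 / 8 * 1.01 * ((x : ℝ) / ((2 / 3 - 1 / 49) * I * Real.log 2))
      ≤ 9 / 8 * 1.01 * ((2 ^ I / D) / ((2 / 3 - 1 / 49) * I * 0.69)) := by
        apply mul_le_mul_of_nonneg_left _ (by norm_num)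
        apply div_le_div₀ (by positivity) hxR (by positivity)
        apply mul_le_mul_of_nonneg_left (by linarith) (by positivity)
    _ = (9 / 8 * 1.01 / ((2 / 3 - 1 / 49) * 0.69)) * (2 ^ I / (D * I)) := by
        field_simp
    _ ≤ 3 * (2 ^ I / (D * I)) := by
        apply mul_le_mul_of_nonneg_right _ (by positivity)
        norm_num
    _ = 60 * (1 / 20 * (2 ^ I / (D * I))) := by ring
    _ ≤ _ := by
        apply mul_le_mul_of_nonneg_left hlow (by norm_num)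

theorem card_split (P : ℕ → Prop) [DecidablePred P] (x y : ℕ) (h : x ≤ y) :
    (((Icc 1 y).filter P).card : ℝ) = (((Icc 1 x).filter P).card : ℝ) +
      (((Ioc x y).filter P).card : ℝ) := by
  have hu : (Icc 1 y).filter P = (Icc 1 x).filter P ∪ (Ioc x y).filter P := by
    rw [← Finset.filter_union]
    congr 1
    ext a
    simp only [mem_Icc, mem_union, mem_Ioc]
    omega
  have hd : Disjoint ((Icc 1 x).filter P) ((Ioc x y).filter P) := by
    rw [Finset.disjoint_left]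
    intro a ha hb
    rw [mem_filter, mem_Icc] at ha
    rw [mem_filter, mem_Ioc] at hb
    omega
  rw [hu, card_union_of_disjoint hd]
  push_cast
  rfl

/-- **primes of a block in a class modulo 9** -/
theorem block9 (hp : PCStmt) (ε : ℝ) (hε : 0 < ε) : ∃ i0 : ℕ, ∀ i : ℕ, i0 ≤ i →
    ∀ b : ZMod 9, IsUnit b →
    |(((PB i 5).filter (fun q : ℕ => (q : ZMod 9) = b)).card : ℝ) - ((PB i 5).card : ℝ) / 6| ≤
      ε * ((PB i 5).card : ℝ) := by
  obtain ⟨x0, h1⟩ := Pool.Agent.H387R2.Uni.siegel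
  obtain ⟨i2, h2⟩ := hp.block
  obtain ⟨i3, h3⟩ := exists_nat_gt (1000 / ε)
  refine ⟨x0 + i2 + i3 + 20, fun i hi b hb => ?_⟩
  have hiR : (20 : ℝ) ≤ i := by exact_mod_cast (by omega : 20 ≤ i)
  have hi3 : (i3 : ℝ) ≤ i := by exact_mod_cast (by omega : i3 ≤ i)
  have hl2 := Real.log_two_gt_d9
  have hl2' := Real.log_two_lt_d9
  have hlt : i < 2 ^ i := Nat.lt_two_pow_self
  -- the error terms
  have herr : ∀ j : ℕ, i ≤ j → j ≤ i + 1 → ∀ q a : ℕ, 1 ≤ q → q ≤ 72 → a < q → a.Coprime q →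
      |H343E.piAP (2 ^ j) q a - H343E.pi1 (2 ^ j) / (Nat.totient q : ℝ)| ≤
        2 * 2 ^ i / (i * Real.log 2) ^ 6 := by
    intro j hj1 hj2 q a hq hq72 ha hac
    have hlog : Real.log ((2 ^ j : ℕ) : ℝ) = j * Real.log 2 := by
      push_cast; rw [Real.log_pow]
    have hjR : (i : ℝ) ≤ j := by exact_mod_cast hj1
    have h72 : (72 : ℝ) ≤ (j * Real.log 2) ^ 2 := by
      have : (13 : ℝ) ≤ j * Real.log 2 := by nlinarith
      nlinarith
    have h := h1 (2 ^ j) (by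
      have : 2 ^ i ≤ 2 ^ j := Nat.pow_le_pow_right (by norm_num) hj1
      omega) q hq (by
        rw [hlog]
        have : (q : ℝ) ≤ 72 := by exact_mod_cast hq72
        linarith) a ha hac
    rw [hlog] at h
    refine h.trans ?_
    apply div_le_div₀ (by positivity) _ (by positivity)
    · apply pow_le_pow_left₀ (by positivity)
      apply mul_le_mul_of_nonneg_right hjR (by positivity)
    · push_cast
      calc (2 : ℝ) ^ j ≤ 2 ^ (i + 1) := pow_le_pow_right₀ (by norm_num) hj2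
        _ = 2 * 2 ^ i := by rw [pow_succ]; ring
  -- the class modulo 72
  have hcls : ∀ bv < 9, (64 * bv + 45) % 72 % 8 = 5 ∧ (64 * bv + 45) % 72 % 9 = bv := by decide
  obtain ⟨c8, c9⟩ := hcls b.val (ZMod.val_lt b)
  set a := (64 * b.val + 45) % 72 with ha
  have ha72 : a < 72 := Nat.mod_lt _ (by norm_num)
  have hbv : Nat.Coprime b.val 9 := by
    have := (ZMod.isUnit_iff_coprime b.val 9).1 (by rwa [ZMod.natCast_zmod_val])
    exact this
  have hac : a.Coprime 72 := by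
    have e8 : a.Coprime 8 := by
      have : Nat.gcd (a % 8) 8 = 1 := by rw [c8]; norm_num
      rw [Nat.Coprime, Nat.gcd_comm, Nat.gcd_rec]
      exact this
    have e9 : a.Coprime 9 := by
      have : Nat.gcd (a % 9) 9 = 1 := by rw [c9]; exact hbv
      rw [Nat.Coprime, Nat.gcd_comm, Nat.gcd_rec]
      exact this
    exact Nat.Coprime.mul_right e8 e9
  have hs8 : ∀ x, H343E.piAP x 8 5 = (((Icc 1 x).filter (fun p => p.Prime ∧ p % 8 = 5)).card : ℝ) := by
    intro x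
    unfold H343E.piAP
    congr 2
  have hs72 : ∀ x, H343E.piAP x 72 a =
      (((Icc 1 x).filter (fun p : ℕ => (p.Prime ∧ p % 8 = 5) ∧ (p : ZMod 9) = b)).card : ℝ) := by
    intro x
    unfold H343E.piAP
    congr 2
    ext p
    have hk : (p : ZMod 9) = b ↔ p % 9 = b.val := by
      constructor
      · intro h
        rw [← h, ZMod.val_natCast]
      · intro h
        have h5 : ((p : ℕ) : ZMod 9) = ((p % 9 : ℕ) : ZMod 9) := (ZMod.natCast_mod p 9).symm
        rw [h5, h, ZMod.natCast_zmod_val]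
    have hm : p ≡ a [MOD 72] ↔ p % 72 = a := by
      unfold Nat.ModEq
      rw [Nat.mod_eq_of_lt ha72]
    rw [mem_filter, mem_filter, mem_Icc, hk, hm]
    constructor
    · rintro ⟨hx, hp, he⟩
      refine ⟨hx, ⟨hp, by omega⟩, by omega⟩
    · rintro ⟨hx, ⟨hp, he⟩, he2⟩
      refine ⟨hx, hp, by omega⟩
  have hle : 2 ^ i ≤ 2 ^ (i + 1) := Nat.pow_le_pow_right (by norm_num) (by omega)
  have hd8 : ((PB i 5).card : ℝ) = H343E.piAP (2 ^ (i + 1)) 8 5 - H343E.piAP (2 ^ i) 8 5 := by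
    rw [hs8, hs8, card_split (fun p => p.Prime ∧ p % 8 = 5) _ _ hle]
    unfold PB
    ring
  have hd72 : (((PB i 5).filter (fun q : ℕ => (q : ZMod 9) = b)).card : ℝ) =
      H343E.piAP (2 ^ (i + 1)) 72 a - H343E.piAP (2 ^ i) 72 a := by
    rw [hs72, hs72, card_split (fun p : ℕ => (p.Prime ∧ p % 8 = 5) ∧ (p : ZMod 9) = b) _ _ hle]
    unfold PB
    rw [Finset.filter_filter]
    ring
  have g1 := herr i le_rfl (by omega) 8 5 (by norm_num) (by norm_num) (by norm_num) (by norm_num)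
  have g2 := herr (i + 1) (by omega) le_rfl 8 5 (by norm_num) (by norm_num) (by norm_num)
    (by norm_num)
  have g3 := herr i le_rfl (by omega) 72 a (by norm_num) (by norm_num) ha72 hac
  have g4 := herr (i + 1) (by omega) le_rfl 72 a (by norm_num) (by norm_num) ha72 hac
  have t8 : (Nat.totient 8 : ℝ) = 4 := by
    have : Nat.totient 8 = 4 := by decide
    rw [this]; norm_num
  have t72 : (Nat.totient 72 : ℝ) = 24 := by
    have : Nat.totient 72 = 24 := by decide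
    rw [this]; norm_num
  rw [t8] at g1 g2
  rw [t72] at g3 g4
  have hE : 2 * (2 : ℝ) ^ i / (i * Real.log 2) ^ 6 * 3 ≤ ε * ((PB i 5).card : ℝ) := by
    refine le_trans ?_ (mul_le_mul_of_nonneg_left (h2 i (by omega)) hε.le)
    have hil : 0 < (i : ℝ) * Real.log 2 := by positivity
    have h5 : (100 : ℝ) ≤ ε * (i * Real.log 2) := by
      rw [div_lt_iff₀ hε] at h3
      nlinarith
    have h6 : (1 : ℝ) ≤ i * Real.log 2 := by nlinarith
    have e1 : 2 * (2 : ℝ) ^ i / (i * Real.log 2) ^ 6 * 3 =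
        (2 : ℝ) ^ i / (i * Real.log 2) * (6 / (i * Real.log 2) ^ 5) := by
      field_simp
      ring
    have e2 : ε * (0.99 * (2 : ℝ) ^ i / (4 * i * Real.log 2)) =
        (2 : ℝ) ^ i / (i * Real.log 2) * (ε * 0.99 / 4) := by
      field_simp
    rw [e1, e2]
    apply mul_le_mul_of_nonneg_left _ (by positivity)
    rw [div_le_iff₀ (by positivity)]
    have h7 : i * Real.log 2 ≤ (i * Real.log 2) ^ 5 := by
      calc (i : ℝ) * Real.log 2 = (i * Real.log 2) ^ 1 := (pow_one _).symm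
        _ ≤ (i * Real.log 2) ^ 5 := pow_le_pow_right₀ h6 (by norm_num)
    have h8 : ε * (i * Real.log 2) ≤ ε * (i * Real.log 2) ^ 5 := mul_le_mul_of_nonneg_left h7 hε.le
    nlinarith
  refine le_trans ?_ hE
  rw [hd8, hd72]
  have a1 := abs_le.1 g1
  have a2 := abs_le.1 g2
  have a3 := abs_le.1 g3
  have a4 := abs_le.1 g4
  rw [abs_le]
  constructor <;> linarith [a1.1, a1.2, a2.1, a2.2, a3.1, a3.2, a4.1, a4.2]

end Pool.Agent.NH75.PC.AN
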