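import Pool.Agent.NH75.PC.Stm
import Pool.Agent.H307R2.OP.PX
import Pool.Agent.H397R2.PP.VAN
import Pool.Agent.H397R2.PP.TH

set_option autoImplicit false

/-!
# Parity changes of the partition function: the algebraic part
-/

namespace Pool.Agent.NH75.PC

open PowerSeries Pool.Agent.H397R2.PP Pool.Agent.H397R2.PP.TH

theorem algA : AlgA := by
  intro r m N h hr hm hN hcls
  -- `N = 8 n0 + m`
  have h1 : Db ^ m = X ^ m * PowerSeries.expand 8 (by norm_num)
      (pentagonalSeries (ZMod 2) ^ (3 * m)) := by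
    rw [← pow_eq_expand' 8 3 (by norm_num) (by norm_num), Db, mul_pow, ← pow_mul, ← pow_mul]
    congr 2
    ring
  have hN0 : ∃ n0 : ℕ, N = 8 * n0 + m := by
    rw [h1, coeff_X_pow_mul'] at hN
    split_ifs at hN with hmN
    · rw [coeff_expand] at hN
      split_ifs at hN with hd
      · obtain ⟨c, hc⟩ := hd
        exact ⟨c, by omega⟩
      · exact absurd hN (by decide)
    · exact absurd hN (by decide)
  obtain ⟨n0, rfl⟩ := hN0
  -- the vanishing coefficient
  have h0 : coeff (8 * (n0 + h) + m) (Db ^ m) = 0 := by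
    have hK : 1 ≤ 2 ^ (r - 1) := Nat.one_le_two_pow
    have e1 : 8 * (n0 + h) + m =
        3 ^ (2 ^ (r - 1) - 1) * (3 * ((8 * n0 + m + 8 * h) / 3 ^ (2 ^ (r - 1))) + 1) := by
      have e2 := Nat.div_add_mod (8 * n0 + m + 8 * h) (3 ^ (2 ^ (r - 1)))
      rw [hcls] at e2
      have e3 : 3 ^ (2 ^ (r - 1)) = 3 ^ (2 ^ (r - 1) - 1) * 3 := by
        rw [← pow_succ]
        congr 1
        omega
      calc 8 * (n0 + h) + m = 8 * n0 + m + 8 * h := by ring
        _ = 3 ^ (2 ^ (r - 1)) * ((8 * n0 + m + 8 * h) / 3 ^ (2 ^ (r - 1))) +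
            3 ^ (2 ^ (r - 1) - 1) := e2.symm
        _ = 3 ^ (2 ^ (r - 1) - 1) * 3 * ((8 * n0 + m + 8 * h) / 3 ^ (2 ^ (r - 1))) +
            3 ^ (2 ^ (r - 1) - 1) := by
            congr 2
        _ = _ := by ring
    rw [e1]
    exact coeff_vanish_of modular_equation r m _ (by omega) hm (by omega)
  rw [← partition_identity r m n0 hm] at hN
  rw [← partition_identity r m (n0 + h) hm] at h0
  -- the common range
  have hrange : (∑ j ∈ Finset.Icc (-(n0 : ℤ)) n0,
      if 4 ^ r * pentagonal j ≤ n0 then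
        (Fintype.card (Nat.Partition (n0 - 4 ^ r * pentagonal j)) : ZMod 2) else 0) =
      ∑ j ∈ Finset.Icc (-((n0 + h : ℕ) : ℤ)) ((n0 + h : ℕ) : ℤ),
      if 4 ^ r * pentagonal j ≤ n0 then
        (Fintype.card (Nat.Partition (n0 - 4 ^ r * pentagonal j)) : ZMod 2) else 0 := by
    apply Finset.sum_subset
    · apply Finset.Icc_subset_Icc
      · push_cast; omega
      · push_cast; omega
    · intro j _ hj
      rw [if_neg]
      intro hle
      apply hj
      have e1 := natAbs_le_pentagonal j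
      have e2 : pentagonal j ≤ 4 ^ r * pentagonal j := Nat.le_mul_of_pos_left _ (by positivity)
      have e3 : (pentagonal j : ℤ) ≤ n0 := by exact_mod_cast e2.trans hle
      exact Finset.mem_Icc.2 (abs_le.1 (e1.trans e3))
  rw [hrange] at hN
  have hsum : (∑ j ∈ Finset.Icc (-((n0 + h : ℕ) : ℤ)) ((n0 + h : ℕ) : ℤ),
      ((if 4 ^ r * pentagonal j ≤ n0 then
        (Fintype.card (Nat.Partition (n0 - 4 ^ r * pentagonal j)) : ZMod 2) else 0) +
      (if 4 ^ r * pentagonal j ≤ n0 + h then
        (Fintype.card (Nat.Partition (n0 + h - 4 ^ r * pentagonal j)) : ZMod 2) else 0))) ≠ 0 := by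
    rw [Finset.sum_add_distrib, hN, h0]
    decide
  obtain ⟨j, -, hj⟩ := Finset.exists_ne_zero_of_sum_ne_zero hsum
  have h5 : ((6 * j - 1).natAbs ^ 2 : ℕ) = 24 * pentagonal j + 1 := by
    have h4 := pent_sq j
    have : (((6 * j - 1).natAbs ^ 2 : ℕ) : ℤ) = ((24 * pentagonal j + 1 : ℕ) : ℤ) := by
      push_cast
      rw [sq_abs, ← h4]
    exact_mod_cast this
  by_cases hle : 4 ^ r * pentagonal j ≤ n0
  · left
    obtain ⟨d, hd⟩ := Nat.exists_eq_add_of_le hle
    have h6 : n0 - 4 ^ r * pentagonal j = d := by omega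
    have h7 : n0 + h - 4 ^ r * pentagonal j = d + h := by omega
    rw [if_pos hle, if_pos (by omega), h6, h7] at hj
    refine ⟨d, (6 * j - 1).natAbs, ?_, ?_⟩
    · rw [← Nat.not_even_iff_odd]
      intro he
      apply hj
      have := (ZMod.natCast_eq_zero_iff_even).2 he
      push_cast at this
      exact this
    · rw [h5]
      generalize hq : (4 : ℕ) ^ r = q at *
      nlinarith
  · right
    rw [if_neg hle, zero_add] at hj
    split_ifs at hj with hle2
    · refine ⟨4 ^ r * pentagonal j - n0, by omega, (6 * j - 1).natAbs, ?_⟩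
      rw [h5]
      obtain ⟨d, hd⟩ := Nat.exists_eq_add_of_le (show n0 ≤ 4 ^ r * pentagonal j by omega)
      have h6 : 4 ^ r * pentagonal j - n0 = d := by omega
      rw [h6]
      generalize hq : (4 : ℕ) ^ r = q at *
      nlinarith
    · exact absurd rfl hj

end Pool.Agent.NH75.PC
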