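import Pool.Agent.NH75.PC.Stm
import Pool.Agent.H307R2.OP.BTOT

set_option autoImplicit false

/-!
# Parity changes: the tuples of a class that are lost
(the argument of `Pool.Agent.H307R2.OP.badTotal`, restricted to a class modulo a power of three)
-/

namespace Pool.Agent.NH75.PC

open Finset Filter Topology
open Pool.Agent.H307R2.OP
open Pool.Agent.H307R2.OP.BT

open Classical in
/-- the tuples of a class that are lost -/
theorem badTotalA (h1 : QRStmt) (h2 : TupStmt) (h4 : TupLargeA) (h5 : TupSmallA)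
    (h6 : TupZeroA) (h7 : BadSum) (h8 : BadNum) (h9 : StrongBad) (h10 : ParStmt) :
    BadTotalA := by
  intro M hM c0 hc0 hh
  obtain ⟨C5, hC5, I5, hsmall⟩ := h5
  obtain ⟨C9, hC9⟩ := h9
  obtain ⟨y7, hy7⟩ := h7 M hM
  obtain ⟨y8, hy8⟩ := h8 M hM 0.001 (by norm_num)
  obtain ⟨y10, hy10⟩ := h10 M hM
  obtain ⟨ya, hya'⟩ := ev_pow (2 * M + 4) 2 (by norm_num) (48 * 2 ^ M) c0 hc0
  obtain ⟨yb, hyb'⟩ := ev_pow 1 ((2 : ℝ) ^ (0.29 : ℝ))
    (Real.one_lt_rpow (by norm_num) (by norm_num)) (32 * 2 ^ M * ((hh + 1) * (5 * hh + 3))) c0 hc0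
  obtain ⟨yc, hyc⟩ := ev_pow (2 * M + 4) 2 (by norm_num) 2 1 one_pos
  obtain ⟨yd, hyd'⟩ := ev_exp (8 * M * C5 * 2 ^ M) c0 hc0
  refine ⟨C9 + I5 + y7 + y8 + y10 + ya + yb + yc + yd + 15,
    fun y hy I hI1 hI2 R c hRC κ a hκ1 hκ2 ha3 => ?_⟩
  have hyR : (0 : ℝ) < y := by exact_mod_cast (by omega : 0 < y)
  have hyI0 : y ≤ I := (Nat.le_self_pow (by omega) y).trans hI1
  have hya : 48 * (2 : ℝ) ^ M * (y : ℝ) ^ (2 * M + 4) ≤ c0 * 2 ^ y := hya' y (by omega)
  have hyd : 8 * M * C5 * 2 ^ M * Real.exp (-(0.002 * (y : ℝ))) ≤ c0 := hyd' y (by omega)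
  have hT : 3 ^ (κ + 1) ≤ 2 ^ (I / 100) := by
    have e1 : 3 ^ (κ + 1) ≤ 2 ^ (2 * κ + 2) := by
      calc 3 ^ (κ + 1) ≤ 4 ^ (κ + 1) := Nat.pow_le_pow_left (by norm_num) _
        _ = 2 ^ (2 * κ + 2) := by
          rw [show (4 : ℕ) = 2 ^ 2 by norm_num, ← pow_mul]
          congr 1
    refine e1.trans (Nat.pow_le_pow_right (by norm_num) ?_)
    rw [Nat.le_div_iff_mul_le (by norm_num)]
    have e2 : y ^ (2 * M + 4) = y ^ 5 * y ^ (2 * M - 1) := by
      rw [← pow_add]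
      congr 1
      omega
    have e3 : 1 ≤ y ^ (2 * M - 1) := Nat.one_le_pow _ _ (by omega)
    have e4 : 400 ≤ y ^ 5 := by
      calc 400 ≤ 15 ^ 5 := by norm_num
        _ ≤ y ^ 5 := Nat.pow_le_pow_left (by omega) 5
    have e5 : 400 * y ^ (2 * M - 1) ≤ y ^ 5 * y ^ (2 * M - 1) := Nat.mul_le_mul_right _ e4
    omega
  have hT0 : (0 : ℝ) < 3 ^ κ := by positivity
  have hTr : (3 : ℝ) ^ κ ≤ (2 : ℝ) ^ ((I : ℝ) * 0.01) := by
    have e1 : (3 : ℝ) ^ κ ≤ (2 : ℝ) ^ (I / 100) := by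
      have : 3 ^ κ ≤ 2 ^ (I / 100) := le_trans (Nat.pow_le_pow_right (by norm_num) (by omega)) hT
      exact_mod_cast this
    refine e1.trans ?_
    rw [← Real.rpow_natCast]
    apply Real.rpow_le_rpow_of_exponent_le (by norm_num)
    have := Nat.cast_div_le (α := ℝ) (m := I) (n := 100)
    push_cast at this
    linarith
  obtain ⟨hOk, hcard, hYr1, hYr2, hk, hS, hκ, hk2, -, hW⟩ :=
    hy10 y (by omega) I hI1 hI2 R c hRC.card hRC.pr hRC.le hRC.cl
  have h7' := hy7 y (by omega) I hI1 hI2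
  obtain ⟨h8a, h8b⟩ := hy8 y (by omega) I hI1 hI2
  set g := cfg M y I R c with hg
  have hgI : g.I = I := rfl
  have hgr : g.r = rr M y := rfl
  have hgR : g.R = R := rfl
  have hgκ : ∀ j, g.κ j = kap M y j := fun _ => rfl
  have hgRp : g.Rp = ∏ q ∈ R, q := rfl
  set Y := y ^ (2 * M - 1) with hY
  have hy1 : 1 ≤ y := by omega
  have hyY : y ≤ Y := by
    calc y = y ^ 1 := (pow_one y).symm
      _ ≤ y ^ (2 * M - 1) := Nat.pow_le_pow_right hy1 (by omega)
  have hyI : y ≤ I := by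
    calc y = y ^ 1 := (pow_one y).symm
      _ ≤ y ^ (2 * M + 4) := Nat.pow_le_pow_right hy1 (by omega)
      _ ≤ I := hI1
  have hI : 1 ≤ I := by omega
  have hIr : (1 : ℝ) ≤ I := by exact_mod_cast hI
  have hRp1 : 1 ≤ g.Rp := by
    rw [hgRp]
    exact Finset.prod_pos fun q hq => (hRC.pr q hq).1.pos
  have hRpr : (1 : ℝ) ≤ g.Rp := by exact_mod_cast hRp1
  have hW0 : 0 < g.W := lt_of_lt_of_le (by positivity) hW
  set A : ℝ := 2 ^ I / (g.Rp * I) * g.W / 3 ^ κ with hA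
  have hA0 : 0 < A := by positivity
  -- numbers of the tuples
  have hNodd : ∀ t ∈ g.Tup, g.N t % 2 = 1 ∧ g.N t ≤ 2 ^ I := by
    intro t ht
    obtain ⟨s, hs1, hs2, -, -, -, -, -, hs8⟩ := h2 M g hOk t ht
    rw [← hs2]
    refine ⟨prod_odd s fun q hq => ⟨(hs1 q hq).1, (hs1 q hq).2.1⟩, ?_⟩
    rw [hs2]
    exact hs8
  -- the three parts
  have hNodd' : ∀ t ∈ TupA g κ a, g.N t % 2 = 1 ∧ g.N t ≤ 2 ^ I := fun t ht =>
    hNodd t (Finset.mem_filter.1 ht).1
  set La := g.Tup.filter (fun t => ∃ b ≤ hh, ∃ u : ℕ, 3 * g.N t + 1 + 24 * b = 4 ^ g.r * u ^ 2)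
    with hLa
  set D := (Icc 1 (3 * 2 ^ I)).filter (fun δ => Adm δ ∧ Bad I y δ) with hD
  let P : ℕ → Finset (Σ _ : Fin M → Finset ℕ, ℕ) :=
    fun δ => (TupA g κ a).filter (fun t => Rep g.r δ (g.N t))
  have hsub : (TupA g κ a).filter (fun t => (∃ δ : ℕ, Adm δ ∧ Bad I y δ ∧
      Rep (rr M y) δ (g.N t)) ∨
      ∃ b ≤ hh, ∃ u : ℕ, 3 * g.N t + 1 + 24 * b = 4 ^ (rr M y) * u ^ 2) ⊆ La ∪ D.biUnion P := by
    intro t ht
    rw [Finset.mem_filter] at ht
    rw [Finset.mem_union]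
    rcases ht.2 with ⟨δ, hδ1, hδ2, hδ3⟩ | hu
    · right
      rw [Finset.mem_biUnion]
      obtain ⟨hN1, hN2⟩ := hNodd' t ht.1
      refine ⟨δ, ?_, Finset.mem_filter.2 ⟨ht.1, hδ3⟩⟩
      rw [hD, Finset.mem_filter]
      refine ⟨rep_le ?_ hδ1 hN1 I hN2 hδ3, hδ1, hδ2⟩
      have := hOk.hr
      rw [hgr] at this
      omega
    · left
      exact Finset.mem_filter.2 ⟨(Finset.mem_filter.1 ht.1).1, hu⟩
  -- (a)
  have hLa1 : (La.card : ℝ) ≤ A * (c0 / (8 * 2 ^ M)) := by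
    have h := h6 M g hOk hh
    have hhr : (0 : ℝ) ≤ hh := Nat.cast_nonneg _
    set q : ℝ := (hh + 1) * (5 * hh + 3) with hq
    have hq0 : 0 < q := by positivity
    have hU0 : 0 ≤ g.U := by
      unfold Cfg.U
      positivity
    have h' : (La.card : ℝ) ≤ q * (2 ^ (I / 8) * (Real.sqrt (3 * 2 ^ I) / 2 ^ g.r + 2)) := by
      refine h.trans ?_
      have hU1 : g.U = Real.sqrt (3 * 2 ^ I) / 2 ^ g.r := rfl
      rw [← hU1, hgI, hq]
      have h3 : g.U + 5 * hh + 3 ≤ (5 * hh + 3) * (g.U + 2) := by nlinarith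
      calc ((hh : ℝ) + 1) * (2 ^ (I / 8) * (g.U + 5 * hh + 3))
          ≤ ((hh : ℝ) + 1) * (2 ^ (I / 8) * ((5 * hh + 3) * (g.U + 2))) := by gcongr
        _ = _ := by ring
    have hb : 32 * (2 : ℝ) ^ M * (I : ℝ) ^ 1 ≤ c0 / (q * 3 ^ κ) * ((2 : ℝ) ^ (0.3 : ℝ)) ^ I := by
      have h1 := hyb' I (by omega)
      rw [div_mul_eq_mul_div, le_div_iff₀ (by positivity)]
      have e1 : ((2 : ℝ) ^ (0.3 : ℝ)) ^ I =
          ((2 : ℝ) ^ (0.29 : ℝ)) ^ I * (2 : ℝ) ^ ((I : ℝ) * 0.01) := by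
        rw [← Real.rpow_natCast, ← Real.rpow_mul (by norm_num), ← Real.rpow_natCast,
          ← Real.rpow_mul (by norm_num), ← Real.rpow_add (by norm_num)]
        congr 1
        ring
      rw [e1]
      calc 32 * (2 : ℝ) ^ M * (I : ℝ) ^ 1 * (q * 3 ^ κ)
          = (32 * 2 ^ M * ((hh + 1) * (5 * hh + 3)) * (I : ℝ) ^ 1) * 3 ^ κ := by rw [hq]; ring
        _ ≤ (c0 * ((2 : ℝ) ^ (0.29 : ℝ)) ^ I) * (2 : ℝ) ^ ((I : ℝ) * 0.01) :=
            mul_le_mul h1 hTr (by positivity) (by positivity)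
        _ = _ := by ring
    have h2 := zero_num M I g.r g.Rp (c0 / (q * 3 ^ κ)) g.W ((La.card : ℝ) / q)
      (by positivity) hI hRp1 (by rw [hgRp]; exact hRC.le) hW hb (by
        rw [div_le_iff₀ hq0]
        linarith)
    rw [div_le_iff₀ hq0] at h2
    refine h2.trans (le_of_eq ?_)
    rw [hA]
    field_simp
  -- (b1)
  have hb1 : ∑ δ ∈ D.filter (fun δ => 2 ^ (8 * Y) < δ), ((P δ).card : ℝ) ≤
      A * (c0 / (8 * 2 ^ M)) := by
    set H := ∑ j, g.k j + g.R.card + 1 with hH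
    have hH1 : H ≤ Y := by
      have : H = 2 ^ (rr M y - 1) - 1 := hcard
      omega
    have h := large_num M I g.r g.Rp H Y y c0 g.W
      (∑ δ ∈ D.filter (fun δ => 2 ^ (8 * Y) < δ), 1 / Real.sqrt δ) hc0 hI hI2 hRp1 hW0.le hH1 hyY
      hya (by
        refine le_trans (le_of_eq ?_) h7'
        apply Finset.sum_congr _ (fun _ _ => rfl)
        rw [hD, Finset.filter_filter]
        ext δ
        simp only [Finset.mem_filter]
        tauto)
    have h' := div_le_div_of_nonneg_right h hT0.le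
    have hAeq : A * (c0 / (8 * 2 ^ M)) =
        2 ^ I / (g.Rp * I) * g.W * (c0 / (8 * 2 ^ M)) / 3 ^ κ := by
      rw [hA]
      ring
    rw [hAeq]
    refine le_trans ?_ h'
    rw [Finset.mul_sum, Finset.sum_div]
    refine Finset.sum_le_sum fun δ hδ => ?_
    have hδ2 := (Finset.mem_filter.1 (Finset.mem_filter.1 hδ).1)
    have h9 := h4 M g hOk κ a hκ1 ha3 (by rw [hgI]; exact hT) δ hδ2.2.1
    have hδ0 : (0 : ℝ) < δ := by
      have := (Finset.mem_Icc.1 hδ2.1).1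
      exact_mod_cast this
    refine h9.trans (le_of_eq ?_)
    rw [Real.sqrt_div (by positivity)]
    unfold Cfg.U
    rw [hgI]
    ring
  -- (b2), (b3)
  have hb3 : ∑ δ ∈ D.filter (fun δ => ¬ 2 ^ (8 * Y) < δ), ((P δ).card : ℝ) ≤
      A * (c0 / (8 * 2 ^ M)) := by
    set D' := D.filter (fun δ => ¬ 2 ^ (8 * Y) < δ) with hD'
    let Dj : Fin M → Finset ℕ := fun j => D'.filter (fun δ => ¬ StrongAt (kap M y j) δ ∧
      ((j : ℕ) + 1 < M → StrongAt (kap M y ((j : ℕ) + 1)) δ))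
    have hmemD : ∀ δ ∈ D', 1 ≤ δ ∧ δ ≤ 2 ^ (8 * Y) ∧ Adm δ ∧ Bad I y δ := by
      intro δ hδ
      obtain ⟨ha, hb⟩ := Finset.mem_filter.1 hδ
      obtain ⟨hc, hd⟩ := Finset.mem_filter.1 ha
      exact ⟨(Finset.mem_Icc.1 hc).1, not_lt.1 hb, hd.1, hd.2⟩
    have hpt : ∀ δ ∈ D', ((P δ).card : ℝ) ≤
        ∑ j : Fin M, if δ ∈ Dj j then ((P δ).card : ℝ) else 0 := by
      intro δ hδ
      obtain ⟨hδ1, hδ2, hδ3, hδ4⟩ := hmemD δ hδ
      by_cases hst : StrongAt (kap M y 0) δ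
      · -- killed
        obtain ⟨q, hqR, hqJ⟩ := hRC.kills δ hδ3 hδ2 hst
        have hempty : P δ = ∅ := by
          apply Finset.filter_eq_empty_iff.2
          intro t ht
          obtain ⟨s, -, -, -, -, hs5, -, hs7, -⟩ := h2 M g hOk t (Finset.mem_filter.1 ht).1
          have hqs : q ∈ s := hs5 hqR
          exact h1.kill g.r δ (g.N t) q hδ3 (hRC.pr q hqR).1 (hRC.pr q hqR).2.1 hqJ
            (hs7 q hqs).1 (hs7 q hqs).2
        rw [hempty]
        simp
      · obtain ⟨j, hj1, hj2⟩ := last_level hM (fun i => StrongAt (kap M y i) δ) hst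
        have hmem : δ ∈ Dj j := Finset.mem_filter.2 ⟨hδ, hj1, hj2⟩
        calc ((P δ).card : ℝ) = (if δ ∈ Dj j then ((P δ).card : ℝ) else 0) := by
              rw [if_pos hmem]
          _ ≤ ∑ j : Fin M, if δ ∈ Dj j then ((P δ).card : ℝ) else 0 :=
              Finset.single_le_sum
                (f := fun j : Fin M => if δ ∈ Dj j then ((P δ).card : ℝ) else 0)
                (fun i _ => by positivity) (Finset.mem_univ j)
    have hjb : ∀ j : Fin M, ∑ δ ∈ D', (if δ ∈ Dj j then ((P δ).card : ℝ) else 0) ≤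
        C5 * A * Real.exp (-(0.002 * (y : ℝ))) := by
      intro j
      have hsum : ∑ δ ∈ D', (if δ ∈ Dj j then ((P δ).card : ℝ) else 0) =
          ∑ δ ∈ Dj j, ((P δ).card : ℝ) := by
        rw [← Finset.sum_filter]
        apply Finset.sum_congr _ (fun _ _ => rfl)
        ext δ
        simp only [Finset.mem_filter, Dj]
        tauto
      rw [hsum]
      have hPδ : ∀ δ ∈ Dj j, ((P δ).card : ℝ) ≤ C5 * A * (1 - 1 / 80) ^ (g.k j) := by
        intro δ hδ
        obtain ⟨ha, hb⟩ := Finset.mem_filter.1 hδ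
        obtain ⟨hδ1, hδ2, hδ3, hδ4⟩ := hmemD δ ha
        have h15 : 15 ≤ g.κ j := by
          have := (hκ j).1
          rw [hgκ]
          omega
        have hth := theta_cond g j δ (by rw [hgR]; exact hRC.card) h15
          (by rw [hgκ]; exact hS j) (by rw [hgκ]; exact hb.1)
        refine (hsmall M g hOk (by rw [hgI]; omega) κ a hκ1 (by rw [hgI]; exact hT) δ hδ3 j
          (1 / 80) (by norm_num) (by norm_num) hth).trans
          (le_of_eq ?_)
        rw [hA, hgI]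
        ring
      have hnum : ((Dj j).card : ℝ) ≤ (2 : ℝ) ^ (0.001 * (y : ℝ) ^ (2 * (j : ℕ) + 1)) := by
        by_cases hjM : (j : ℕ) + 1 < M
        · refine le_trans ?_ (h8b j hjM)
          have : Dj j ⊆ (Icc 1 (2 ^ (8 * Y))).filter
              (fun δ => Adm δ ∧ BadAt I (kap M y ((j : ℕ) + 1)) δ) := by
            intro δ hδ
            obtain ⟨ha, hb⟩ := Finset.mem_filter.1 hδ
            obtain ⟨hδ1, hδ2, hδ3, hδ4⟩ := hmemD δ ha
            rw [Finset.mem_filter]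
            refine ⟨Finset.mem_Icc.2 ⟨hδ1, hδ2⟩, hδ3, ?_⟩
            have hκ1 := hκ ⟨(j : ℕ) + 1, hjM⟩
            simp only at hκ1
            -- the exponent is at least `y ^ 4`
            have hy4 : y ^ 2 ≤ kap M y ((j : ℕ) + 1) := by
              unfold kap
              exact Nat.pow_le_pow_right hy1 (by omega)
            have hy5 : y ≤ kap M y ((j : ℕ) + 1) / 4 := by
              rw [Nat.le_div_iff_mul_le (by norm_num)]
              refine le_trans ?_ hy4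
              rw [sq]
              exact Nat.mul_le_mul_left _ (by omega)
            apply hC9 I (kap M y ((j : ℕ) + 1)) δ (by omega) hκ1.2 _ hδ1 _ (hb.2 hjM)
            · have hc1 := hyc y (by omega)
              rw [one_mul] at hc1
              have hc2 : 2 * y ^ (2 * M + 4) ≤ 2 ^ y := by exact_mod_cast hc1
              calc I ≤ 2 * y ^ (2 * M + 4) := hI2
                _ ≤ 2 ^ y := hc2
                _ ≤ 2 ^ (kap M y ((j : ℕ) + 1) / 4) := Nat.pow_le_pow_right (by norm_num) hy5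
            · refine hδ2.trans (Nat.pow_le_pow_right (by norm_num) ?_)
              refine le_trans ?_ hI1
              rw [hY]
              have e1 : y ^ (2 * M + 4) = y ^ 5 * y ^ (2 * M - 1) := by
                rw [← pow_add]
                congr 1
                omega
              rw [e1]
              apply Nat.mul_le_mul_right
              calc 8 ≤ y := by omega
                _ = y ^ 1 := (pow_one y).symm
                _ ≤ y ^ 5 := Nat.pow_le_pow_right hy1 (by norm_num)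
          exact Nat.cast_le.2 (Finset.card_le_card this)
        · have hj : (j : ℕ) + 1 = M := by
            have := j.2
            omega
          have e1 : 2 * (j : ℕ) + 1 = 2 * M - 1 := by omega
          rw [e1]
          refine le_trans ?_ h8a
          have : Dj j ⊆ (Icc 1 (2 ^ (8 * Y))).filter (fun δ => Adm δ ∧ Bad I y δ) := by
            intro δ hδ
            obtain ⟨ha, hb⟩ := Finset.mem_filter.1 hδ
            obtain ⟨hδ1, hδ2, hδ3, hδ4⟩ := hmemD δ ha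
            rw [Finset.mem_filter]
            exact ⟨Finset.mem_Icc.2 ⟨hδ1, hδ2⟩, hδ3, hδ4⟩
          exact Nat.cast_le.2 (Finset.card_le_card this)
      have hyx : (y : ℝ) ≤ (y : ℝ) ^ (2 * (j : ℕ) + 1) := by
        have h : y ^ 1 ≤ y ^ (2 * (j : ℕ) + 1) := Nat.pow_le_pow_right hy1 (by omega)
        rw [pow_one] at h
        exact_mod_cast h
      have hfin := small_num ((Dj j).card : ℝ) ((y : ℝ) ^ (2 * (j : ℕ) + 1)) y (g.k j) hyx
        (Nat.cast_nonneg _) hnum (hk j).1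
      calc ∑ δ ∈ Dj j, ((P δ).card : ℝ)
          ≤ ∑ δ ∈ Dj j, C5 * A * (1 - 1 / 80) ^ (g.k j) := Finset.sum_le_sum hPδ
        _ = C5 * A * (((Dj j).card : ℝ) * (1 - 1 / 80) ^ (g.k j)) := by
            rw [Finset.sum_const, nsmul_eq_mul]
            ring
        _ ≤ C5 * A * Real.exp (-(0.002 * (y : ℝ))) := by gcongr
    calc ∑ δ ∈ D', ((P δ).card : ℝ)
        ≤ ∑ δ ∈ D', ∑ j : Fin M, (if δ ∈ Dj j then ((P δ).card : ℝ) else 0) :=
          Finset.sum_le_sum hpt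
      _ = ∑ j : Fin M, ∑ δ ∈ D', (if δ ∈ Dj j then ((P δ).card : ℝ) else 0) :=
          Finset.sum_comm
      _ ≤ ∑ j : Fin M, C5 * A * Real.exp (-(0.002 * (y : ℝ))) :=
          Finset.sum_le_sum fun j _ => hjb j
      _ = M * (C5 * A * Real.exp (-(0.002 * (y : ℝ)))) := by
          rw [Finset.sum_const, Finset.card_univ, Fintype.card_fin, nsmul_eq_mul]
      _ ≤ A * (c0 / (8 * 2 ^ M)) := by
          have hd := hyd
          have e8 : (0 : ℝ) < 8 * 2 ^ M := by positivity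
          have e9 : (M : ℝ) * (C5 * A * Real.exp (-(0.002 * (y : ℝ)))) =
              A * ((8 * M * C5 * 2 ^ M * Real.exp (-(0.002 * (y : ℝ)))) / (8 * 2 ^ M)) := by
            rw [eq_comm, mul_div_assoc', div_eq_iff e8.ne']
            ring
          rw [e9]
          exact mul_le_mul_of_nonneg_left (div_le_div_of_nonneg_right hd e8.le) hA0.le
  -- conclusion
  have hcardle : (((TupA g κ a).filter (fun t => (∃ δ : ℕ, Adm δ ∧ Bad I y δ ∧
      Rep (rr M y) δ (g.N t)) ∨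
      ∃ b ≤ hh, ∃ u : ℕ, 3 * g.N t + 1 + 24 * b = 4 ^ (rr M y) * u ^ 2)).card : ℝ) ≤
      (La.card : ℝ) + ∑ δ ∈ D, ((P δ).card : ℝ) := by
    have e1 := (Finset.card_le_card hsub).trans (Finset.card_union_le _ _)
    have e2 : (D.biUnion P).card ≤ ∑ δ ∈ D, (P δ).card := Finset.card_biUnion_le
    have e3 := e1.trans (Nat.add_le_add_left e2 _)
    exact_mod_cast e3
  have hsplit := Finset.sum_filter_add_sum_filter_not D (fun δ => 2 ^ (8 * Y) < δ)
    (fun δ => ((P δ).card : ℝ))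
  have hfin : A * (c0 / (8 * 2 ^ M)) = c0 * A / 2 ^ M / 8 := by
    field_simp
  have hA2 : 0 ≤ c0 * A / 2 ^ M := by positivity
  refine hcardle.trans ?_
  have hgoal : c0 * (2 ^ I / ((g.Rp : ℝ) * I)) / 3 ^ κ * (g.W / 2 ^ M) =
      A * (c0 / (8 * 2 ^ M)) * 8 := by
    rw [hA]
    field_simp
  rw [hgoal]
  have hA3 : 0 ≤ A * (c0 / (8 * 2 ^ M)) := by positivity
  linarith

end Pool.Agent.NH75.PC
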