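import Pool.Agent.NH75.PC.Stm2
import Pool.Agent.R836.PP.Alg

set_option autoImplicit false

/-!
# Coefficients at `3 ^ v` times a product of primes, `v` even
-/

namespace Pool.Agent.NH75.PC

open PowerSeries Pool.Agent.H397R2.PP Pool.Agent.H307R2.OP

namespace CoefV

/-- vanishing, for primes congruent to 3 or 5 modulo 8 -/
theorem vanish35 (H : ℕ) : ∀ φ ∈ NIL.WW H, ∀ (N : ℕ) (R : Finset ℕ), R.card = H →
    (∀ r ∈ R, r.Prime ∧ (r % 8 = 3 ∨ r % 8 = 5) ∧ r ∣ N ∧ ¬ r ^ 2 ∣ N) → coeff N φ = 0 := by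
  induction H with
  | zero =>
    intro φ hφ N R _ _
    rw [OC.WW_zero hφ, map_zero]
  | succ H ih =>
    intro φ hφ N R hR h
    obtain ⟨r, hr⟩ : R.Nonempty := by
      rw [← Finset.card_pos, hR]
      omega
    obtain ⟨h1, h2, ⟨M, rfl⟩, h4⟩ := h r hr
    have hrM : ¬ r ∣ M := by
      rintro ⟨k, rfl⟩
      exact h4 ⟨k, by ring⟩
    rw [← Pool.Agent.R836.PP.coeff_Tp hrM]
    have hfil : Fil (-1) (TO r) := by
      rcases h2 with h2 | h2
      · exact (fq_main.q3 r h1 h2).1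
      · exact (fq_main.q5 r h1 h2).1
    apply ih (Tp r φ) (Pool.Agent.R836.PP.fil_neg (U := TO r) hfil hφ) M (R.erase r)
    · rw [Finset.card_erase_of_mem hr, hR]
      omega
    · intro s hs
      rw [Finset.mem_erase] at hs
      obtain ⟨g1, g2, g3, g4⟩ := h s hs.2
      refine ⟨g1, g2, ?_, ?_⟩
      · rcases (Nat.Prime.dvd_mul g1).1 g3 with h' | h'
        · exact absurd ((Nat.prime_dvd_prime_iff_eq g1 h1).1 h') hs.1
        · exact h'
      · intro h'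
        exact g4 (Dvd.dvd.mul_left h' _)

theorem step (H : ℕ) (φ : S) (hφ : φ ∈ NIL.WW (H + 1)) (R : Finset ℕ) (hR : R.card = H) (N : ℕ)
    (h : ∀ r ∈ R, r.Prime ∧ 5 ≤ r ∧ (r % 8 = 3 ∨ r % 8 = 5) ∧ r ∣ N ∧ ¬ r ^ 2 ∣ N) (i : ℕ) :
    coeff (3 ^ (i + 2) * N) φ = coeff (3 ^ i * N) φ := by
  have h1 : Tp 3 φ ∈ NIL.WW H := NIL.map_WW t3h hφ
  have h2 : coeff (3 ^ (i + 1) * N) (Tp 3 φ) = 0 := by
    refine vanish35 H _ h1 _ R hR fun r hr => ?_
    obtain ⟨g1, g2, g3, g4, g5⟩ := h r hr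
    refine ⟨g1, g3, Dvd.dvd.mul_left g4 _, fun hd => g5 ?_⟩
    have hco : Nat.Coprime (r ^ 2) (3 ^ (i + 1)) := by
      apply Nat.Coprime.pow
      exact (Nat.coprime_primes g1 Nat.prime_three).2 (by omega)
    exact hco.dvd_of_dvd_mul_left hd
  rw [Tp, coeff_mk, if_pos (Dvd.intro (3 ^ i * N) (by ring))] at h2
  have e1 : 3 * (3 ^ (i + 1) * N) = 3 ^ (i + 2) * N := by ring
  have e2 : 3 ^ (i + 1) * N / 3 = 3 ^ i * N := by
    apply Nat.div_eq_of_eq_mul_right (by norm_num)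
    ring
  rw [e1, e2] at h2
  generalize coeff (3 ^ (i + 2) * N) φ = x at *
  generalize coeff (3 ^ i * N) φ = y at *
  revert x y
  decide

end CoefV

theorem ocV : OCV := by
  intro r m v hr hm hv s hs hcard hpar
  have h0 : coeff (∏ q ∈ s, q) (Db ^ m : S) = 1 :=
    oc_main r m hr hm s (fun q hq => ⟨(hs q hq).1, (hs q hq).2.2⟩) hcard hpar
  -- the exponent `m`
  obtain ⟨m', h1, h2⟩ := NIL.cont_m (r - 1)
  have hr1 : r - 1 + 1 = r := by omega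
  rw [hr1] at h1
  have hmm : m = 2 * m' + 1 := by omega
  have hφ : (Db ^ m : S) ∈ NIL.WW ((2 ^ (r - 1) - 1) + 1) := by
    rw [hmm]
    apply NIL.WW_mem
    omega
  have hR : ∀ q ∈ s, q.Prime ∧ 5 ≤ q ∧ (q % 8 = 3 ∨ q % 8 = 5) ∧ q ∣ ∏ q ∈ s, q ∧
      ¬ q ^ 2 ∣ ∏ q ∈ s, q := by
    intro q hq
    obtain ⟨g1, g2, g3⟩ := hs q hq
    refine ⟨g1, g2, g3, Finset.dvd_prod_of_mem (fun q => q) hq, ?_⟩
    rw [← Finset.mul_prod_erase s (fun q => q) hq, sq]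
    intro hd
    have h3 : q ∣ ∏ x ∈ s.erase q, x := Nat.dvd_of_mul_dvd_mul_left g1.pos hd
    obtain ⟨p, hp, hqp⟩ := (g1.prime.dvd_finsetProd_iff (fun q : ℕ => q)).1 h3
    rw [Finset.mem_erase] at hp
    exact hp.1 ((Nat.prime_dvd_prime_iff_eq g1 (hs p hp.2).1).1 hqp).symm
  obtain ⟨k, rfl⟩ := hv
  have key : ∀ k : ℕ, coeff (3 ^ (2 * k) * ∏ q ∈ s, q) (Db ^ m : S) =
      coeff (∏ q ∈ s, q) (Db ^ m : S) := by
    intro k
    induction k with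
    | zero => rw [mul_zero, pow_zero, one_mul]
    | succ k ih =>
      rw [← ih, mul_add, mul_one]
      exact CoefV.step _ _ hφ s hcard _ hR (2 * k)
  rw [← two_mul, key, h0]

end Pool.Agent.NH75.PC
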