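import Pool.Agent.NH75.PC.Stm2
import Pool.Agent.NH75.PC.FinA

set_option autoImplicit false

/-!
# Parity changes of the partition function, second round: from `y` to `x`

(job PC2-M, helper49; adapted from `Pool.Agent.NH75.PC.FinA`)
-/

namespace Pool.Agent.NH75.PC

open Finset Pool.Agent.H307R2.OP

namespace FinVAux

theorem fin_32 {D y : ℕ} (hD : 1 ≤ D) (hy : 4 * D ≤ y) :
    ((y : ℝ) + 1) ^ D ≤ 3 / 2 * (y : ℝ) ^ D := by
  have hy0 : (0 : ℝ) < y := by exact_mod_cast (by omega : 0 < y)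
  have h1 : (y : ℝ) + 1 = y * (1 / y + 1) := by field_simp; ring
  rw [h1, mul_pow, mul_comm]
  refine mul_le_mul_of_nonneg_right ?_ (by positivity)
  have h2 : (1 / (y : ℝ) + 1) ^ D ≤ (Real.exp (1 / y)) ^ D :=
    pow_le_pow_left₀ (by positivity) (Real.add_one_le_exp _) _
  refine h2.trans ?_
  rw [← Real.exp_nat_mul]
  have h3 : (D : ℝ) * (1 / y) ≤ 1 / 4 := by
    have h4 : (4 : ℝ) * D ≤ y := by exact_mod_cast hy
    rw [mul_one_div, div_le_div_iff₀ hy0 (by norm_num)]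
    linarith
  have h5 : Real.exp (1 / 4) ≤ 3 / 2 := by
    have h6 : Real.exp (1 / 4) ^ 4 = Real.exp 1 := by
      rw [← Real.exp_nat_mul]; norm_num
    have h7 := Real.exp_one_lt_d9
    have h8 := Real.exp_pos (1 / 4)
    by_contra h9
    push Not at h9
    have h10 : (3 / 2 : ℝ) ^ 4 ≤ Real.exp (1 / 4) ^ 4 := pow_le_pow_left₀ (by norm_num) h9.le 4
    rw [h6] at h10
    norm_num at h10
    linarith
  exact (Real.exp_le_exp.2 h3).trans h5

end FinVAux

open FinVAux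

/-- part F -/
theorem finalV (h : MainYV) : FinalV := by
  intro v h' hv' hh' ε hε
  -- choice of M
  obtain ⟨n0, hn0⟩ := exists_nat_gt (7 / ε)
  set M : ℕ := max 2 n0 with hM
  have hM2 : 2 ≤ M := le_max_left _ _
  have hMn : (n0 : ℝ) ≤ M := by exact_mod_cast le_max_right 2 n0
  set D : ℕ := 2 * M + 4 with hD
  have hDr : (D : ℝ) = 2 * M + 4 := by rw [hD]; push_cast; ring
  have hD0 : (0 : ℝ) < D := by rw [hDr]; positivity
  have hD7 : (7 : ℝ) < D := by
    have : (2 : ℝ) ≤ M := by exact_mod_cast hM2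
    rw [hDr]; linarith
  set δ : ℝ := 7 / D with hδ
  have hδpos : 0 < δ := by rw [hδ]; positivity
  have hδ1 : δ < 1 := by rw [hδ, div_lt_one hD0]; exact hD7
  have hδε : δ < ε := by
    rw [hδ, div_lt_iff₀ hD0]
    have h1 : 7 < M * ε := by
      rw [← div_lt_iff₀ hε]; linarith
    have hM0 : (0 : ℝ) ≤ M := Nat.cast_nonneg _
    rw [hDr]
    nlinarith
  obtain ⟨y0, hy0⟩ := h v h' hv' hh' M hM2
  set B : ℕ := max (max (y0 ^ D) ((4 * D + 4 * v) ^ D)) (2 * v + 2) + 2 * v with hB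
  set X : ℝ := (8 * 2 ^ v : ℝ) ^ (1 / (ε - δ)) with hX
  have hX0 : 0 < X := by rw [hX]; positivity
  refine ⟨max ((2 : ℝ) ^ B) (Real.exp X), fun x hx => ?_⟩
  have hx1 : 2 ^ B ≤ x := by
    have := (le_max_left _ _).trans hx
    exact_mod_cast this
  have hx2 : Real.exp X ≤ x := (le_max_right _ _).trans hx
  have hxpos : 0 < x := lt_of_lt_of_le (by positivity) hx1
  have hxpos' : (0 : ℝ) < x := by exact_mod_cast hxpos
  have hIB' : B ≤ Nat.log 2 x := Nat.le_log_of_pow_le (by norm_num) hx1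
  obtain ⟨I, hI⟩ : ∃ I, Nat.log 2 x = I + 2 * v := ⟨Nat.log 2 x - 2 * v, by omega⟩
  have hIB : max (max (y0 ^ D) ((4 * D + 4 * v) ^ D)) (2 * v + 2) ≤ I := by omega
  have hI2 : 2 * v + 2 ≤ I := (le_max_right _ _).trans hIB
  have hIy0 : y0 ^ D ≤ I := ((le_max_left _ _).trans (le_max_left _ _)).trans hIB
  have hID : (4 * D + 4 * v) ^ D ≤ I := ((le_max_right _ _).trans (le_max_left _ _)).trans hIB
  have hxI : 2 ^ (I + 2 * v) ≤ x := by
    rw [← hI]
    exact Nat.pow_log_le_self 2 (by omega)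
  have hxI' : x < 2 ^ (I + 2 * v + 1) := by
    rw [← hI]
    exact Nat.lt_pow_succ_log_self (by norm_num) x
  -- choice of y
  set y : ℕ := Nat.findGreatest (fun y => y ^ D ≤ I) I with hy
  have hD1 : D ≠ 0 := by omega
  have hyD : y ^ D ≤ I :=
    Nat.findGreatest_spec (P := fun y => y ^ D ≤ I) (m := 0) (Nat.zero_le _)
      (by simp [hD1])
  have hge : ∀ z : ℕ, z ^ D ≤ I → z ≤ y := by
    intro z hz
    refine Nat.le_findGreatest ?_ hz
    exact (Nat.le_self_pow hD1 z).trans hz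
  have hyy0 : y0 ≤ y := hge _ hIy0
  have hy2D : 4 * D + 4 * v ≤ y := hge _ hID
  have hlt : I < (y + 1) ^ D := by
    by_contra hcon
    push Not at hcon
    have := hge _ hcon
    omega
  have hI2y' : I + 2 * v ≤ 2 * y ^ D := by
    have h1 : (I : ℝ) < ((y : ℝ) + 1) ^ D := by exact_mod_cast hlt
    have h2 := fin_32 (D := D) (y := y) (by omega) (by omega)
    have h4 : y ≤ y ^ D := Nat.le_self_pow hD1 y
    have h5 : (4 * v : ℝ) ≤ (y : ℝ) ^ D := by exact_mod_cast (by omega : 4 * v ≤ y ^ D)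
    have h3 : (I : ℝ) + 2 * v ≤ 2 * (y : ℝ) ^ D := by linarith
    exact_mod_cast h3
  have hI2y : I ≤ 2 * y ^ D := by omega
  have hmain := hy0 y hyy0 I hyD hI2y'
  have hmono : (chg (3 ^ v * h') (2 ^ (I + 2 * v)) : ℝ) ≤ chg (3 ^ v * h') x := by
    exact_mod_cast chg_mono (3 ^ v * h') hxI
  refine le_trans ?_ (hmain.trans hmono)
  -- real estimates
  set L : ℝ := Real.log x with hL
  have hLX : X ≤ L := by
    rw [hL]
    have := Real.log_le_log (Real.exp_pos X) hx2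
    rwa [Real.log_exp] at this
  have hL0 : 0 < L := by linarith
  have hLI : L ≤ 2 * I := by
    have h1 : L ≤ Real.log ((2 : ℝ) ^ (I + 2 * v + 1)) := by
      rw [hL]
      refine Real.log_le_log hxpos' ?_
      exact_mod_cast hxI'.le
    rw [Real.log_pow] at h1
    have h2 : Real.log 2 ≤ 1 := by linarith [Real.log_two_lt_d9]
    have h3 : ((I + 2 * v + 1 : ℕ) : ℝ) ≤ 2 * I := by
      have : (2 * v + 2 : ℝ) ≤ I := by exact_mod_cast hI2
      push_cast; linarith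
    have h4 : (0 : ℝ) ≤ ((I + 2 * v + 1 : ℕ) : ℝ) := Nat.cast_nonneg _
    nlinarith
  have hyL : L / 4 ≤ (y : ℝ) ^ D := by
    have h1 : (I : ℝ) ≤ 2 * (y : ℝ) ^ D := by exact_mod_cast hI2y
    linarith
  have hy0' : (0 : ℝ) < y := by exact_mod_cast (by omega : 0 < y)
  have hpow : (L / 4) ^ (1 - δ) ≤ (y : ℝ) ^ (2 * (M : ℤ) - 3) := by
    have h1 : (y : ℝ) ^ (2 * (M : ℤ) - 3) = ((y : ℝ) ^ D) ^ (1 - δ) := by
      rw [← Real.rpow_natCast (y : ℝ) D, ← Real.rpow_mul hy0'.le, ← Real.rpow_intCast]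
      congr 1
      rw [hδ]
      push_cast
      field_simp
      rw [hDr]
      ring
    rw [h1]
    exact Real.rpow_le_rpow (by positivity) hyL (by linarith)
  have hsqrt : Real.sqrt x / (Real.sqrt 2 * 2 ^ v) ≤ Real.sqrt (2 ^ I) := by
    have h1 : Real.sqrt x ≤ Real.sqrt (2 ^ I * (2 * (2 ^ v) ^ 2)) := by
      apply Real.sqrt_le_sqrt
      have : (x : ℝ) ≤ 2 ^ (I + 2 * v + 1) := by exact_mod_cast hxI'.le
      calc (x : ℝ) ≤ 2 ^ (I + 2 * v + 1) := this
        _ = 2 ^ I * (2 * (2 ^ v) ^ 2) := by ring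
    rw [Real.sqrt_mul (by positivity), Real.sqrt_mul (by norm_num), Real.sqrt_sq (by positivity)]
      at h1
    rw [div_le_iff₀ (by positivity)]
    exact h1
  have hL8 : 8 * 2 ^ v * L ^ (1 - ε) ≤ L ^ (1 - δ) := by
    have h1 : L ^ (1 - δ) = L ^ (ε - δ) * L ^ (1 - ε) := by
      rw [← Real.rpow_add hL0]; congr 1; ring
    rw [h1]
    refine mul_le_mul_of_nonneg_right ?_ (by positivity)
    have h2 : X ^ (ε - δ) = 8 * 2 ^ v := by
      rw [hX, ← Real.rpow_mul (by positivity)]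
      have : 1 / (ε - δ) * (ε - δ) = 1 := by
        have : ε - δ ≠ 0 := by linarith
        field_simp
      rw [this, Real.rpow_one]
    rw [← h2]
    exact Real.rpow_le_rpow hX0.le hLX (by linarith)
  have h4 : L ^ (1 - δ) ≤ 4 * (L / 4) ^ (1 - δ) := by
    rw [Real.div_rpow hL0.le (by norm_num)]
    have h5 : (4 : ℝ) ^ (1 - δ) ≤ 4 := by
      calc (4 : ℝ) ^ (1 - δ) ≤ (4 : ℝ) ^ (1 : ℝ) :=
            Real.rpow_le_rpow_of_exponent_le (by norm_num) (by linarith)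
        _ = 4 := Real.rpow_one 4
    have h6 : (0 : ℝ) < (4 : ℝ) ^ (1 - δ) := by positivity
    have h7 : (0 : ℝ) < L ^ (1 - δ) := by positivity
    rw [← mul_div_assoc, le_div_iff₀ h6]
    nlinarith
  have h8 : 2 * 2 ^ v * L ^ (1 - ε) ≤ (L / 4) ^ (1 - δ) := by linarith
  have hs2 : Real.sqrt 2 ≤ 2 := by
    rw [Real.sqrt_le_left (by norm_num)]; norm_num
  have hs0 : 0 < Real.sqrt 2 := Real.sqrt_pos.2 (by norm_num)
  have hv0 : (0 : ℝ) < 2 ^ v := by positivity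
  calc Real.sqrt x * L ^ (1 - ε) =
        Real.sqrt x / (Real.sqrt 2 * 2 ^ v) * (Real.sqrt 2 * 2 ^ v * L ^ (1 - ε)) := by
        field_simp
    _ ≤ Real.sqrt x / (Real.sqrt 2 * 2 ^ v) * (2 * 2 ^ v * L ^ (1 - ε)) := by gcongr
    _ ≤ Real.sqrt (2 ^ I) * (L / 4) ^ (1 - δ) := by gcongr
    _ ≤ Real.sqrt (2 ^ I) * (y : ℝ) ^ (2 * (M : ℤ) - 3) := by gcongr

end Pool.Agent.NH75.PC
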