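import Pool.Agent.NH75.PC.Stm
import Pool.Agent.H307R2.OP.FIX
import Pool.Agent.H307R2.OP.T5

set_option autoImplicit false

/-! Part G: multiplicity of a good value, in a class modulo `3 ^ κ`. -/

namespace Pool.Agent.NH75.PC

open Finset Pool.Agent.H307R2.OP

namespace GoodAux

/-- at most two classes modulo `3 ^ (κ + 1)` -/
theorem two_classes (κ a r δ s : ℕ) (hκ : 1 ≤ κ) (ha : a % 3 ≠ 0) (hδ : δ % 3 ≠ 0) :
    ((range (3 ^ (κ + 1))).filter
      (fun b => (δ * s ^ 2 + 4 ^ r * b ^ 2) % 3 ^ (κ + 1) = (3 * a) % 3 ^ (κ + 1))).card ≤ 2 := by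
  classical
  set T : ℕ := 3 ^ (κ + 1) with hT
  set E := (range T).filter (fun b => (δ * s ^ 2 + 4 ^ r * b ^ 2) % T = (3 * a) % T) with hE
  have hTpos : 0 < T := by positivity
  have h9 : 9 ∣ T := by
    have : (3 : ℕ) ^ 2 ∣ 3 ^ (κ + 1) := pow_dvd_pow 3 (by omega)
    simpa using this
  have h3p : Nat.Prime 3 := Nat.prime_three
  -- the elements are prime to three
  have hne : ∀ b ∈ E, ¬ 3 ∣ b := by
    intro b hb h3
    rw [hE, mem_filter] at hb
    have h1 : δ * s ^ 2 + 4 ^ r * b ^ 2 ≡ 3 * a [MOD T] := hb.2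
    have h2 : δ * s ^ 2 + 4 ^ r * b ^ 2 ≡ 3 * a [MOD 9] := h1.of_dvd h9
    have h4 : 9 ∣ 4 ^ r * b ^ 2 := by
      have : (3 : ℕ) ^ 2 ∣ b ^ 2 := pow_dvd_pow_of_dvd h3 2
      exact (by simpa using this : 9 ∣ b ^ 2).mul_left _
    have h5 : δ * s ^ 2 ≡ 3 * a [MOD 9] := by
      have h6 : δ * s ^ 2 + 4 ^ r * b ^ 2 ≡ δ * s ^ 2 + 0 [MOD 9] :=
        Nat.ModEq.add_left _ ((Nat.modEq_zero_iff_dvd).2 h4)
      rw [add_zero] at h6
      exact h6.symm.trans h2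
    have h7 : 3 ∣ δ * s ^ 2 := by
      have h8 : δ * s ^ 2 ≡ 3 * a [MOD 3] := h5.of_dvd (by norm_num)
      exact (Nat.modEq_zero_iff_dvd).1 (h8.trans ((Nat.modEq_zero_iff_dvd).2 (dvd_mul_right 3 a)))
    have h8 : 3 ∣ s := by
      rcases h3p.dvd_mul.1 h7 with h | h
      · exact absurd (Nat.mod_eq_zero_of_dvd h) hδ
      · exact h3p.dvd_of_dvd_pow h
    have h10 : 9 ∣ δ * s ^ 2 := by
      have : (3 : ℕ) ^ 2 ∣ s ^ 2 := pow_dvd_pow_of_dvd h8 2
      exact (by simpa using this : 9 ∣ s ^ 2).mul_left _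
    have h11 : 9 ∣ 3 * a :=
      (Nat.modEq_zero_iff_dvd).1 (h5.symm.trans ((Nat.modEq_zero_iff_dvd).2 h10))
    omega
  by_cases hemp : E = ∅
  · rw [hemp]; simp
  · obtain ⟨b0, hb0⟩ := nonempty_iff_ne_empty.2 hemp
    have hsub : E ⊆ {b0, T - b0} := by
      intro b hb
      have n0 := hne b0 hb0
      have n1 := hne b hb
      rw [hE, mem_filter, mem_range] at hb hb0
      rw [mem_insert, mem_singleton]
      have h1 : 4 ^ r * b ^ 2 ≡ 4 ^ r * b0 ^ 2 [MOD T] :=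
        Nat.ModEq.add_left_cancel' (δ * s ^ 2) (hb.2.trans hb0.2.symm)
      have hco : Nat.Coprime T (4 ^ r) := Nat.Coprime.pow _ _ (by norm_num)
      have h2 : b ^ 2 ≡ b0 ^ 2 [MOD T] := Nat.ModEq.cancel_left_of_coprime hco h1
      have h3 : (T : ℤ) ∣ ((b0 : ℤ) - b) * ((b0 : ℤ) + b) := by
        have h4 := (Nat.modEq_iff_dvd).1 h2
        push_cast at h4
        have : ((b0 : ℤ) - b) * ((b0 : ℤ) + b) = (b0 : ℤ) ^ 2 - (b : ℤ) ^ 2 := by ring
        rw [this]; exact h4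
      have hcT : ∀ x : ℤ, ¬ (3 : ℤ) ∣ x → IsCoprime (T : ℤ) x := by
        intro x hx
        rw [hT]
        push_cast
        refine IsCoprime.pow_left ?_
        rw [Int.isCoprime_iff_gcd_eq_one]
        have h5 : Int.gcd 3 x = 1 := by
          have h6 := Int.isCoprime_iff_gcd_eq_one.1
            ((Prime.coprime_iff_not_dvd (Int.prime_three)).2 hx)
          exact h6
        exact h5
      by_cases h4 : (3 : ℤ) ∣ (b0 : ℤ) - b
      · have h5 : ¬ (3 : ℤ) ∣ (b0 : ℤ) + b := by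
          intro h5
          apply n0
          omega
        have h6 : (T : ℤ) ∣ (b0 : ℤ) - b := (hcT _ h5).dvd_of_dvd_mul_right h3
        left
        have h7 : b ≡ b0 [MOD T] := (Nat.modEq_iff_dvd).2 h6
        rw [Nat.ModEq, Nat.mod_eq_of_lt hb.1, Nat.mod_eq_of_lt hb0.1] at h7
        exact h7
      · have h6 : (T : ℤ) ∣ (b0 : ℤ) + b := (hcT _ h4).dvd_of_dvd_mul_left h3
        have h7 : T ∣ b0 + b := by exact_mod_cast h6
        right
        obtain ⟨c, hc⟩ := h7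
        have hb00 : 0 < b0 := Nat.pos_of_ne_zero (by rintro rfl; exact n0 (dvd_zero 3))
        have hc1 : c < 2 := by
          by_contra hcc
          push Not at hcc
          have : T * 2 ≤ T * c := Nat.mul_le_mul_left _ hcc
          omega
        have hc0 : c ≠ 0 := by
          rintro rfl
          omega
        have : c = 1 := by omega
        subst this
        omega
    exact (card_le_card hsub).trans card_le_two

/-- a prime at least five does not divide a power of three -/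
theorem cop3 {q n : ℕ} (hq : q.Prime) (h5 : 5 ≤ q) : Nat.Coprime q (3 ^ n) := by
  refine Nat.Coprime.pow_right _ ?_
  rw [Nat.Prime.coprime_iff_not_dvd hq]
  intro h
  have := Nat.le_of_dvd (by norm_num) h
  omega

open Classical in
/-- the number of `u` for a fixed choice of the small primes and a class modulo `3 ^ κ` -/
def FixA : Prop := ∀ (κ a r δ s U D z K : ℕ) (A P : Finset ℕ), 1 ≤ κ → a % 3 ≠ 0 → Adm δ → 1 ≤ D →
  (∀ q ∈ A, q.Prime ∧ 5 ≤ q) → (∀ p ∈ P, p.Prime ∧ 64 ≤ p ∧ p ≤ z ∧ p ∉ A) → z ^ K ≤ D →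
  8 * (∑ p ∈ P, ((Om r δ s p).card : ℝ) / p) + 8 ≤ K → (∑ p ∈ P, (4 : ℝ) / p ^ 2) ≤ 1 →
  (((range (U + 1)).filter (fun u => ∃ p : ℕ, p.Prime ∧ z < p ∧ p ∉ A ∧
      ((∏ q ∈ A, q) * p) % 3 ^ κ = a % 3 ^ κ ∧
      3 * ((∏ q ∈ A, q) * p) = δ * s ^ 2 + 4 ^ r * u ^ 2)).card : ℝ) ≤
    2 * (∏ q ∈ A, (1 + J q δ)) * (16 * ((U : ℝ) / ((∏ q ∈ A, (q : ℝ)) * 3 ^ (κ + 1)) + 1) *
      Real.exp (-∑ p ∈ P, ((Om r δ s p).card : ℝ) / p) + (D : ℝ) ^ 6)

open Classical in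
theorem fixA (h1 : QRStmt) (h2 : SVStmt) : FixA := by
  intro κ a0 r δ s U D z K A P hκ ha0 hδ hD hA hP hzK hK hsum
  have hAp : ∀ q ∈ A, q.Prime := fun q hq => (hA q hq).1
  have hm1 : 1 ≤ ∏ q ∈ A, q := Finset.prod_pos fun q hq => (hAp q hq).pos
  set m : ℕ := ∏ q ∈ A, q with hm
  have hmR : (∏ q ∈ A, (q : ℝ)) = (m : ℝ) := by rw [hm]; push_cast; rfl
  rw [hmR]
  set T : ℕ := 3 ^ (κ + 1) with hT
  have hTpos : 0 < T := by positivity
  have hTR : ((3 : ℝ) ^ (κ + 1)) = (T : ℝ) := by rw [hT]; push_cast; rfl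
  rw [hTR]
  have hcoT : Nat.Coprime m T := by
    rw [hm]
    exact Nat.Coprime.prod_left fun q hq => cop3 (hAp q hq) (hA q hq).2
  have hδ3 : δ % 3 ≠ 0 := by
    have := hδ.1
    omega
  set X : Finset ℕ := (range (U + 1)).filter (fun u => ∃ p : ℕ, p.Prime ∧ z < p ∧ p ∉ A ∧
      (m * p) % 3 ^ κ = a0 % 3 ^ κ ∧
      3 * (m * p) = δ * s ^ 2 + 4 ^ r * u ^ 2) with hX
  set B : ℝ := 16 * ((U : ℝ) / ((m : ℝ) * (T : ℝ)) + 1) *
      Real.exp (-∑ p ∈ P, ((Om r δ s p).card : ℝ) / p) + (D : ℝ) ^ 6 with hB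
  have hB0 : 0 ≤ B := by positivity
  have hJ : ∀ q, 0 ≤ 1 + J q δ := by
    intro q
    rcases h1.val q δ with h | h | h <;> rw [h] <;> norm_num
  have hJ2 : ∀ q, 1 + J q δ ≤ 2 := by
    intro q
    rcases h1.val q δ with h | h | h <;> rw [h] <;> norm_num
  have hprod0 : 0 ≤ ∏ q ∈ A, (1 + J q δ) := prod_nonneg fun q _ => hJ q
  change (X.card : ℝ) ≤ 2 * (∏ q ∈ A, (1 + J q δ)) * B
  by_cases hs : ∃ q ∈ A, q ∣ s
  · obtain ⟨q, hq, hqs⟩ := hs
    have hqp := hAp q hq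
    have hq5 := (hA q hq).2
    have hXe : X = ∅ := by
      rw [hX, filter_eq_empty_iff]
      rintro u - ⟨p, hp, -, hpA, -, he⟩
      have hqm : q ∣ m := dvd_prod_of_mem _ hq
      have d1 : q ∣ δ * s ^ 2 := (dvd_pow hqs two_ne_zero).mul_left _
      have d2 : q ∣ δ * s ^ 2 + 4 ^ r * u ^ 2 := by
        rw [← he]; exact (hqm.mul_right p).mul_left 3
      have d3 : q ∣ 4 ^ r * u ^ 2 := (Nat.dvd_add_right d1).mp d2
      have d4 : q ∣ u := by
        rcases hqp.dvd_mul.mp d3 with h | h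
        · have h4 : q ∣ 4 := hqp.dvd_of_dvd_pow h
          have := Nat.le_of_dvd (by norm_num) h4
          omega
        · exact hqp.dvd_of_dvd_pow h
      have d5 : q ^ 2 ∣ 3 * (m * p) := by
        rw [he]
        exact dvd_add ((pow_dvd_pow_of_dvd hqs 2).mul_left _)
          ((pow_dvd_pow_of_dvd d4 2).mul_left _)
      have hm' : m = q * ∏ q' ∈ A.erase q, q' := by
        rw [hm, mul_prod_erase A (fun q => q) hq]
      have d6 : q ∣ 3 * ((∏ q' ∈ A.erase q, q') * p) := by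
        have : q * q ∣ q * (3 * ((∏ q' ∈ A.erase q, q') * p)) := by
          rw [← sq]
          convert d5 using 1
          rw [hm']; ring
        exact Nat.dvd_of_mul_dvd_mul_left hqp.pos this
      rcases hqp.dvd_mul.mp d6 with h | h
      · have := Nat.le_of_dvd (by norm_num) h
        omega
      · rcases hqp.dvd_mul.mp h with h | h
        · exact fix_not_dvd (fun q' hq' => hAp q' (mem_of_mem_erase hq')) hqp
            (notMem_erase q A) h
        · have := (Nat.prime_dvd_prime_iff_eq hqp hp).mp h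
          exact hpA (this ▸ hq)
    rw [hXe, card_empty, Nat.cast_zero]
    exact mul_nonneg (mul_nonneg zero_le_two hprod0) hB0
  · push Not at hs
    set C : Finset ℕ := (range m).filter (fun a => m ∣ δ * s ^ 2 + 4 ^ r * a ^ 2) with hC
    set E : Finset ℕ := (range T).filter
      (fun b => (δ * s ^ 2 + 4 ^ r * b ^ 2) % T = (3 * a0) % T) with hE
    have hEc : E.card ≤ 2 := two_classes κ a0 r δ s hκ ha0 hδ3
    have hCc : (C.card : ℝ) ≤ ∏ q ∈ A, (1 + J q δ) := by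
      have h3 := fix_classes r δ s A hAp
      have h4 : (C.card : ℝ) ≤ ((∏ q ∈ A, (Om r δ s q).card : ℕ) : ℝ) := by
        exact_mod_cast h3
      refine h4.trans (le_of_eq ?_)
      push_cast
      exact prod_congr rfl fun q hq => h1.om_card r δ s q hδ (hAp q hq) (hA q hq).2 (hs q hq)
    -- the classes modulo `m T`
    set C' : Finset ℕ := (C ×ˢ E).image (fun x => (Nat.chineseRemainder hcoT x.1 x.2 : ℕ)) with hC'
    have hC'c : (C'.card : ℝ) ≤ 2 * ∏ q ∈ A, (1 + J q δ) := by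
      have h3 : C'.card ≤ C.card * E.card := by
        rw [← card_product]; exact card_image_le
      have h4 : (C'.card : ℝ) ≤ (C.card : ℝ) * (E.card : ℝ) := by exact_mod_cast h3
      have h5 : (E.card : ℝ) ≤ 2 := by exact_mod_cast hEc
      calc (C'.card : ℝ) ≤ (C.card : ℝ) * (E.card : ℝ) := h4
        _ ≤ (∏ q ∈ A, (1 + J q δ)) * 2 := by gcongr
        _ = _ := by ring
    set Xa : ℕ → Finset ℕ := fun a => (range (U + 1)).filter
      (fun u => u % (m * T) = a % (m * T) ∧ ∀ p ∈ P, u % p ∉ Om r δ s p) with hXa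
    have hsub : X ⊆ C'.biUnion Xa := by
      intro u hu
      rw [hX, mem_filter] at hu
      obtain ⟨huU, p, hp, hzp, hpA, hmod, he⟩ := hu
      rw [mem_biUnion]
      have hcm : u % m ∈ C := by
        rw [hC, mem_filter, mem_range]
        refine ⟨Nat.mod_lt _ hm1, (fix_mod r s u).mpr ?_⟩
        rw [← he]
        exact (Dvd.intro p rfl).mul_left 3
      have hcT : u % T ∈ E := by
        rw [hE, mem_filter, mem_range]
        refine ⟨Nat.mod_lt _ hTpos, ?_⟩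
        have h3 : δ * s ^ 2 + 4 ^ r * (u % T) ^ 2 ≡ δ * s ^ 2 + 4 ^ r * u ^ 2 [MOD T] :=
          Nat.ModEq.add_left _ (Nat.ModEq.mul_left _ ((Nat.mod_modEq u T).pow 2))
        have h4 : 3 * (m * p) ≡ 3 * a0 [MOD T] := by
          have h5 : m * p ≡ a0 [MOD 3 ^ κ] := hmod
          have h6 : 3 * (m * p) ≡ 3 * a0 [MOD 3 * 3 ^ κ] := Nat.ModEq.mul_left' 3 h5
          have h7 : T = 3 * 3 ^ κ := by rw [hT, pow_succ]; ring
          rw [h7]; exact h6
        rw [← he] at h3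
        exact h3.trans h4
      refine ⟨(Nat.chineseRemainder hcoT (u % m) (u % T) : ℕ), ?_, ?_⟩
      · rw [hC', mem_image]
        exact ⟨(u % m, u % T), mem_product.2 ⟨hcm, hcT⟩, rfl⟩
      · rw [hXa, mem_filter]
        refine ⟨huU, ?_, ?_⟩
        · have h3 := (Nat.chineseRemainder hcoT (u % m) (u % T)).2
          have h4 : u ≡ (Nat.chineseRemainder hcoT (u % m) (u % T) : ℕ) [MOD m] :=
            (Nat.mod_modEq u m).symm.trans h3.1.symm
          have h5 : u ≡ (Nat.chineseRemainder hcoT (u % m) (u % T) : ℕ) [MOD T] :=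
            (Nat.mod_modEq u T).symm.trans h3.2.symm
          exact (Nat.modEq_and_modEq_iff_modEq_mul hcoT).1 ⟨h4, h5⟩
        · intro p0 hp0 hmem
          obtain ⟨hp0p, hp064, hp0z, hp0A⟩ := hP p0 hp0
          unfold Om at hmem
          rw [mem_filter] at hmem
          have h3 := (fix_mod r s u).mp hmem.2
          rw [← he] at h3
          rcases hp0p.dvd_mul.mp h3 with h | h
          · have := Nat.le_of_dvd (by norm_num) h
            omega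
          · rcases hp0p.dvd_mul.mp h with h | h
            · exact fix_not_dvd hAp hp0p hp0A h
            · have := (Nat.prime_dvd_prime_iff_eq hp0p hp).mp h
              omega
    have hXab : ∀ a ∈ C', ((Xa a).card : ℝ) ≤ B := by
      intro a _
      have h9 := h2 (m * T) a U D z K P (Om r δ s) (Nat.mul_pos hm1 hTpos) hD ?_ ?_ hzK hK hsum
      · push_cast at h9
        exact h9
      · intro p hp
        obtain ⟨h3, h4, h5, h6⟩ := hP p hp
        refine ⟨h3, h4, h5, ?_⟩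
        exact Nat.Coprime.mul_right ((Nat.Prime.coprime_iff_not_dvd h3).mpr (fix_not_dvd hAp h3 h6))
          (cop3 h3 (by omega))
      · intro p hp
        obtain ⟨h3, h4, h5, h6⟩ := hP p hp
        refine ⟨?_, ?_⟩
        · by_cases hps : p ∣ s
          · rw [h1.om_zero r δ s p hδ h3 (by omega) hps]
            simp
          · have h7 := h1.om_card r δ s p hδ h3 (by omega) hps
            have h8 : ((Om r δ s p).card : ℝ) ≤ 2 := by rw [h7]; exact hJ2 p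
            exact_mod_cast h8
        · intro x hx
          unfold Om at hx
          rw [mem_filter, mem_range] at hx
          exact hx.1
    have h3 : (X.card : ℝ) ≤ ∑ a ∈ C', ((Xa a).card : ℝ) := by
      have := (card_le_card hsub).trans card_biUnion_le
      exact_mod_cast this
    refine h3.trans ((sum_le_card_nsmul _ _ B hXab).trans ?_)
    rw [nsmul_eq_mul]
    exact mul_le_mul_of_nonneg_right hC'c hB0

variable {M : ℕ}

open Classical in
/-- for a fixed family member, the number of pairs is at most the number of `u` -/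
lemma fiber_leA {g : Cfg M} (hg : g.Ok) {A : Fin M → Finset ℕ} (hA : A ∈ g.Fam)
    (κ a δ s z : ℕ) (hz : z ≤ 2 ^ (g.I / 2)) :
    (((TupA g κ a ×ˢ range (2 ^ g.I + 1)).filter
      (fun x => 3 * g.N x.1 = δ * s ^ 2 + 4 ^ g.r * x.2 ^ 2)).filter (fun x => x.1.1 = A)).card ≤
    ((range (⌊g.U⌋₊ + 1)).filter (fun u => ∃ p : ℕ, p.Prime ∧ z < p ∧ p ∉ T5.AA g A ∧
      ((∏ q ∈ T5.AA g A, q) * p) % 3 ^ κ = a % 3 ^ κ ∧
      3 * ((∏ q ∈ T5.AA g A, q) * p) = δ * s ^ 2 + 4 ^ g.r * u ^ 2)).card := by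
  classical
  apply Finset.card_le_card_of_injOn (fun x => x.2)
  · intro x hx
    have hx := Finset.mem_coe.1 hx
    rw [Finset.mem_filter, Finset.mem_filter, Finset.mem_product] at hx
    obtain ⟨⟨⟨hTA, -⟩, he⟩, hxA⟩ := hx
    unfold TupA at hTA
    obtain ⟨hT, hcl⟩ := Finset.mem_filter.1 hTA
    have hT' := Finset.mem_sigma.1 hT
    obtain ⟨-, hp⟩ := hT'
    rw [hxA] at hp
    unfold Cfg.Pr at hp
    rw [Finset.mem_filter, Finset.mem_Ioc] at hp
    obtain ⟨⟨hp1, hp2⟩, hpp, -⟩ := hp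
    have hN : g.N x.1 = g.Rp * g.Q A * x.1.2 := by
      unfold Cfg.N; rw [hxA]
    have hle : g.Rp * g.Q A * x.1.2 ≤ 2 ^ g.I := by
      have := (Nat.le_div_iff_mul_le (T5.AA_pos hg hA)).1 hp2
      linarith [mul_comm x.1.2 (g.Rp * g.Q A)]
    rw [Finset.mem_coe, Finset.mem_filter, Finset.mem_range]
    constructor
    · rw [Nat.lt_succ_iff]
      apply Nat.le_floor
      unfold Cfg.U
      rw [le_div_iff₀ (by positivity)]
      apply Real.le_sqrt_of_sq_le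
      rw [hN] at he
      have h5 : 4 ^ g.r * x.2 ^ 2 ≤ 3 * 2 ^ g.I := by
        have : 4 ^ g.r * x.2 ^ 2 ≤ 3 * (g.Rp * g.Q A * x.1.2) := by omega
        omega
      have h6 : ((4 : ℝ) ^ g.r * (x.2 : ℝ) ^ 2) ≤ 3 * 2 ^ g.I := by exact_mod_cast h5
      calc ((x.2 : ℝ) * 2 ^ g.r) ^ 2 = (4 : ℝ) ^ g.r * (x.2 : ℝ) ^ 2 := by
            rw [mul_pow, ← pow_mul, mul_comm g.r 2, pow_mul]; norm_num; ring
        _ ≤ _ := h6
    · refine ⟨x.1.2, hpp, by omega, ?_, ?_, ?_⟩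
      · intro hmem
        have hdvd : x.1.2 ∣ ∏ q ∈ T5.AA g A, q := Finset.dvd_prod_of_mem (fun q => q) hmem
        rw [T5.prod_AA_nat hg hA] at hdvd
        have h7 := Nat.le_of_dvd (T5.AA_pos hg hA) hdvd
        have h8 := hg.hRQ A hA
        have h9 : 2 ^ (g.I / 8) ≤ 2 ^ (g.I / 2) := Nat.pow_le_pow_right (by norm_num) (by omega)
        omega
      · rw [T5.prod_AA_nat hg hA, ← hN]; exact hcl
      · rw [T5.prod_AA_nat hg hA, ← hN]; exact he
  · intro x hx y hy hxy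
    have hx := Finset.mem_coe.1 hx
    have hy := Finset.mem_coe.1 hy
    rw [Finset.mem_filter, Finset.mem_filter] at hx hy
    obtain ⟨⟨-, hex⟩, hxA⟩ := hx
    obtain ⟨⟨-, hey⟩, hyA⟩ := hy
    have hxy' : x.2 = y.2 := hxy
    have hN : g.N x.1 = g.N y.1 := by
      rw [hxy'] at hex
      omega
    obtain ⟨⟨xA, xp⟩, xu⟩ := x
    obtain ⟨⟨yA, yp⟩, yu⟩ := y
    simp only at hxA hyA hxy'
    subst hxA
    subst hyA
    subst hxy'
    have h1 : g.Rp * g.Q yA * xp = g.Rp * g.Q yA * yp := hN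
    have h2 := Nat.eq_of_mul_eq_mul_left (T5.AA_pos hg hA) h1
    rw [h2]

lemma num_UA {g : Cfg M} (hg : g.Ok) (m T : ℕ) (hm : m ≤ 2 ^ (g.I / 8))
    (hT : T ≤ 2 ^ (g.I / 100)) :
    (m : ℝ) * T ≤ g.U ∧ ((2 ^ (g.I / 40) : ℕ) : ℝ) ^ 6 * (m * T) * g.I ≤ g.U := by
  have hU := T5.U_ge g
  have hr := hg.hrI
  have hI := hg.hI
  have hmr : (m : ℝ) ≤ 2 ^ (g.I / 8) := by exact_mod_cast hm
  have hTr : (T : ℝ) ≤ 2 ^ (g.I / 100) := by exact_mod_cast hT
  have hIr : (g.I : ℝ) ≤ 2 ^ (g.I / 5) := by exact_mod_cast T5.I_le_pow g.I hI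
  have h2r : (0 : ℝ) < 2 ^ g.r := by positivity
  constructor
  · refine le_trans ?_ hU
    rw [le_div_iff₀ h2r]
    calc (m : ℝ) * T * 2 ^ g.r ≤ 2 ^ (g.I / 8) * 2 ^ (g.I / 100) * 2 ^ g.r := by gcongr
      _ = 2 ^ (g.I / 8 + g.I / 100 + g.r) := by rw [← pow_add, ← pow_add]
      _ ≤ 2 ^ (g.I / 2) := pow_le_pow_right₀ (by norm_num) (by omega)
  · refine le_trans ?_ hU
    rw [le_div_iff₀ h2r]
    push_cast
    calc ((2 : ℝ) ^ (g.I / 40)) ^ 6 * (m * T) * g.I * 2 ^ g.r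
        ≤ ((2 : ℝ) ^ (g.I / 40)) ^ 6 * (2 ^ (g.I / 8) * 2 ^ (g.I / 100)) * 2 ^ (g.I / 5) *
          2 ^ g.r := by gcongr
      _ = 2 ^ (g.I / 40 * 6 + (g.I / 8 + g.I / 100) + g.I / 5 + g.r) := by
          rw [← pow_mul, ← pow_add, ← pow_add, ← pow_add, ← pow_add]
      _ ≤ 2 ^ (g.I / 2) := pow_le_pow_right₀ (by norm_num) (by omega)

open Classical in
/-- the bound for a fixed family member -/
lemma fiber_boundA (h1 : QRStmt) (h4 : FixA) (C1 : ℝ) (hC1 : 0 < C1)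
    (h5 : ∀ (I i0 i1 r δ s : ℕ) (A : Finset ℕ), 3 ≤ i0 → i0 ≤ i1 →
      i1 ≤ I → I ≤ 2 ^ i0 → Adm δ → ¬ Bad I i0 δ → 1 ≤ s → s ≤ 2 ^ I → A.card ≤ I →
      (Real.log i1 - Real.log i0 - C1 ≤ ∑ p ∈ Pr2 i0 i1 \ A, ((Om r δ s p).card : ℝ) / p) ∧
      (∑ p ∈ Pr2 i0 i1 \ A, ((Om r δ s p).card : ℝ) / p ≤ 2 * Real.log I + C1))
    {g : Cfg M} (hg : g.Ok) (hI0 : C1 + 1 ≤ ((Nat.log 2 g.I + 1 : ℕ) : ℝ))
    (i0 : ℕ) (hi6 : 6 ≤ i0) (hi0 : g.I ≤ 2 ^ i0) (h4000 : 4000 * i0 * (Nat.log 2 g.I + 1) ≤ g.I)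
    (hcard : ∑ j, g.k j + g.R.card ≤ g.I) (κ a : ℕ) (hκ : 1 ≤ κ) (ha : a % 3 ≠ 0)
    (hκI : 3 ^ (κ + 1) ≤ 2 ^ (g.I / 100)) (δ s : ℕ) (hδ : Adm δ) (hbad : ¬ Bad g.I i0 δ)
    (hs : 1 ≤ s) (hδs : δ * s ^ 2 ≤ 3 * 2 ^ g.I) {A : Fin M → Finset ℕ} (hA : A ∈ g.Fam) :
    ((((TupA g κ a ×ˢ range (2 ^ g.I + 1)).filter
      (fun x => 3 * g.N x.1 = δ * s ^ 2 + 4 ^ g.r * x.2 ^ 2)).filter
        (fun x => x.1.1 = A)).card : ℝ) ≤
    (∏ q ∈ T5.AA g A, (1 + J q δ)) * ((g.U / 3 ^ κ / (∏ q ∈ T5.AA g A, (q : ℝ))) *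
      (2 * (204800 * Real.exp C1 + 1) * (i0 * (Nat.log 2 g.I + 1) / g.I))) := by
  set L := Nat.log 2 g.I + 1 with hL
  have hL1 : 1 ≤ L := by omega
  obtain ⟨hn1, hn2, hn3, hn4⟩ := T5.num_i1 g.I i0 L hL1 hi6 h4000
  set i1 := g.I / (3200 * L) with hi1
  have hI800 := hg.hI
  have hIpos : (0 : ℝ) < g.I := by
    have : 0 < g.I := by omega
    exact_mod_cast this
  have hz : 2 ^ i1 ≤ 2 ^ (g.I / 2) := by
    apply Nat.pow_le_pow_right (by norm_num)
    rw [hi1]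
    exact Nat.div_le_div_left (by omega) (by norm_num)
  have hsI : s ≤ 2 ^ g.I := by
    have h23 : 23 ≤ δ := by
      have := hδ.1
      omega
    have h2 : 23 * s ^ 2 ≤ 3 * 2 ^ g.I := le_trans (Nat.mul_le_mul_right _ h23) hδs
    have h3 : s ≤ s ^ 2 := by nlinarith
    omega
  have hAc : (T5.AA g A).card ≤ g.I := le_trans (T5.AA_card hA) hcard
  obtain ⟨hs1, hs2⟩ := h5 g.I i0 i1 g.r δ s (T5.AA g A) (by omega) hn1 hn2 hi0 hδ hbad hs hsI hAc
  set σ := (∑ p ∈ Pr2 i0 i1 \ T5.AA g A, ((Om g.r δ s p).card : ℝ) / p) with hσ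
  have hfix := h4 κ a g.r δ s ⌊g.U⌋₊ (2 ^ (g.I / 40)) (2 ^ i1) (80 * L) (T5.AA g A)
    (Pr2 i0 i1 \ T5.AA g A) hκ ha hδ (Nat.one_le_two_pow) (fun q hq => T5.AA_prime hg hA hq) (by
      intro p hp
      obtain ⟨hp1, hp2⟩ := Finset.mem_sdiff.1 hp
      unfold Pr2 at hp1
      rw [Finset.mem_filter, Finset.mem_Ioc] at hp1
      have h64 : 2 ^ 6 ≤ 2 ^ i0 := Nat.pow_le_pow_right (by norm_num) hi6
      refine ⟨hp1.2, by omega, hp1.1.2, hp2⟩) hn3 (by
      rw [← hσ]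
      have h7 := T5.log_le_L g.I (by omega)
      rw [← hL] at h7
      push_cast
      have h8 : (0:ℝ) ≤ (L : ℝ) := by positivity
      linarith) (T5.sum_sq_le i0 i1 hi6 hn1 _)
  have hfib := fiber_leA hg hA κ a δ s (2 ^ i1) hz
  rw [← hσ] at hfix
  refine le_trans (Nat.cast_le.2 hfib) (le_trans hfix ?_)
  have hprod0 : 0 ≤ ∏ q ∈ T5.AA g A, (1 + J q δ) :=
    Finset.prod_nonneg fun q _ => (T5.J_bounds h1 q δ).1
  rw [mul_comm (2 : ℝ) (∏ q ∈ T5.AA g A, (1 + J q δ)), mul_assoc]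
  apply mul_le_mul_of_nonneg_left _ hprod0
  -- the product
  have hmcast : ∏ q ∈ T5.AA g A, (q : ℝ) = ((g.Rp * g.Q A : ℕ) : ℝ) := by
    rw [← T5.prod_AA_nat hg hA]; push_cast; rfl
  rw [hmcast]
  set m := g.Rp * g.Q A with hm
  have hmpos : 0 < m := T5.AA_pos hg hA
  have hmr : (0 : ℝ) < (m : ℝ) := by exact_mod_cast hmpos
  obtain ⟨hU1, hU2⟩ := num_UA hg m (3 ^ (κ + 1)) (hg.hRQ A hA) hκI
  push_cast at hU1 hU2
  set T : ℝ := (3 : ℝ) ^ (κ + 1) with hT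
  have hTpos : 0 < T := by positivity
  have hmT : 0 < (m : ℝ) * T := by positivity
  have hU0 : 0 < g.U := lt_of_lt_of_le hmT hU1
  have hfl : (⌊g.U⌋₊ : ℝ) ≤ g.U := Nat.floor_le hU0.le
  have hUm : 1 ≤ g.U / (m * T) := by rwa [le_div_iff₀ hmT, one_mul]
  have e1 : (⌊g.U⌋₊ : ℝ) / (m * T) + 1 ≤ 2 * (g.U / (m * T)) := by
    have : (⌊g.U⌋₊ : ℝ) / (m * T) ≤ g.U / (m * T) := by gcongr
    linarith
  have hi0r : (0 : ℝ) < i0 := by
    have : 0 < i0 := by omega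
    exact_mod_cast this
  have hi1r : (0 : ℝ) < i1 := by
    have : 0 < i1 := by omega
    exact_mod_cast this
  have hLr : (0 : ℝ) < L := by exact_mod_cast hL1
  have e2 : Real.exp (-σ) ≤ Real.exp C1 * (6400 * (i0 * L / g.I)) := by
    have h9 : Real.exp (-σ) ≤ Real.exp (C1 + (Real.log i0 - Real.log i1)) := by
      apply Real.exp_le_exp.2; linarith
    have h10 : Real.exp (C1 + (Real.log i0 - Real.log i1)) = Real.exp C1 * (i0 / i1) := by
      rw [Real.exp_add, Real.exp_sub, Real.exp_log hi0r, Real.exp_log hi1r]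
    rw [h10] at h9
    refine le_trans h9 ?_
    apply mul_le_mul_of_nonneg_left _ (Real.exp_pos _).le
    have h11 : (i0 : ℝ) / i1 ≤ i0 / (g.I / (6400 * L)) := by
      apply div_le_div_of_nonneg_left hi0r.le _ hn4
      positivity
    refine le_trans h11 (le_of_eq ?_)
    field_simp
  have e3 : (((2 ^ (g.I / 40) : ℕ) : ℝ)) ^ 6 ≤ g.U / (m * T) * (i0 * L / g.I) := by
    have h12 : (((2 ^ (g.I / 40) : ℕ) : ℝ)) ^ 6 ≤ g.U / (m * T) * (1 / g.I) := by
      rw [div_mul_div_comm, mul_one, le_div_iff₀ (by positivity)]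
      calc (((2 ^ (g.I / 40) : ℕ) : ℝ)) ^ 6 * (m * T * g.I)
          = ((2 ^ (g.I / 40) : ℕ) : ℝ) ^ 6 * (m * T) * g.I := by ring
        _ ≤ g.U := by push_cast; exact hU2
    refine le_trans h12 ?_
    have h13 : (1 : ℝ) ≤ i0 * L := by
      have : 1 ≤ i0 * L := Nat.one_le_iff_ne_zero.2 (by positivity)
      exact_mod_cast this
    gcongr
  have hE0 := Real.exp_pos C1
  have hq0 : 0 ≤ g.U / (m * T) := by positivity
  have hw0 : (0 : ℝ) ≤ i0 * L / g.I := by positivity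
  have hcastL : ((Nat.log 2 g.I : ℕ) : ℝ) + 1 = (L : ℝ) := by rw [hL]; push_cast; ring
  rw [hcastL]
  have hlast : g.U / (m * T) ≤ g.U / 3 ^ κ / m := by
    rw [div_div]
    apply div_le_div_of_nonneg_left hU0.le (by positivity)
    have h14 : (3 : ℝ) ^ κ ≤ T := pow_le_pow_right₀ (by norm_num) (by omega)
    calc (3 : ℝ) ^ κ * m ≤ T * m := by gcongr
      _ = m * T := by ring
  calc 2 * (16 * ((⌊g.U⌋₊ : ℝ) / (m * T) + 1) * Real.exp (-σ) + ((2 ^ (g.I / 40) : ℕ) : ℝ) ^ 6)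
      ≤ 2 * (16 * (2 * (g.U / (m * T))) * (Real.exp C1 * (6400 * (i0 * L / g.I))) +
        g.U / (m * T) * (i0 * L / g.I)) := by
        gcongr
    _ = g.U / (m * T) * (2 * (204800 * Real.exp C1 + 1) * (i0 * L / g.I)) := by ring
    _ ≤ g.U / 3 ^ κ / m * (2 * (204800 * Real.exp C1 + 1) * (i0 * L / g.I)) := by gcongr

end GoodAux

/-- part G -/
theorem goodCountA (h1 : QRStmt) (h2 : ESStmt) (_h3 : TupStmt) (h4 : SVStmt) (h5 : SigStmt) :
    GoodCountA := by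
  classical
  have h4 := GoodAux.fixA h1 h4
  obtain ⟨C1, hC1, h5⟩ := h5
  refine ⟨2 * (204800 * Real.exp C1 + 1), by positivity, 2 ^ ⌈C1 + 1⌉₊, ?_⟩
  intro M g hg hI0 i0 hi6 hi0 h4000 hκ hcard κ a hκ1 ha hκI δ s hδ hbad hs hδs
  have hL0 : C1 + 1 ≤ ((Nat.log 2 g.I + 1 : ℕ) : ℝ) := by
    have h6 : ⌈C1 + 1⌉₊ ≤ Nat.log 2 g.I := by
      apply (Nat.le_log_iff_pow_le (by norm_num) ?_).2 hI0
      have := hg.hI
      omega
    have h7 : ((⌈C1 + 1⌉₊ : ℕ) : ℝ) ≤ ((Nat.log 2 g.I + 1 : ℕ) : ℝ) := by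
      exact_mod_cast (by omega)
    exact le_trans (Nat.le_ceil _) h7
  set F := (TupA g κ a ×ˢ range (2 ^ g.I + 1)).filter
      (fun x => 3 * g.N x.1 = δ * s ^ 2 + 4 ^ g.r * x.2 ^ 2) with hF
  have hmaps : ∀ x ∈ F, x.1.1 ∈ g.Fam := by
    intro x hx
    rw [hF, Finset.mem_filter, Finset.mem_product] at hx
    have h8 := hx.1.1
    unfold TupA at h8
    exact (Finset.mem_sigma.1 (Finset.mem_filter.1 h8).1).1
  have hsum : (F.card : ℝ) = ∑ A ∈ g.Fam, ((F.filter (fun x => x.1.1 = A)).card : ℝ) := by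
    rw [Finset.card_eq_sum_card_fiberwise
      (f := fun x : (Σ _ : Fin M → Finset ℕ, ℕ) × ℕ => x.1.1) (t := g.Fam)
      (fun x hx => Finset.mem_coe.2 (hmaps x (Finset.mem_coe.1 hx)))]
    push_cast
    rfl
  have hcount : (F.card : ℝ) ≤ ∑ A ∈ g.Fam, (∏ q ∈ T5.AA g A, (1 + J q δ)) *
      ((g.U / 3 ^ κ / (∏ q ∈ T5.AA g A, (q : ℝ))) *
      (2 * (204800 * Real.exp C1 + 1) * (i0 * (Nat.log 2 g.I + 1) / g.I))) := by
    rw [hsum]
    apply Finset.sum_le_sum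
    intro A hA
    have := GoodAux.fiber_boundA h1 h4 C1 hC1 h5 hg hL0 i0 hi6 hi0 h4000 hcard κ a hκ1 ha hκI
      δ s hδ hbad hs hδs hA
    convert this using 2
  have hterm : ∀ A ∈ g.Fam, (∏ q ∈ T5.AA g A, (1 + J q δ)) *
      ((g.U / 3 ^ κ / (∏ q ∈ T5.AA g A, (q : ℝ))) *
      (2 * (204800 * Real.exp C1 + 1) * (i0 * (Nat.log 2 g.I + 1) / g.I))) =
      (g.U / 3 ^ κ * (2 * (204800 * Real.exp C1 + 1) * (i0 * (Nat.log 2 g.I + 1) / g.I)) *
        (∏ q ∈ g.R, (1 + J q δ) / q)) * ∏ j, ∏ q ∈ A j, (1 + J q δ) / q := by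
    intro A hA
    have e := T5.prod_AA hg hA (fun q => (1 + J q δ) / (q : ℝ))
    rw [Finset.prod_div_distrib] at e
    rw [mul_assoc _ (∏ q ∈ g.R, (1 + J q δ) / (q : ℝ)) _, ← e]
    ring
  have hfam := h2.fam M g.Blk g.k (fun q => (1 + J q δ) / (q : ℝ))
  have hFam : g.Fam = Fintype.piFinset (fun j => powersetCard (g.k j) (g.Blk j)) := rfl
  rw [Finset.sum_congr rfl hterm, ← Finset.mul_sum, hFam, hfam] at hcount
  refine le_trans hcount ?_
  -- the killing primes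
  have hRprod : ∏ q ∈ g.R, (1 + J q δ) / (q : ℝ) ≤ 2 ^ g.R.card / g.Rp := by
    rw [Finset.prod_div_distrib]
    have h8 : ∏ q ∈ g.R, (1 + J q δ) ≤ 2 ^ g.R.card := by
      calc ∏ q ∈ g.R, (1 + J q δ) ≤ ∏ _q ∈ g.R, (2 : ℝ) :=
            Finset.prod_le_prod (fun q _ => (T5.J_bounds h1 q δ).1)
              (fun q _ => (T5.J_bounds h1 q δ).2.1)
        _ = 2 ^ g.R.card := by rw [Finset.prod_const]
    have h9 : ∏ q ∈ g.R, (q : ℝ) = (g.Rp : ℝ) := by
      unfold Cfg.Rp; push_cast; rfl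
    rw [h9]
    gcongr
  have hRprod0 : 0 ≤ ∏ q ∈ g.R, (1 + J q δ) / (q : ℝ) :=
    Finset.prod_nonneg fun q _ => div_nonneg (T5.J_bounds h1 q δ).1 (by positivity)
  -- the blocks
  have hblk : ∏ j, ∑ A ∈ powersetCard (g.k j) (g.Blk j), ∏ q ∈ A, (1 + J q δ) / (q : ℝ) ≤
      ∏ j, ((g.S j + 1 / (g.I : ℝ) ^ 2 + g.R.card / 2 ^ (g.κ j)) ^ g.k j /
        ((g.k j).factorial : ℝ)) := by
    apply Finset.prod_le_prod
    · intro j _
      exact Finset.sum_nonneg fun A _ => Finset.prod_nonneg fun q _ =>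
        div_nonneg (T5.J_bounds h1 q δ).1 (by positivity)
    · intro j _
      refine le_trans (h2.up (g.Blk j) (fun q => (1 + J q δ) / (q : ℝ)) (g.k j)
        (fun q _ => div_nonneg (T5.J_bounds h1 q δ).1 (by positivity))) ?_
      have h10 := T5.blk_sum h1 (g := g) i0 j (hκ j) δ hbad
      have h11 : 0 ≤ ∑ q ∈ g.Blk j, (1 + J q δ) / (q : ℝ) :=
        Finset.sum_nonneg fun q _ => div_nonneg (T5.J_bounds h1 q δ).1 (by positivity)
      gcongr
  have hblk0 : 0 ≤ ∏ j, ∑ A ∈ powersetCard (g.k j) (g.Blk j), ∏ q ∈ A, (1 + J q δ) / (q : ℝ) :=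
    Finset.prod_nonneg fun j _ => Finset.sum_nonneg fun A _ => Finset.prod_nonneg fun q _ =>
        div_nonneg (T5.J_bounds h1 q δ).1 (by positivity)
  have hU0 : 0 ≤ g.U := by unfold Cfg.U; positivity
  calc g.U / 3 ^ κ * (2 * (204800 * Real.exp C1 + 1) * (i0 * (Nat.log 2 g.I + 1) / g.I)) *
        (∏ q ∈ g.R, (1 + J q δ) / (q : ℝ)) *
        ∏ j, ∑ A ∈ powersetCard (g.k j) (g.Blk j), ∏ q ∈ A, (1 + J q δ) / (q : ℝ)
      ≤ g.U / 3 ^ κ * (2 * (204800 * Real.exp C1 + 1) * (i0 * (Nat.log 2 g.I + 1) / g.I)) *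
        (2 ^ g.R.card / g.Rp) *
        ∏ j, ((g.S j + 1 / (g.I : ℝ) ^ 2 + g.R.card / 2 ^ (g.κ j)) ^ g.k j /
          ((g.k j).factorial : ℝ)) := by
        gcongr
    _ = 2 * (204800 * Real.exp C1 + 1) * 2 ^ g.R.card * (g.U / (g.Rp * 3 ^ κ)) *
      (∏ j, ((g.S j + 1 / (g.I : ℝ) ^ 2 + g.R.card / 2 ^ (g.κ j)) ^ g.k j /
        ((g.k j).factorial : ℝ))) * (i0 * (Nat.log 2 g.I + 1) / g.I) := by
        rw [mul_comm (g.Rp : ℝ) (3 ^ κ), ← div_div]
        ring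

end Pool.Agent.NH75.PC
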