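import Pool.Agent.NH75.PC.Stm
import Pool.Agent.H307R2.OP.T2
import Pool.Agent.H307R2.OP.T0

set_option autoImplicit false

/-!
# Tuples in a class modulo `3 ^ κ` represented by a large kernel; tuples from `n ≤ 0`
-/

namespace Pool.Agent.NH75.PC

open Finset Pool.Agent.H307R2.OP

namespace LargeAux

/-- at most two classes modulo `3 ^ (κ + 1)` -/
theorem two_cl (κ a r δ s : ℕ) (hκ : 1 ≤ κ) (ha : a % 3 ≠ 0) (hδ : δ % 3 = 2) :
    ((range (3 ^ (κ + 1))).filter (fun u =>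
      (δ * s ^ 2 + 4 ^ r * u ^ 2) % 3 ^ (κ + 1) = (3 * a) % 3 ^ (κ + 1))).card ≤ 2 := by
  classical
  have h9 : (9 : ℕ) ∣ 3 ^ (κ + 1) := by
    have : (9 : ℕ) = 3 ^ 2 := by norm_num
    rw [this]
    exact pow_dvd_pow 3 (by omega)
  -- a solution is not divisible by 3
  have hnd : ∀ u : ℕ, (δ * s ^ 2 + 4 ^ r * u ^ 2) % 3 ^ (κ + 1) = (3 * a) % 3 ^ (κ + 1) →
      ¬ 3 ∣ u := by
    intro u hu h3
    have e1 : (δ * s ^ 2 + 4 ^ r * u ^ 2) ≡ 3 * a [MOD 9] := Nat.ModEq.of_dvd h9 hu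
    have e2 : 9 ∣ 4 ^ r * u ^ 2 := by
      obtain ⟨k, rfl⟩ := h3
      exact Dvd.intro (4 ^ r * k ^ 2) (by ring)
    have e3 : (δ * s ^ 2) ≡ 3 * a [MOD 9] := by
      have : (δ * s ^ 2 + 4 ^ r * u ^ 2) ≡ δ * s ^ 2 + 0 [MOD 9] :=
        Nat.ModEq.add_left _ ((Nat.modEq_zero_iff_dvd).2 e2)
      rw [add_zero] at this
      exact this.symm.trans e1
    have e4 : 3 ∣ δ * s ^ 2 := by
      have : (δ * s ^ 2) ≡ 3 * a [MOD 3] := Nat.ModEq.of_dvd (by norm_num) e3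
      exact (this.dvd_iff dvd_rfl).2 (Dvd.intro _ rfl)
    have e5 : 3 ∣ s := by
      rcases (Nat.Prime.dvd_mul Nat.prime_three).1 e4 with h | h
      · omega
      · exact Nat.prime_three.dvd_of_dvd_pow h
    have e6 : 9 ∣ δ * s ^ 2 := by
      obtain ⟨k, rfl⟩ := e5
      exact Dvd.intro (δ * k ^ 2) (by ring)
    have e7 : 9 ∣ 3 * a := (e3.dvd_iff dvd_rfl).1 e6
    omega
  rcases Finset.eq_empty_or_nonempty ((range (3 ^ (κ + 1))).filter (fun u =>
      (δ * s ^ 2 + 4 ^ r * u ^ 2) % 3 ^ (κ + 1) = (3 * a) % 3 ^ (κ + 1))) with he | ⟨v, hv⟩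
  · rw [he]
    simp
  · have hsub : (range (3 ^ (κ + 1))).filter (fun u =>
      (δ * s ^ 2 + 4 ^ r * u ^ 2) % 3 ^ (κ + 1) = (3 * a) % 3 ^ (κ + 1)) ⊆
        {v, 3 ^ (κ + 1) - v} := by
      intro u hu
      rw [mem_filter, mem_range] at hu hv
      rw [mem_insert, mem_singleton]
      have h3u := hnd u hu.2
      have h3v := hnd v hv.2
      have hcong : (δ * s ^ 2 + 4 ^ r * u ^ 2) ≡ (δ * s ^ 2 + 4 ^ r * v ^ 2) [MOD 3 ^ (κ + 1)] :=
        hu.2.trans hv.2.symm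
      have h2 : (4 ^ r * u ^ 2) ≡ (4 ^ r * v ^ 2) [MOD 3 ^ (κ + 1)] :=
        Nat.ModEq.add_left_cancel' _ hcong
      have hcop : Nat.Coprime (3 ^ (κ + 1)) (4 ^ r) :=
        Nat.Coprime.pow _ _ (by norm_num)
      have h4 : (u ^ 2) ≡ (v ^ 2) [MOD 3 ^ (κ + 1)] :=
        Nat.ModEq.cancel_left_of_coprime hcop h2
      have h5 : ((3 : ℤ) ^ (κ + 1)) ∣ ((u : ℤ) - v) * ((u : ℤ) + v) := by
        have h6 := (Nat.modEq_iff_dvd.1 h4.symm)
        push_cast at h6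
        have h7 : ((u : ℤ) - v) * ((u : ℤ) + v) = (u : ℤ) ^ 2 - (v : ℤ) ^ 2 := by ring
        rw [h7]
        exact h6
      by_cases h8 : (3 : ℤ) ∣ (u : ℤ) - v
      · left
        have h9' : ¬ (3 : ℤ) ∣ (u : ℤ) + v := by
          intro h
          omega
        have h10 : IsCoprime ((3 : ℤ) ^ (κ + 1)) ((u : ℤ) + v) :=
          IsCoprime.pow_left ((Prime.coprime_iff_not_dvd Int.prime_three).2 h9')
        have h11 : ((3 : ℤ) ^ (κ + 1)) ∣ (u : ℤ) - v := h10.dvd_of_dvd_mul_right h5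
        have hu' : (u : ℤ) < 3 ^ (κ + 1) := by exact_mod_cast hu.1
        have hv' : (v : ℤ) < 3 ^ (κ + 1) := by exact_mod_cast hv.1
        have h12 : (u : ℤ) - v = 0 := by
          refine Int.eq_zero_of_abs_lt_dvd h11 ?_
          rw [abs_lt]
          constructor <;> omega
        omega
      · right
        have h10 : IsCoprime ((3 : ℤ) ^ (κ + 1)) ((u : ℤ) - v) :=
          IsCoprime.pow_left ((Prime.coprime_iff_not_dvd Int.prime_three).2 h8)
        have h11 : ((3 : ℤ) ^ (κ + 1)) ∣ (u : ℤ) + v := h10.dvd_of_dvd_mul_left h5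
        have h12 : 3 ^ (κ + 1) ∣ u + v := by exact_mod_cast h11
        obtain ⟨k, hk⟩ := h12
        have hvpos : 0 < v := by
          rcases Nat.eq_zero_or_pos v with h | h
          · rw [h] at h3v; exact absurd (dvd_zero 3) h3v
          · exact h
        have hk1 : k = 1 := by
          have h13 : k < 2 := by
            by_contra hcon
            push Not at hcon
            have : 3 ^ (κ + 1) * 2 ≤ 3 ^ (κ + 1) * k := Nat.mul_le_mul_left _ hcon
            omega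
          have h14 : k ≠ 0 := by
            rintro rfl
            omega
          omega
        rw [hk1, mul_one] at hk
        omega
    refine (Finset.card_le_card hsub).trans ?_
    exact Finset.card_le_two

/-- counting by the Chinese remainder theorem -/
theorem count_le3 (A : Finset ℕ) (Ω : ℕ → Finset ℕ) (X k : ℕ) (Ω3 : Finset ℕ)
    (hp : ∀ q ∈ A, q.Prime ∧ 5 ≤ q)
    (hΩ : ∀ q ∈ A, (Ω q).card ≤ 2) (h3 : Ω3.card ≤ 2) :
    ((range (X + 1)).filter (fun u => (∀ q ∈ A, u % q ∈ Ω q) ∧ u % 3 ^ k ∈ Ω3)).card ≤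
      (X / ((∏ q ∈ A, q) * 3 ^ k) + 1) * (2 ^ A.card * 2) := by
  classical
  set m := ∏ q ∈ A, q with hm
  have hmpos : 0 < m := Finset.prod_pos (fun q hq => (hp q hq).1.pos)
  have h1 : ((range (X + 1)).filter (fun u => (∀ q ∈ A, u % q ∈ Ω q) ∧ u % 3 ^ k ∈ Ω3)).card ≤
      ((range (X / (m * 3 ^ k) + 1)) ×ˢ (A.pi Ω ×ˢ Ω3)).card := by
    refine Finset.card_le_card_of_injOn
      (fun u => (u / (m * 3 ^ k), (fun q _ => u % q), u % 3 ^ k)) ?_ ?_
    · intro u hu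
      simp only [coe_filter, mem_range, Set.mem_ofPred_eq] at hu
      simp only [coe_product, Set.mem_prod, mem_coe, mem_range, mem_pi]
      refine ⟨?_, fun q hq => hu.2.1 q hq, hu.2.2⟩
      exact Nat.lt_succ_of_le (Nat.div_le_div_right (Nat.lt_succ_iff.mp hu.1))
    · intro u _ v _ huv
      simp only [Prod.mk.injEq] at huv
      obtain ⟨hd, hr, hr3⟩ := huv
      have hr' : ∀ q ∈ A, u % q = v % q := fun q hq => congrFun (congrFun hr q) hq
      have key : ∀ a b : ℕ, a ≤ b → (∀ q ∈ A, a % q = b % q) → a % 3 ^ k = b % 3 ^ k →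
          a % (m * 3 ^ k) = b % (m * 3 ^ k) := by
        intro a b hab h h'
        have hdvd : m ∣ b - a := by
          rw [hm]
          refine Finset.prod_primes_dvd _ (fun q hq => (hp q hq).1.prime) (fun q hq => ?_)
          exact (Nat.modEq_iff_dvd' hab).mp (h q hq)
        have hdvd3 : 3 ^ k ∣ b - a := (Nat.modEq_iff_dvd' hab).mp h'
        have hcop : Nat.Coprime m (3 ^ k) := by
          refine Nat.Coprime.pow_right _ ?_
          rw [hm]
          refine Nat.Coprime.prod_left fun q hq => ?_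
          refine (Nat.coprime_primes (hp q hq).1 Nat.prime_three).2 ?_
          have := (hp q hq).2
          omega
        exact (Nat.modEq_iff_dvd' hab).mpr (hcop.mul_dvd_of_dvd_of_dvd hdvd hdvd3)
      have hmod : u % (m * 3 ^ k) = v % (m * 3 ^ k) := by
        rcases le_total u v with h | h
        · exact key u v h hr' hr3
        · exact (key v u h (fun q hq => (hr' q hq).symm) hr3.symm).symm
      rw [← Nat.div_add_mod u (m * 3 ^ k), ← Nat.div_add_mod v (m * 3 ^ k), hmod, hd]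
  refine h1.trans ?_
  rw [Finset.card_product, card_range, Finset.card_product, Finset.card_pi]
  refine Nat.mul_le_mul le_rfl (Nat.mul_le_mul ?_ h3)
  calc ∏ a ∈ A, (Ω a).card ≤ ∏ _a ∈ A, 2 := Finset.prod_le_prod' hΩ
    _ = 2 ^ A.card := by rw [Finset.prod_const]

theorem U_ge3 {M : ℕ} (g : Cfg M) (hg : g.Ok) : (2 : ℝ) ^ (g.I / 8 + g.I / 100) ≤ g.U := by
  rw [Cfg.U, le_div_iff₀ (by positivity), ← pow_add]
  apply Real.le_sqrt_of_sq_le
  rw [← pow_mul]
  have h1 := hg.hrI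
  have h2 : (2 : ℝ) ^ ((g.I / 8 + g.I / 100 + g.r) * 2) ≤ 2 ^ g.I :=
    pow_le_pow_right₀ (by norm_num) (by omega)
  have h3 : (0 : ℝ) < 2 ^ g.I := by positivity
  linarith

theorem u_le (r I N u h b : ℕ) (hb : b ≤ h) (hN : N ≤ 2 ^ I)
    (he : 3 * N + 1 + 24 * b = 4 ^ r * u ^ 2) :
    (u : ℝ) ≤ Real.sqrt (3 * 2 ^ I) / 2 ^ r + (1 + 5 * h) := by
  have hhr : (0 : ℝ) ≤ h := Nat.cast_nonneg h
  have h1 : ((2 : ℝ) ^ r * u) ^ 2 ≤ 3 * 2 ^ I + 1 + 24 * h := by
    have h2 : (4 ^ r * u ^ 2 : ℕ) ≤ 3 * 2 ^ I + 1 + 24 * h := by rw [← he]; omega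
    have h3 : (4 : ℝ) ^ r * (u : ℝ) ^ 2 ≤ 3 * 2 ^ I + 1 + 24 * h := by exact_mod_cast h2
    have h4 : ((2 : ℝ) ^ r * u) ^ 2 = 4 ^ r * (u : ℝ) ^ 2 := by
      rw [mul_pow, ← pow_mul, mul_comm r 2, pow_mul]
      norm_num
    rw [h4]; exact h3
  have hs : Real.sqrt (3 * 2 ^ I) ^ 2 = 3 * 2 ^ I := Real.sq_sqrt (by positivity)
  have hs0 : 0 ≤ Real.sqrt (3 * (2 : ℝ) ^ I) := Real.sqrt_nonneg _
  have hhh : (h : ℝ) ≤ (h : ℝ) ^ 2 := by
    have : h ≤ h ^ 2 := by
      rw [pow_two]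
      exact Nat.le_mul_self h
    exact_mod_cast this
  have h5 : (2 : ℝ) ^ r * u ≤ Real.sqrt (3 * 2 ^ I) + (1 + 5 * h) := by
    refine le_of_sq_le_sq ?_ (by positivity)
    nlinarith [mul_nonneg hs0 hhr]
  have h6 : (u : ℝ) ≤ (Real.sqrt (3 * 2 ^ I) + (1 + 5 * h)) / 2 ^ r := by
    rw [le_div_iff₀ (by positivity)]
    linarith
  have h7 : (1 + 5 * (h : ℝ)) / 2 ^ r ≤ 1 + 5 * h :=
    div_le_self (by positivity) (one_le_pow₀ (by norm_num))
  rw [add_div] at h6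
  linarith
where
  le_of_sq_le_sq {a b : ℝ} (h : a ^ 2 ≤ b ^ 2) (hb : 0 ≤ b) : a ≤ b := by
    by_contra hc
    push Not at hc
    nlinarith

open Classical in
theorem zero_b {M : ℕ} (h1 : TupStmt) (g : Cfg M) (hg : g.Ok) (h b : ℕ) (hb : b ≤ h) :
    ((g.Tup.filter (fun t => ∃ u : ℕ, 3 * g.N t + 1 + 24 * b = 4 ^ g.r * u ^ 2)).card : ℝ) ≤
      2 ^ (g.I / 8) * (g.U + 5 * h + 3) := by
  have hU : 0 ≤ g.U := by
    unfold Cfg.U
    positivity
  set F := g.Tup.filter (fun t => ∃ u : ℕ, 3 * g.N t + 1 + 24 * b = 4 ^ g.r * u ^ 2) with hF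
  have hch : ∀ t : (Σ _ : Fin M → Finset ℕ, ℕ), ∃ u : ℕ, t ∈ F →
      3 * g.N t + 1 + 24 * b = 4 ^ g.r * u ^ 2 := by
    intro t
    by_cases ht : t ∈ F
    · obtain ⟨u, hu⟩ := (Finset.mem_filter.mp ht).2
      exact ⟨u, fun _ => hu⟩
    · exact ⟨0, fun h => absurd h ht⟩
  choose uf huf using hch
  have hRpos : 0 < g.Rp := by
    unfold Cfg.Rp
    exact Finset.prod_pos (fun q hq => (hg.hR q hq).1.pos)
  have hFam : ∀ t ∈ F, t.1 ∈ g.Fam := by
    intro t ht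
    have := (Finset.mem_filter.mp ht).1
    unfold Cfg.Tup at this
    exact (Finset.mem_sigma.mp this).1
  have hcard : F.card ≤
      ((Icc 1 (2 ^ (g.I / 8))) ×ˢ (range (⌊g.U + (1 + 5 * (h : ℝ))⌋₊ + 1))).card := by
    apply Finset.card_le_card_of_injOn (fun t => (g.Q t.1, uf t))
    · intro t ht
      have htF : t ∈ F := ht
      have htA := hFam t htF
      have htT := (Finset.mem_filter.mp htF).1
      simp only [Finset.coe_product, Set.mem_prod, Finset.mem_coe, Finset.mem_Icc,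
        Finset.mem_range]
      refine ⟨⟨t0_Q_pos g htA, ?_⟩, ?_⟩
      · refine le_trans ?_ (hg.hRQ t.1 htA)
        exact Nat.le_mul_of_pos_left _ hRpos
      · obtain ⟨s, hs⟩ := h1 M g hg t htT
        have hN : g.N t ≤ 2 ^ g.I := hs.2.2.2.2.2.2.2
        have hle := u_le g.r g.I (g.N t) (uf t) h b hb hN (huf t htF)
        rw [Nat.lt_succ_iff]
        exact Nat.le_floor hle
    · rintro ⟨A, p⟩ hAp ⟨B, q⟩ hBq heq
      have hA : A ∈ g.Fam := hFam _ hAp
      have hB : B ∈ g.Fam := hFam _ hBq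
      simp only [Prod.mk.injEq] at heq
      obtain ⟨hQ, hu⟩ := heq
      have hAB : A = B := by
        funext j
        exact Finset.Subset.antisymm (t0_sub g hg hA hB hQ j) (t0_sub g hg hB hA hQ.symm j)
      subst hAB
      have e1 := huf _ hAp
      have e2 := huf _ hBq
      rw [hu] at e1
      have e3 : g.Rp * g.Q A * p = g.Rp * g.Q A * q := by
        have e4 : 3 * g.N ⟨A, p⟩ + 1 + 24 * b = 3 * g.N ⟨A, q⟩ + 1 + 24 * b := by rw [e1, e2]
        have e5 : g.N ⟨A, p⟩ = g.N ⟨A, q⟩ := by omega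
        exact e5
      have e6 : p = q := Nat.eq_of_mul_eq_mul_left (Nat.mul_pos hRpos (t0_Q_pos g hA)) e3
      rw [e6]
  rw [Finset.card_product, Nat.card_Icc, Finset.card_range] at hcard
  have hc2 : (F.card : ℝ) ≤ 2 ^ (g.I / 8) * ((⌊g.U + (1 + 5 * (h : ℝ))⌋₊ : ℝ) + 1) := by
    have : F.card ≤ 2 ^ (g.I / 8) * (⌊g.U + (1 + 5 * (h : ℝ))⌋₊ + 1) := by simpa using hcard
    exact_mod_cast this
  refine hc2.trans ?_
  apply mul_le_mul_of_nonneg_left _ (by positivity)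
  have hhr : (0 : ℝ) ≤ h := Nat.cast_nonneg h
  have := Nat.floor_le (show 0 ≤ g.U + (1 + 5 * (h : ℝ)) by positivity)
  linarith

end LargeAux

open Pool.Agent.H307R2.OP.T2Aux LargeAux in
theorem tupLargeA (h1 : QRStmt) (h2 : ESStmt) (h3 : TupStmt) : TupLargeA := by
  classical
  intro M g hg κ a hκ ha h3κ δ hδ
  have hδ3 : δ % 3 = 2 := by
    have := hδ.1
    omega
  have hδpos : 0 < δ := by
    have := hδ.1
    omega
  set S0 : ℕ := ⌊Real.sqrt (3 * 2 ^ g.I / δ)⌋₊ with hS0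
  set U0 : ℕ := ⌊g.U⌋₊ with hU0
  set H : ℕ := ∑ j, g.k j + g.R.card with hH
  have hUnn : 0 ≤ g.U := le_trans (by positivity) (U_ge g hg)
  -- the target set
  set X : Finset (Σ _ : (Fin M → Finset ℕ) × ℕ, ℕ) :=
    (g.Fam ×ˢ (Icc 1 S0)).sigma (fun x => (range (U0 + 1)).filter
      (fun u => (g.Rp * g.Q x.1) ∣ δ * x.2 ^ 2 + 4 ^ g.r * u ^ 2 ∧
        (δ * x.2 ^ 2 + 4 ^ g.r * u ^ 2) % 3 ^ (κ + 1) = (3 * a) % 3 ^ (κ + 1))) with hX
  have hcard1 : ((TupA g κ a).filter (fun t => Rep g.r δ (g.N t))).card ≤ X.card := by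
    let f : (Σ _ : Fin M → Finset ℕ, ℕ) → (Σ _ : (Fin M → Finset ℕ) × ℕ, ℕ) := fun t =>
      if h : Rep g.r δ (g.N t) then ⟨(t.1, h.choose), h.choose_spec.choose⟩ else ⟨(t.1, 0), 0⟩
    have hf : ∀ t, (h : Rep g.r δ (g.N t)) → ∃ s u : ℕ, f t = ⟨(t.1, s), u⟩ ∧
        3 * g.N t = δ * s ^ 2 + 4 ^ g.r * u ^ 2 := by
      intro t h
      refine ⟨h.choose, h.choose_spec.choose, ?_, h.choose_spec.choose_spec⟩
      simp only [f, dif_pos h]
    refine Finset.card_le_card_of_injOn f ?_ ?_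
    · intro t ht
      rw [mem_coe, mem_filter] at ht
      obtain ⟨htA, hRep⟩ := ht
      obtain ⟨htT, htN⟩ := mem_filter.mp htA
      obtain ⟨s, u, hfe, hsu⟩ := hf t hRep
      rw [hfe, mem_coe, hX, mem_sigma]
      obtain ⟨s', hs'p, hs'prod, -, -, -, -, -, hNle⟩ := h3 M g hg t htT
      have htT' := htT
      rw [Cfg.Tup, mem_sigma] at htT'
      have hNodd : g.N t % 2 = 1 := by
        rw [← Nat.odd_iff, ← hs'prod]
        refine Finset.prod_induction _ Odd (fun a b => Odd.mul) (by decide) (fun q hq => ?_)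
        exact (hs'p q hq).1.odd_of_ne_two (by have := (hs'p q hq).2.1; omega)
      have h4 : 4 ^ g.r * u ^ 2 % 2 = 0 := by
        have : 2 ∣ 4 ^ g.r := by
          have : (4 : ℕ) ^ g.r = 4 ^ (g.r - 1) * 4 := by
            rw [← pow_succ]
            congr 1
            have := hg.hr
            omega
          rw [this]
          exact dvd_mul_of_dvd_right (by norm_num) _
        exact Nat.mod_eq_zero_of_dvd (this.mul_right _)
      have hs1 : 1 ≤ s := by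
        rcases Nat.eq_zero_or_pos s with h0 | h0
        · exfalso
          rw [h0] at hsu
          simp only [ne_eq, OfNat.ofNat_ne_zero, not_false_eq_true, zero_pow, mul_zero,
            zero_add] at hsu
          omega
        · exact h0
      have hNle' : ((3 * g.N t : ℕ) : ℝ) ≤ 3 * 2 ^ g.I := by
        have : 3 * g.N t ≤ 3 * 2 ^ g.I := Nat.mul_le_mul le_rfl hNle
        exact_mod_cast this
      have hsum : ((3 * g.N t : ℕ) : ℝ) = δ * (s : ℝ) ^ 2 + 4 ^ g.r * (u : ℝ) ^ 2 := by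
        rw [hsu]; push_cast; ring
      rw [hsum] at hNle'
      have hδR : (0 : ℝ) < δ := by exact_mod_cast hδpos
      have hsS : s ≤ S0 := by
        apply Nat.le_floor
        apply Real.le_sqrt_of_sq_le
        rw [le_div_iff₀ hδR]
        have : (0 : ℝ) ≤ 4 ^ g.r * (u : ℝ) ^ 2 := by positivity
        linarith
      have huU : u ≤ U0 := by
        apply Nat.le_floor
        rw [Cfg.U, le_div_iff₀ (by positivity)]
        apply Real.le_sqrt_of_sq_le
        have h5 : (0 : ℝ) ≤ δ * (s : ℝ) ^ 2 := by positivity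
        have h6 : ((2 : ℝ) ^ g.r) ^ 2 = 4 ^ g.r := by
          rw [← pow_mul, mul_comm, pow_mul]; norm_num
        rw [mul_pow, h6]
        linarith
      refine ⟨mem_product.mpr ⟨htT'.1, mem_Icc.mpr ⟨hs1, hsS⟩⟩, ?_⟩
      simp only [mem_filter, mem_range]
      refine ⟨Nat.lt_succ_of_le huU, ?_, ?_⟩
      · rw [← hsu]
        exact Dvd.intro (t.2 * 3) (by rw [Cfg.N]; ring)
      · rw [← hsu, pow_succ']
        exact Nat.ModEq.mul_left' 3 htN
    · intro t ht t' ht' heq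
      rw [mem_coe, mem_filter] at ht ht'
      obtain ⟨htA, hRep⟩ := ht
      obtain ⟨htA', hRep'⟩ := ht'
      have htT := (mem_filter.mp htA).1
      obtain ⟨s, u, hfe, hsu⟩ := hf t hRep
      obtain ⟨s', u', hfe', hsu'⟩ := hf t' hRep'
      rw [hfe, hfe'] at heq
      have e1 := Sigma.mk.inj_iff.mp heq
      obtain ⟨e2, e3⟩ := e1
      have e3' : u = u' := eq_of_heq e3
      have e4 : t.1 = t'.1 := congrArg Prod.fst e2
      have e5 : s = s' := congrArg Prod.snd e2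
      subst e3' e5
      rw [← hsu'] at hsu
      rw [Cfg.Tup, mem_sigma] at htT
      have hmpos := m_pos g hg htT.1
      rw [Cfg.N, Cfg.N, ← e4] at hsu
      have e6 : t.2 = t'.2 := by
        have h7 : (g.Rp * g.Q t.1) * t.2 = (g.Rp * g.Q t.1) * t'.2 := by
          have : 3 * (g.Rp * g.Q t.1 * t.2) = 3 * (g.Rp * g.Q t.1 * t'.2) := hsu
          omega
        exact Nat.eq_of_mul_eq_mul_left hmpos h7
      exact Sigma.ext e4 (heq_of_eq e6)
  -- the number of u for given A and s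
  have hfib : ∀ x ∈ g.Fam ×ˢ (Icc 1 S0), (((range (U0 + 1)).filter
      (fun u => (g.Rp * g.Q x.1) ∣ δ * x.2 ^ 2 + 4 ^ g.r * u ^ 2 ∧
        (δ * x.2 ^ 2 + 4 ^ g.r * u ^ 2) % 3 ^ (κ + 1) = (3 * a) % 3 ^ (κ + 1))).card : ℝ) ≤
      2 ^ (H + 1) * (g.U / (g.Rp * 3 ^ κ)) * (1 / (g.Q x.1 : ℝ)) := by
    rintro ⟨A, s⟩ hx
    rw [mem_product] at hx
    have hA : A ∈ g.Fam := hx.1
    have hpr := AA_prime g hg hA
    have hc1 : ((range (U0 + 1)).filter
        (fun u => (g.Rp * g.Q A) ∣ δ * s ^ 2 + 4 ^ g.r * u ^ 2 ∧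
        (δ * s ^ 2 + 4 ^ g.r * u ^ 2) % 3 ^ (κ + 1) = (3 * a) % 3 ^ (κ + 1))).card ≤
        (U0 / (g.Rp * g.Q A * 3 ^ (κ + 1)) + 1) * (2 ^ H * 2) := by
      have := count_le3 (AA g A) (fun q => Om g.r δ s q) U0 (κ + 1)
        ((range (3 ^ (κ + 1))).filter (fun u =>
          (δ * s ^ 2 + 4 ^ g.r * u ^ 2) % 3 ^ (κ + 1) = (3 * a) % 3 ^ (κ + 1)))
        (fun q hq => hpr q hq)
        (fun q hq => om_le h1 g.r δ s q hδ (hpr q hq).1 (hpr q hq).2)
        (two_cl κ a g.r δ s hκ ha hδ3)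
      rw [AA_prod g hg hA, AA_card g hg hA] at this
      refine le_trans (Finset.card_le_card ?_) this
      intro u hu
      rw [mem_filter] at hu ⊢
      refine ⟨hu.1, fun q hq => ?_, ?_⟩
      · have hqd : q ∣ δ * s ^ 2 + 4 ^ g.r * u ^ 2 := by
          refine dvd_trans ?_ hu.2.1
          rw [← AA_prod g hg hA]
          exact Finset.dvd_prod_of_mem _ hq
        simp only [Om, mem_filter, mem_range]
        refine ⟨Nat.mod_lt _ (hpr q hq).1.pos, ?_⟩
        have h5 : (δ * s ^ 2 + 4 ^ g.r * (u % q) ^ 2) ≡ (δ * s ^ 2 + 4 ^ g.r * u ^ 2) [MOD q] :=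
          Nat.ModEq.add_left _ (Nat.ModEq.mul_left _ ((Nat.mod_modEq u q).pow 2))
        exact (h5.dvd_iff dvd_rfl).mpr hqd
      · rw [mem_filter, mem_range]
        refine ⟨Nat.mod_lt _ (by positivity), ?_⟩
        have h5 : (δ * s ^ 2 + 4 ^ g.r * (u % 3 ^ (κ + 1)) ^ 2) ≡
            (δ * s ^ 2 + 4 ^ g.r * u ^ 2) [MOD 3 ^ (κ + 1)] :=
          Nat.ModEq.add_left _ (Nat.ModEq.mul_left _ ((Nat.mod_modEq u _).pow 2))
        exact h5.trans hu.2.2
    have hmpos := m_pos g hg hA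
    have hmR : (0 : ℝ) < ((g.Rp * g.Q A : ℕ) : ℝ) := by exact_mod_cast hmpos
    have h3pos : (0 : ℝ) < 3 ^ (κ + 1) := by positivity
    have hmle : ((g.Rp * g.Q A * 3 ^ (κ + 1) : ℕ) : ℝ) ≤ g.U := by
      refine le_trans ?_ (U_ge3 g hg)
      have e1 : g.Rp * g.Q A * 3 ^ (κ + 1) ≤ 2 ^ (g.I / 8) * 2 ^ (g.I / 100) :=
        Nat.mul_le_mul (hg.hRQ A hA) h3κ
      rw [← pow_add] at e1
      exact_mod_cast e1
    have hc2 : (((U0 / (g.Rp * g.Q A * 3 ^ (κ + 1)) + 1) * (2 ^ H * 2) : ℕ) : ℝ) ≤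
        (g.U / ((g.Rp * g.Q A * 3 ^ (κ + 1) : ℕ) : ℝ) +
          g.U / ((g.Rp * g.Q A * 3 ^ (κ + 1) : ℕ) : ℝ)) * (2 ^ H * 2) := by
      push_cast
      refine mul_le_mul_of_nonneg_right (add_le_add ?_ ?_) (by positivity)
      · refine le_trans Nat.cast_div_le ?_
        push_cast
        refine div_le_div_of_nonneg_right (Nat.floor_le hUnn) ?_
        positivity
      · push_cast at hmR hmle
        rw [le_div_iff₀ (mul_pos hmR h3pos), one_mul]
        exact hmle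
    calc _ ≤ (((U0 / (g.Rp * g.Q A * 3 ^ (κ + 1)) + 1) * (2 ^ H * 2) : ℕ) : ℝ) := by
          exact_mod_cast hc1
      _ ≤ _ := hc2
      _ = 4 / 3 * (2 ^ H * (g.U / (g.Rp * 3 ^ κ)) * (1 / (g.Q A : ℝ))) := by
        have hR0 : (g.Rp : ℝ) ≠ 0 := by
          have : g.Rp ≠ 0 := fun h => by rw [h, zero_mul] at hmpos; exact lt_irrefl _ hmpos
          exact_mod_cast this
        have hQ0 : (g.Q A : ℝ) ≠ 0 := by
          have : g.Q A ≠ 0 := fun h => by rw [h, mul_zero] at hmpos; exact lt_irrefl _ hmpos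
          exact_mod_cast this
        push_cast
        rw [pow_succ]
        field_simp
        ring
      _ ≤ 2 * (2 ^ H * (g.U / (g.Rp * 3 ^ κ)) * (1 / (g.Q A : ℝ))) :=
        mul_le_mul_of_nonneg_right (by norm_num) (by positivity)
      _ = _ := by ring
  have hXcard : (X.card : ℝ) ≤ ∑ x ∈ g.Fam ×ˢ (Icc 1 S0),
      2 ^ (H + 1) * (g.U / (g.Rp * 3 ^ κ)) * (1 / (g.Q x.1 : ℝ)) := by
    rw [hX, card_sigma]
    push_cast
    exact Finset.sum_le_sum hfib
  have hsum : ∑ x ∈ g.Fam ×ˢ (Icc 1 S0),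
      2 ^ (H + 1) * (g.U / (g.Rp * 3 ^ κ)) * (1 / (g.Q x.1 : ℝ)) =
      (S0 : ℝ) * (2 ^ (H + 1) * (g.U / (g.Rp * 3 ^ κ)) * ∑ A ∈ g.Fam, 1 / (g.Q A : ℝ)) := by
    rw [Finset.sum_product_right]
    simp only [← Finset.mul_sum]
    rw [Finset.sum_const, Nat.card_Icc, nsmul_eq_mul]
    simp only [Nat.add_sub_cancel]
    ring
  have hS0le : (S0 : ℝ) ≤ Real.sqrt (3 * 2 ^ g.I / δ) := Nat.floor_le (Real.sqrt_nonneg _)
  have hW := sum_inv g h2
  have hWnn : 0 ≤ ∑ A ∈ g.Fam, 1 / (g.Q A : ℝ) := Finset.sum_nonneg (fun A _ => by positivity)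
  calc (((TupA g κ a).filter (fun t => Rep g.r δ (g.N t))).card : ℝ) ≤ (X.card : ℝ) := by
        exact_mod_cast hcard1
    _ ≤ _ := hXcard
    _ = _ := hsum
    _ ≤ Real.sqrt (3 * 2 ^ g.I / δ) * (2 ^ (H + 1) * (g.U / (g.Rp * 3 ^ κ)) * g.W) := by
        refine mul_le_mul hS0le (mul_le_mul_of_nonneg_left hW (by positivity)) (by positivity)
          (Real.sqrt_nonneg _)
    _ = _ := by ring

open LargeAux in
theorem tupZeroA (h1 : TupStmt) : TupZeroA := by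
  classical
  intro M g hg h
  have hsub : g.Tup.filter (fun t => ∃ b ≤ h, ∃ u : ℕ,
      3 * g.N t + 1 + 24 * b = 4 ^ g.r * u ^ 2) ⊆
      (range (h + 1)).biUnion (fun b => g.Tup.filter (fun t => ∃ u : ℕ,
        3 * g.N t + 1 + 24 * b = 4 ^ g.r * u ^ 2)) := by
    intro t ht
    obtain ⟨h2, b, hb, hu⟩ := Finset.mem_filter.mp ht
    exact Finset.mem_biUnion.mpr ⟨b, Finset.mem_range.mpr (by omega),
      Finset.mem_filter.mpr ⟨h2, hu⟩⟩
  have h3 : ((g.Tup.filter (fun t => ∃ b ≤ h, ∃ u : ℕ,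
      3 * g.N t + 1 + 24 * b = 4 ^ g.r * u ^ 2)).card : ℝ) ≤
      ∑ b ∈ range (h + 1), ((g.Tup.filter (fun t => ∃ u : ℕ,
        3 * g.N t + 1 + 24 * b = 4 ^ g.r * u ^ 2)).card : ℝ) := by
    have := (Finset.card_le_card hsub).trans Finset.card_biUnion_le
    exact_mod_cast this
  refine h3.trans ?_
  calc ∑ b ∈ range (h + 1), ((g.Tup.filter (fun t => ∃ u : ℕ,
        3 * g.N t + 1 + 24 * b = 4 ^ g.r * u ^ 2)).card : ℝ) ≤
      ∑ _b ∈ range (h + 1), (2 ^ (g.I / 8) * (g.U + 5 * h + 3) : ℝ) :=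
        Finset.sum_le_sum fun b hb => by
          have hb' := Finset.mem_range.mp hb
          convert zero_b h1 g hg h b (by omega)
    _ = _ := by
      rw [Finset.sum_const, Finset.card_range, nsmul_eq_mul]
      push_cast
      ring

end Pool.Agent.NH75.PC
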