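import Pool.Agent.NH75.PC.Low2
import Pool.Agent.H307R2.OP.BTOT

set_option autoImplicit false

/-!
# Lower bound for the number of tuples in a class modulo `3 ^ κ`: conclusion
-/

namespace Pool.Agent.NH75.PC.Low

open Finset Pool.Agent.H307R2.OP

theorem num_core (T K S W W' Df Y X m : ℝ) (B : ℕ) (hK : 0 < K) (hX : 0 ≤ X) (hm : 0 < m)
    (_hS : 0 < S) (hW : 0 ≤ W)
    (h1 : 1 / 40 * (S / 4) ^ B * X * (W' / m) ≤ T * K ^ B * Y)
    (h2 : W' * S ^ B = W * Df) (h3 : (K / 2) ^ B ≤ Df) (hY : 0 < Y) :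
    1 / (40 * 8 ^ B) * X / Y * (W / m) ≤ T := by
  have e1 : W * (K / 2) ^ B ≤ W' * S ^ B := by
    rw [h2]
    exact mul_le_mul_of_nonneg_left h3 hW
  have e2 : 1 / 40 * (S / 4) ^ B * X * (W' / m) = 1 / 40 * (1 / 4) ^ B * X * ((W' * S ^ B) / m) := by
    rw [div_pow, div_pow]
    ring
  have e3 : 1 / 40 * (1 / 4) ^ B * X * ((W * (K / 2) ^ B) / m) ≤
      1 / 40 * (1 / 4) ^ B * X * ((W' * S ^ B) / m) := by
    apply mul_le_mul_of_nonneg_left _ (by positivity)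
    exact div_le_div_of_nonneg_right e1 hm.le
  have e4 : 1 / 40 * (1 / 4) ^ B * X * ((W * (K / 2) ^ B) / m) =
      (1 / (40 * 8 ^ B) * X / Y * (W / m)) * (K ^ B * Y) := by
    have : (8 : ℝ) ^ B = 4 ^ B * 2 ^ B := by rw [← mul_pow]; norm_num
    rw [this, div_pow, div_pow, one_pow]
    field_simp
  rw [e2] at h1
  have e5 := e3.trans h1
  rw [e4, mul_assoc T] at e5
  exact le_of_mul_le_mul_right e5 (by positivity)

theorem low_core (hbt : BT4) (hpc : PCStmt) (hES : ESStmt) : ∃ B : ℕ, 1 ≤ B ∧ ∃ i0 : ℕ,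
    ∀ (M : ℕ) (g : Cfg M)
    (j0 : Fin M), g.Ok → i0 ≤ g.κ j0 → g.κ j0 ≤ g.I → B ^ 2 + 2 * B ≤ g.k j0 →
    1000 * (g.k j0 + g.R.card) ≤ (PB (g.κ j0) 5).card →
    100 * ((g.κ j0 + 1) * B) ≤ g.I → ∀ κ a : ℕ, 2 ≤ κ → a % 3 ≠ 0 →
    8 * 3 ^ κ ≤ 2 ^ (g.κ j0 / 50) →
    (∀ j, 2 * (g.k j : ℝ) ^ 2 ≤ 2 ^ (g.κ j) * g.S j) → 0 < g.S j0 →
    1 / (40 * 8 ^ B) * (2 ^ g.I / (g.Rp * g.I)) / 3 ^ κ * (g.W / 2 ^ M) ≤
      ((TupA g κ a).card : ℝ) := by
  classical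
  obtain ⟨B0, hB0⟩ := exists_pow_lt_of_lt_one (show (0 : ℝ) < 1 / 240 by norm_num)
    (show (1 - 1 / 500 : ℝ) < 1 by norm_num)
  set B := B0 + 1 with hBdef
  have hB : 1 ≤ B := by omega
  have hρ : 60 * (1 - 1 / 500 : ℝ) ^ (B - 1) ≤ 1 / 4 := by
    have : B - 1 = B0 := by omega
    rw [this]
    linarith
  obtain ⟨i0, h0⟩ := one_family hbt hpc B hB hρ
  refine ⟨B, hB, i0, fun M g j0 hg hi hiI hk hPB hBI κ a hκ ha hκ3 hkk hS => ?_⟩
  have hfam := h0 M g j0 hg hi hiI hk hPB hBI κ a hκ ha hκ3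
  choose! Z hZ1 hZ2 using hfam
  have hRpos : 0 < g.Rp := by
    unfold Cfg.Rp
    exact Finset.prod_pos (fun q hq => (hg.hR q hq).1.pos)
  have hkB : B ≤ g.k j0 := by nlinarith
  have hk0 : 0 < g.k j0 := by omega
  have hsig := card_sigma_le g j0 B hkB κ a hRpos Z hZ1
  have hsigR : ∑ A ∈ (less g j0 B).Fam, ((Z A).card : ℝ) ≤
      ((TupA g κ a).card : ℝ) * (g.k j0 : ℝ) ^ B := by exact_mod_cast hsig
  -- the mass
  have hSn : ∀ j, 0 ≤ g.S j := fun j => by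
    unfold Cfg.S
    exact Finset.sum_nonneg (fun q _ => by positivity)
  have hmass := t1_mass hES (less g j0 B) (by
    intro j
    have e1 : (less g j0 B).κ j = g.κ j := rfl
    have e2 : (less g j0 B).S j = g.S j := rfl
    have e3 : (((less g j0 B).k j : ℕ) : ℝ) ≤ g.k j := by
      have : (less g j0 B).k j ≤ g.k j := by
        unfold less
        simp only
        by_cases hj : j = j0
        · subst hj
          rw [Function.update_self]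
          omega
        · rw [Function.update_of_ne hj]
      exact_mod_cast this
    rw [e1, e2]
    refine le_trans ?_ (hkk j)
    have e4 : (0 : ℝ) ≤ ((less g j0 B).k j : ℕ) := Nat.cast_nonneg _
    have e5 := pow_le_pow_left₀ e4 e3 2
    linarith)
  have hQe : ∀ A, (less g j0 B).Q A = g.Q A := fun A => rfl
  have hWl := W_less g j0 B hkB
  have hde := desc_ge (g.k j0) B (by nlinarith)
  have hIpos : (0 : ℝ) < g.I := by
    have : 0 < g.I := by have := hg.hI; omega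
    exact_mod_cast this
  have hRR : (0 : ℝ) < g.Rp := by exact_mod_cast hRpos
  have hWnn : 0 ≤ g.W := by
    unfold Cfg.W
    exact Finset.prod_nonneg fun j _ => div_nonneg (pow_nonneg (hSn j) _) (Nat.cast_nonneg _)
  refine num_core _ (g.k j0) (g.S j0) g.W (less g j0 B).W ((g.k j0).descFactorial B) (3 ^ κ)
    (2 ^ g.I / (g.Rp * g.I)) (2 ^ M) B (by exact_mod_cast hk0) (by positivity) (by positivity)
    hS hWnn ?_ hWl hde (by positivity)
  calc 1 / 40 * (g.S j0 / 4) ^ B * (2 ^ g.I / (g.Rp * g.I)) * ((less g j0 B).W / 2 ^ M)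
      ≤ 1 / 40 * (g.S j0 / 4) ^ B * (2 ^ g.I / (g.Rp * g.I)) *
        ∑ A ∈ (less g j0 B).Fam, 1 / ((less g j0 B).Q A : ℝ) := by
        apply mul_le_mul_of_nonneg_left hmass (by positivity)
    _ = ∑ A ∈ (less g j0 B).Fam, 1 / 40 * (g.S j0 / 4) ^ B * (2 ^ g.I / (g.Rp * g.I)) *
        (1 / (g.Q A : ℝ)) := by
        rw [Finset.mul_sum]
        rfl
    _ ≤ ∑ A ∈ (less g j0 B).Fam, ((Z A).card : ℝ) * 3 ^ κ := Finset.sum_le_sum hZ2
    _ = (∑ A ∈ (less g j0 B).Fam, ((Z A).card : ℝ)) * 3 ^ κ := by rw [Finset.sum_mul]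
    _ ≤ ((TupA g κ a).card : ℝ) * (g.k j0 : ℝ) ^ B * 3 ^ κ :=
        mul_le_mul_of_nonneg_right hsigR (by positivity)

theorem tupA_two_sub {M : ℕ} (g : Cfg M) (a : ℕ) : TupA g 2 a ⊆ TupA g 1 a := by
  intro t ht
  unfold TupA at ht ⊢
  rw [mem_filter] at ht ⊢
  refine ⟨ht.1, ?_⟩
  have h := ht.2
  norm_num at h ⊢
  omega

theorem tupLowA (hbt : BT4) (hpc : PCStmt) (hES : ESStmt) (hpar : ParStmt) : TupLowA := by
  classical
  obtain ⟨B, hB, i0, hcore⟩ := low_core hbt hpc hES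
  obtain ⟨i1, hblock⟩ := hpc.block
  obtain ⟨i2, hi2⟩ := BT.ev_pow 2 2 (by norm_num) (3000 * 4 * Real.log 2) 0.99 (by norm_num)
  intro M hM
  obtain ⟨y1, hy1⟩ := hpar M (by omega)
  refine ⟨1 / (40 * 8 ^ B) / 3, by positivity,
    y1 + i0 + i1 + i2 + 200 * B + B ^ 2 + 2 * B + 300, ?_⟩
  intro y hy I hI1 hI2 R c hRC κ a hκ hκy ha
  obtain ⟨hOk, -, -, -, -, hSlow, hkap, hkk, -, -⟩ := hy1 y (by omega) I hI1 hI2 R c hRC.card
    hRC.pr hRC.le hRC.cl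
  set g := cfg M y I R c with hg
  set j0 : Fin M := ⟨0, by omega⟩ with hj0
  have hκ0 : g.κ j0 = y ^ (2 * M + 2) := by
    have : g.κ j0 = kap M y 0 := rfl
    rw [this]
    unfold kap
    congr 1
  have hk0 : g.k j0 = y := by
    have : g.k j0 = kk M y R.card 0 := rfl
    rw [this]
    unfold kk
    rw [if_pos (by omega)]
    ring
  have hgI : g.I = I := rfl
  have hgR : g.R = R := rfl
  have hypos : 0 < y := by omega
  have hyle : y ≤ y ^ (2 * M + 2) := Nat.le_self_pow (by omega) y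
  have hSpos : 0 < g.S j0 := by
    have h1 := hSlow j0
    have h2 : (0 : ℝ) < kap M y j0 := by
      have : 0 < kap M y j0 := lt_of_lt_of_le hypos (hkap j0).1
      exact_mod_cast this
    have h3 : 0 < 1 / (8 * (kap M y j0 : ℝ)) := by positivity
    linarith
  have hPBc : 1000 * (g.k j0 + g.R.card) ≤ (PB (g.κ j0) 5).card := by
    have h1 := hblock (g.κ j0) (by rw [hκ0]; omega)
    have h2 := hi2 (g.κ j0) (by rw [hκ0]; omega)
    have h3 : (0 : ℝ) < g.κ j0 := by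
      have : 0 < g.κ j0 := by rw [hκ0]; omega
      exact_mod_cast this
    have hlog : 0 < Real.log 2 := Real.log_pos (by norm_num)
    have h4 : 3000 * (g.κ j0 : ℝ) ≤ 0.99 * (2 : ℝ) ^ (g.κ j0) / (4 * (g.κ j0) * Real.log 2) := by
      rw [le_div_iff₀ (by positivity)]
      calc 3000 * (g.κ j0 : ℝ) * (4 * (g.κ j0) * Real.log 2) =
          3000 * 4 * Real.log 2 * (g.κ j0 : ℝ) ^ 2 := by ring
        _ ≤ _ := h2
    have h5 : (3000 : ℝ) * g.κ j0 ≤ ((PB (g.κ j0) 5).card : ℝ) := h4.trans h1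
    have h6 : 3000 * g.κ j0 ≤ (PB (g.κ j0) 5).card := by exact_mod_cast h5
    have h7 : g.k j0 + g.R.card ≤ 3 * g.κ j0 := by
      rw [hk0, hgR, hκ0]
      have := hRC.card
      omega
    omega
  have hBI : 100 * ((g.κ j0 + 1) * B) ≤ g.I := by
    rw [hκ0, hgI]
    refine le_trans ?_ hI1
    have h1 : y ^ (2 * M + 4) = y ^ (2 * M + 2) * y ^ 2 := by rw [← pow_add]
    rw [h1]
    have h2 : 200 * B ≤ y ^ 2 := by nlinarith
    have h3 : 1 ≤ y ^ (2 * M + 2) := Nat.one_le_pow _ _ hypos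
    calc 100 * ((y ^ (2 * M + 2) + 1) * B) ≤ 100 * ((y ^ (2 * M + 2) + y ^ (2 * M + 2)) * B) := by
          gcongr
      _ = y ^ (2 * M + 2) * (200 * B) := by ring
      _ ≤ y ^ (2 * M + 2) * y ^ 2 := Nat.mul_le_mul_left _ h2
  have h3κ : ∀ κ : ℕ, 1 ≤ κ → κ ≤ y ^ (2 * M - 1) → 8 * 3 ^ κ ≤ 2 ^ (g.κ j0 / 50) := by
    intro κ hκ1 hκ2
    have h1 : 8 * 3 ^ κ ≤ 2 ^ (3 + 2 * κ) := by
      rw [pow_add, pow_mul]
      exact Nat.mul_le_mul_left _ (Nat.pow_le_pow_left (by norm_num) κ)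
    refine h1.trans (Nat.pow_le_pow_right (by norm_num) ?_)
    rw [hκ0, Nat.le_div_iff_mul_le (by norm_num)]
    have h2 : y ^ (2 * M + 2) = y ^ (2 * M - 1) * y ^ 3 := by
      rw [← pow_add]
      congr 1
      omega
    rw [h2]
    have h3 : 1 ≤ y ^ (2 * M - 1) := Nat.one_le_pow _ _ hypos
    have h4 : 250 ≤ y ^ 3 := by
      calc 250 ≤ y := by omega
        _ ≤ y ^ 3 := Nat.le_self_pow (by norm_num) y
    calc (3 + 2 * κ) * 50 ≤ (3 * y ^ (2 * M - 1) + 2 * y ^ (2 * M - 1)) * 50 := by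
          gcongr
          omega
      _ = y ^ (2 * M - 1) * 250 := by ring
      _ ≤ _ := Nat.mul_le_mul_left _ h4
  have hWnn : 0 ≤ g.W := by
    unfold Cfg.W
    refine Finset.prod_nonneg fun j _ => div_nonneg (pow_nonneg ?_ _) (Nat.cast_nonneg _)
    unfold Cfg.S
    exact Finset.sum_nonneg (fun q _ => by positivity)
  have hX : 0 ≤ ((2 : ℝ) ^ g.I / (g.Rp * g.I)) := by positivity
  have hmain : ∀ κ : ℕ, 2 ≤ κ → κ ≤ y ^ (2 * M - 1) →
      1 / (40 * 8 ^ B) * (2 ^ g.I / (g.Rp * g.I)) / 3 ^ κ * (g.W / 2 ^ M) ≤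
      ((TupA g κ a).card : ℝ) := by
    intro κ hκ2 hκy2
    refine hcore M g j0 hOk (by rw [hκ0]; omega) (hkap j0).2 ?_ hPBc hBI κ a hκ2 ha
      (h3κ κ (by omega) hκy2) hkk hSpos
    rw [hk0]
    omega
  change 1 / (40 * 8 ^ B) / 3 * (2 ^ g.I / (g.Rp * g.I)) / 3 ^ κ * (g.W / 2 ^ M) ≤
    ((TupA g κ a).card : ℝ)
  rcases Nat.lt_or_ge κ 2 with h | h
  · have hκ1 : κ = 1 := by omega
    subst hκ1
    have h1 := hmain 2 le_rfl (by
      calc 2 ≤ y := by omega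
        _ ≤ y ^ (2 * M - 1) := Nat.le_self_pow (by omega) y)
    have h2 : ((TupA g 2 a).card : ℝ) ≤ ((TupA g 1 a).card : ℝ) := by
      exact_mod_cast card_le_card (tupA_two_sub g a)
    refine le_trans (le_of_eq ?_) (h1.trans h2)
    ring
  · refine le_trans ?_ (hmain κ h hκy)
    have h1 : 0 ≤ 1 / (40 * 8 ^ B) * ((2 : ℝ) ^ g.I / (g.Rp * g.I)) / 3 ^ κ * (g.W / 2 ^ M) := by
      positivity
    have h2 : 1 / (40 * 8 ^ B) / 3 * ((2 : ℝ) ^ g.I / (g.Rp * g.I)) / 3 ^ κ * (g.W / 2 ^ M) =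
      1 / 3 * (1 / (40 * 8 ^ B) * ((2 : ℝ) ^ g.I / (g.Rp * g.I)) / 3 ^ κ * (g.W / 2 ^ M)) := by
      ring
    rw [h2]
    linarith

end Pool.Agent.NH75.PC.Low
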