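import Pool.Agent.NH75.PC.Stm
import Pool.Agent.H307R2.OP.MAIN

set_option autoImplicit false

/-!
# Parity changes of the partition function: the main theorem in terms of the parameter `y`

(job PC-M, helper68; adapted from `Pool.Agent.H307R2.OP.MAIN`)
-/

namespace Pool.Agent.NH75.PC

open Finset Pool.Agent.H307R2.OP

namespace MainAux

open Pool.Agent.H307R2.OP.MAINaux (kernel exists_m log_small poly_exp stepB)

/-- the class modulo `3 ^ κ` -/
theorem cls {κ h N : ℕ} (hκ : 1 ≤ κ)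
    (hN : N % 3 ^ κ = (3 ^ (κ - 1) + 8 * h * (3 ^ κ - 1)) % 3 ^ κ) :
    (N + 8 * h) % 3 ^ κ = 3 ^ (κ - 1) := by
  have h1 : (N + 8 * h) % 3 ^ κ = (3 ^ (κ - 1) + 8 * h * (3 ^ κ - 1) + 8 * h) % 3 ^ κ := by
    rw [Nat.add_mod, hN, ← Nat.add_mod]
  have h2 : 3 ^ (κ - 1) + 8 * h * (3 ^ κ - 1) + 8 * h = 3 ^ (κ - 1) + 3 ^ κ * (8 * h) := by
    have h3 : 1 ≤ 3 ^ κ := Nat.one_le_pow _ _ (by norm_num)
    zify [h3]
    ring
  rw [h1, h2, Nat.add_mul_mod_self_left]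
  exact Nat.mod_eq_of_lt (Nat.pow_lt_pow_right (by norm_num) (by omega))

theorem cls3 {κ h : ℕ} (hκ : 2 ≤ κ) (hh : ¬ 3 ∣ h) :
    (3 ^ (κ - 1) + 8 * h * (3 ^ κ - 1)) % 3 ≠ 0 := by
  obtain ⟨j, rfl⟩ : ∃ j, κ = j + 2 := ⟨κ - 2, by omega⟩
  intro h1
  apply hh
  have h2 : 3 ∣ 3 ^ (j + 2 - 1) + 8 * h * (3 ^ (j + 2) - 1) := Nat.dvd_of_mod_eq_zero h1
  have h3 : 3 ∣ 3 ^ (j + 2 - 1) := by
    rw [show j + 2 - 1 = j + 1 by omega, pow_succ]
    exact dvd_mul_left _ _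
  have h4 : 3 ∣ 8 * h * (3 ^ (j + 2) - 1) := (Nat.dvd_add_right h3).1 h2
  have h5 : 1 ≤ 3 ^ (j + 2) := Nat.one_le_pow _ _ (by norm_num)
  have h6 : Nat.Coprime 3 (3 ^ (j + 2) - 1) := by
    rw [Nat.Prime.coprime_iff_not_dvd Nat.prime_three]
    intro h7
    have h8 : 3 ∣ 3 ^ (j + 2) := dvd_pow_self 3 (by omega)
    have h9 := Nat.dvd_sub h8 h7
    have h10 : 3 ^ (j + 2) - (3 ^ (j + 2) - 1) = 1 := by omega
    rw [h10] at h9
    omega
  have h7 : 3 ∣ 8 * h := h6.dvd_of_dvd_mul_right h4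
  exact (show Nat.Coprime 3 8 by norm_num).dvd_of_dvd_mul_left h7

open Classical in
/-- the counting step -/
theorem stepA (a1 : OCStmt) (a2 : AlgA) (h1 : TupStmt) {M : ℕ} (g : Cfg M) (hok : g.Ok) (y h a : ℕ)
    (ha : a = 3 ^ (2 ^ (g.r - 1) - 1) + 8 * h * (3 ^ (2 ^ (g.r - 1)) - 1))
    (hcard : ∑ j, g.k j + g.R.card + 1 = 2 ^ (g.r - 1) - 1)
    (hpar : (g.R.filter (fun q => q % 8 = 3)).card + (if g.c = 3 then 1 else 0) = 0 ∨
      (g.R.filter (fun q => q % 8 = 3)).card + (if g.c = 3 then 1 else 0) = 2)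
    (Bd : ℝ) (hBd : 0 ≤ Bd)
    (hB : ∀ δ s : ℕ, Adm δ → ¬ Bad g.I y δ → 1 ≤ s → δ * s ^ 2 ≤ 3 * 2 ^ g.I →
      (((TupA g (2 ^ (g.r - 1)) a ×ˢ range (2 ^ g.I + 1)).filter
        (fun x => 3 * g.N x.1 = δ * s ^ 2 + 4 ^ g.r * x.2 ^ 2)).card : ℝ) ≤ Bd)
    (T : ℝ) (hT : T ≤ ((TupA g (2 ^ (g.r - 1)) a).card : ℝ))
    (hlost : (((TupA g (2 ^ (g.r - 1)) a).filter (fun t => (∃ δ : ℕ, Adm δ ∧ Bad g.I y δ ∧
      Rep g.r δ (g.N t)) ∨ ∃ b ≤ h, ∃ u : ℕ, 3 * g.N t + 1 + 24 * b = 4 ^ g.r * u ^ 2)).card : ℝ) ≤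
        T / 2) :
    T / 2 ≤ (chg h (2 ^ g.I) : ℝ) * Bd := by
  set TA := TupA g (2 ^ (g.r - 1)) a with hTA
  set P : (Σ _ : Fin M → Finset ℕ, ℕ) → Prop := fun t => (∃ δ : ℕ, Adm δ ∧ Bad g.I y δ ∧
      Rep g.r δ (g.N t)) ∨ ∃ b ≤ h, ∃ u : ℕ, 3 * g.N t + 1 + 24 * b = 4 ^ g.r * u ^ 2 with hP
  set Good := TA.filter (fun t => ¬ P t) with hGood
  have key : ∀ t ∈ Good, ∃ n u : ℕ,
      Odd (Fintype.card (Nat.Partition n) + Fintype.card (Nat.Partition (n + h))) ∧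
      24 * n + 4 ^ g.r * u ^ 2 = 3 * g.N t + 1 ∧ g.N t ≤ 2 ^ g.I := by
    intro t ht
    obtain ⟨ht1, htP⟩ := Finset.mem_filter.1 ht
    obtain ⟨ht2, ht3⟩ := Finset.mem_filter.1 ht1
    obtain ⟨s, hs1, hs2, hs3, hs4, -, -, -, hs8⟩ := h1 M g hok t ht2
    obtain ⟨m, hm⟩ := exists_m g.r
    have hco : PowerSeries.coeff (∏ q ∈ s, q) (Pool.Agent.H397R2.PP.Db ^ m) = 1 := by
      refine a1 g.r m hok.hr hm s (fun q hq => ⟨(hs1 q hq).1, (hs1 q hq).2.2⟩) ?_ ?_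
      · rw [hs3, hcard]
      · rw [hs4]; exact hpar
    rw [hs2] at hco
    rw [ha] at ht3
    rcases a2 g.r m (g.N t) h hok.hr hm hco (cls Nat.one_le_two_pow ht3) with
      ⟨n, u, hn, hu⟩ | hl
    · exact ⟨n, u, hn, hu, hs8⟩
    · exact absurd (Or.inr hl) htP
  choose! n u hodd heq hN using key
  have h4r : 64 ≤ 4 ^ g.r := by
    calc 64 = 4 ^ 3 := by norm_num
      _ ≤ 4 ^ g.r := Nat.pow_le_pow_right (by norm_num) hok.hr
  have hu : ∀ t ∈ Good, u t ≤ 2 ^ g.I := by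
    intro t ht
    have e1 := heq t ht
    have e2 := hN t ht
    have e3 : 64 * (u t) ^ 2 ≤ 4 ^ g.r * (u t) ^ 2 := Nat.mul_le_mul_right _ h4r
    have e4 : u t ≤ (u t) ^ 2 := Nat.le_self_pow (by norm_num) _
    have e5 : 1 ≤ 2 ^ g.I := Nat.one_le_two_pow
    omega
  have hn : ∀ t ∈ Good, n t ≤ 2 ^ g.I := by
    intro t ht
    have e1 := heq t ht
    have e2 := hN t ht
    have e5 : 1 ≤ 2 ^ g.I := Nat.one_le_two_pow
    have e6 : 0 ≤ 4 ^ g.r * (u t) ^ 2 := Nat.zero_le _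
    omega
  have hsum : (TA.filter P).card + Good.card = TA.card :=
    Finset.card_filter_add_card_filter_not P
  have hgood : T / 2 ≤ (Good.card : ℝ) := by
    have : ((TA.filter P).card : ℝ) + (Good.card : ℝ) = (TA.card : ℝ) := by
      exact_mod_cast hsum
    linarith
  refine hgood.trans ?_
  rw [Finset.card_eq_sum_card_image n Good]
  push_cast
  have himg : Good.image n ⊆
      (range (2 ^ g.I + 1)).filter (fun n =>
        Odd (Fintype.card (Nat.Partition n) + Fintype.card (Nat.Partition (n + h)))) := by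
    intro b hb
    obtain ⟨t, ht, rfl⟩ := Finset.mem_image.1 hb
    rw [Finset.mem_filter, Finset.mem_range]
    exact ⟨Nat.lt_succ_of_le (hn t ht), hodd t ht⟩
  have hcardimg : ((Good.image n).card : ℝ) ≤ (chg h (2 ^ g.I) : ℝ) := by
    have := Finset.card_le_card himg
    unfold chg
    exact_mod_cast this
  have hfib : ∀ b ∈ Good.image n, ((Good.filter (fun t => n t = b)).card : ℝ) ≤ Bd := by
    intro b hb
    obtain ⟨t, ht, htb⟩ := Finset.mem_image.1 hb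
    obtain ⟨ht', hnp⟩ := Finset.mem_filter.1 ht
    simp only [hP, not_or, not_exists, not_and] at hnp
    obtain ⟨hnp1, hnp2⟩ := hnp
    have hb1 : 1 ≤ b := by
      rcases Nat.eq_zero_or_pos b with h | h
      · exfalso
        have e1 := heq t ht
        rw [htb, h] at e1
        exact hnp2 0 (Nat.zero_le _) (u t) (by omega)
      · exact h
    obtain ⟨δ, s, hδs, hadm, hs⟩ := kernel b hb1
    have e1 := heq t ht
    have e2 := hN t ht
    rw [htb] at e1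
    have hrep : 3 * g.N t = δ * s ^ 2 + 4 ^ g.r * (u t) ^ 2 := by
      rw [hδs]; omega
    have hnb : ¬ Bad g.I y δ := fun hbad => hnp1 δ hadm hbad ⟨s, u t, hrep⟩
    have hle : δ * s ^ 2 ≤ 3 * 2 ^ g.I := by
      have e6 : 0 ≤ 4 ^ g.r * (u t) ^ 2 := Nat.zero_le _
      omega
    refine le_trans ?_ (hB δ s hadm hnb hs hle)
    have : (Good.filter (fun t => n t = b)).card ≤
        ((TA ×ˢ range (2 ^ g.I + 1)).filter
          (fun x => 3 * g.N x.1 = δ * s ^ 2 + 4 ^ g.r * x.2 ^ 2)).card := by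
      refine Finset.card_le_card_of_injOn (fun t => (t, u t)) ?_ ?_
      · intro t' ht2
        simp only [Finset.coe_filter, Set.mem_ofPred_eq] at ht2
        obtain ⟨ht3, ht4⟩ := ht2
        have ht5 := (Finset.mem_filter.1 ht3).1
        have e7 := heq t' ht3
        rw [ht4] at e7
        simp only [Finset.coe_filter, Set.mem_ofPred_eq, Finset.mem_product, Finset.mem_range]
        refine ⟨⟨ht5, Nat.lt_succ_of_le (hu t' ht3)⟩, ?_⟩
        rw [hδs]; omega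
      · intro a _ b _ hab
        exact (Prod.mk.inj hab).1
    exact_mod_cast this
  calc ∑ b ∈ Good.image n, ((Good.filter (fun t => n t = b)).card : ℝ)
      ≤ ∑ b ∈ Good.image n, Bd := Finset.sum_le_sum hfib
    _ = ((Good.image n).card : ℝ) * Bd := by rw [Finset.sum_const, nsmul_eq_mul]
    _ ≤ (chg h (2 ^ g.I) : ℝ) * Bd := mul_le_mul_of_nonneg_right hcardimg hBd

end MainAux

open MainAux Pool.Agent.H307R2.OP.MAINaux in
/-- part M -/
theorem mainYA (a1 : OCStmt) (a2 : AlgA) (h1 : TupStmt) (h2 : TupLowA) (h3 : GoodCountA)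
    (h4 : ParStmt) (h5 : RChoice) (h6 : BadTotalA) : MainYA := by
  intro h hh M hM
  obtain ⟨c0, hc0, y2, h2'⟩ := h2 M hM
  obtain ⟨C, hC, I2, h3'⟩ := h3
  obtain ⟨y4, h4'⟩ := h4 M (by omega)
  obtain ⟨y5, h5'⟩ := h5 M (by omega)
  obtain ⟨y6, h6'⟩ := h6 M (by omega) (c0 / 2) (by positivity) h
  obtain ⟨y7, h7'⟩ := poly_exp M
  have hs3 : (0:ℝ) < Real.sqrt 3 := Real.sqrt_pos.2 (by norm_num)
  obtain ⟨y8, h8'⟩ := log_small M (c0 / (8 * 2 ^ M * C * Real.exp M * Real.sqrt 3))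
    (by positivity)
  refine ⟨y4 + y5 + y6 + y7 + y8 + y2 + I2 + 20, fun y hy I hI1 hI2 => ?_⟩
  have hy20 : 20 ≤ y := by omega
  have hyI : y ≤ y ^ (2 * M + 4) := Nat.le_self_pow (by omega) _
  obtain ⟨R, c, hRC⟩ := h5' y (by omega) I hI1 hI2
  obtain ⟨hok, hcard, hr1, hr2, hk, hS, hκ, h2k, hprod, hW⟩ :=
    h4' y (by omega) I hI1 hI2 R c hRC.card hRC.pr hRC.le hRC.cl
  have hWpos : 0 < (cfg M y I R c).W := lt_of_lt_of_le (by positivity) hW
  have hIpow : I ≤ 2 ^ y := hI2.trans (h7' y (by omega))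
  have hL : Nat.log 2 I ≤ y := by
    have := Nat.log_mono_right (b := 2) hIpow
    rwa [Nat.log_pow (by norm_num)] at this
  have hIbig : 4000 * y * (Nat.log 2 I + 1) ≤ I := by
    have e1 : 4000 * y * (Nat.log 2 I + 1) ≤ 4000 * y * (2 * y) :=
      Nat.mul_le_mul_left _ (by omega)
    have e2 : y ^ 6 ≤ y ^ (2 * M + 4) := Nat.pow_le_pow_right (by omega) (by omega)
    have e3 : 20 ^ 4 ≤ y ^ 4 := Nat.pow_le_pow_left hy20 4
    have e4 : 8000 * y ^ 2 ≤ y ^ 6 := by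
      calc 8000 * y ^ 2 ≤ y ^ 4 * y ^ 2 := Nat.mul_le_mul_right _ (by omega)
        _ = y ^ 6 := by ring
    calc 4000 * y * (Nat.log 2 I + 1) ≤ 4000 * y * (2 * y) := e1
      _ = 8000 * y ^ 2 := by ring
      _ ≤ I := by omega
  have hksum : ∑ j, (cfg M y I R c).k j + (cfg M y I R c).R.card ≤ I := by
    have e1 : y ^ (2 * M - 1) ≤ y ^ (2 * M + 4) := Nat.pow_le_pow_right (by omega) (by omega)
    have e2 : (cfg M y I R c).R.card = R.card := rfl
    rw [e2]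
    omega
  -- the class
  set κ : ℕ := 2 ^ (rr M y - 1) with hκd
  set a : ℕ := 3 ^ (κ - 1) + 8 * h * (3 ^ κ - 1) with ha
  have hr3 : 3 ≤ rr M y := hok.hr
  have hκ2 : 2 ≤ κ := by
    calc 2 = 2 ^ 1 := by norm_num
      _ ≤ 2 ^ (rr M y - 1) := Nat.pow_le_pow_right (by norm_num) (by omega)
  have ha3 : a % 3 ≠ 0 := cls3 hκ2 hh
  have hκI : 3 ^ (κ + 1) ≤ 2 ^ (I / 100) := by
    have e1 : 3 ^ (κ + 1) ≤ 4 ^ (κ + 1) := Nat.pow_le_pow_left (by norm_num) _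
    have e2 : (4 : ℕ) ^ (κ + 1) = 2 ^ (2 * (κ + 1)) := by rw [pow_mul]; norm_num
    rw [e2] at e1
    refine e1.trans (Nat.pow_le_pow_right (by norm_num) ?_)
    rw [Nat.le_div_iff_mul_le (by norm_num)]
    have e3 : y ^ (2 * M + 4) = y ^ (2 * M - 1) * y ^ 5 := by
      rw [← pow_add]
      congr 1
      omega
    have e4 : 20 ^ 5 ≤ y ^ 5 := Nat.pow_le_pow_left hy20 5
    have e5 : y ^ (2 * M - 1) * 20 ^ 5 ≤ y ^ (2 * M - 1) * y ^ 5 := Nat.mul_le_mul_left _ e4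
    have e6 : 1 ≤ y ^ (2 * M - 1) := Nat.one_le_pow _ _ (by omega)
    have e7 : (20 : ℕ) ^ 5 = 3200000 := by norm_num
    rw [e7] at e5
    omega
  have hTlow := h2' y (by omega) I hI1 hI2 R c hRC κ a (by omega) hr1 ha3
  have hlost := h6' y (by omega) I hI1 hI2 R c hRC κ a (by omega) hr1 ha3
  have h3pos : (0 : ℝ) < 3 ^ κ := by positivity
  have hA := stepA a1 a2 h1 (cfg M y I R c) hok y h a ha hcard hRC.par
    (C * 2 ^ (cfg M y I R c).R.card * ((cfg M y I R c).U / ((cfg M y I R c).Rp * 3 ^ κ)) *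
      (∏ j, (((cfg M y I R c).S j + 1 / (I : ℝ) ^ 2 +
        (cfg M y I R c).R.card / 2 ^ ((cfg M y I R c).κ j)) ^ (cfg M y I R c).k j /
        (((cfg M y I R c).k j).factorial : ℝ))) * (y * (Nat.log 2 I + 1) / I))
    (by
      have hSnn : ∀ j, 0 ≤ (cfg M y I R c).S j := fun j => by
        unfold Cfg.S
        exact Finset.sum_nonneg (fun q _ => by positivity)
      have hU : 0 ≤ (cfg M y I R c).U := by unfold Cfg.U; positivity
      have hp : 0 ≤ (∏ j, (((cfg M y I R c).S j + 1 / (I : ℝ) ^ 2 +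
        (cfg M y I R c).R.card / 2 ^ ((cfg M y I R c).κ j)) ^ (cfg M y I R c).k j /
        (((cfg M y I R c).k j).factorial : ℝ))) := by
        refine Finset.prod_nonneg (fun j _ => ?_)
        have := hSnn j
        positivity
      positivity)
    (fun δ s h1 h2 h3 h4 => h3' M (cfg M y I R c) hok (show I2 ≤ I by omega) y (by omega)
      hIpow hIbig hκ hksum κ a (by omega) ha3 hκI δ s h1 h2 h3 h4)
    _ hTlow
    (hlost.trans (le_of_eq (by ring)))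
  have hyR : (0:ℝ) < y := by exact_mod_cast (by omega : 0 < y)
  have hIR : (0:ℝ) < I := by
    have : 0 < I := by
      have : 0 < y ^ (2 * M + 4) := by positivity
      omega
    exact_mod_cast this
  have hRp : (0:ℝ) < ((cfg M y I R c).Rp : ℝ) := by
    have : 0 < (cfg M y I R c).Rp := Finset.prod_pos (fun q hq => (hRC.pr q hq).1.pos)
    exact_mod_cast this
  have hB := stepB c0 C I ((cfg M y I R c).Rp * 3 ^ κ) ((cfg M y I R c).U) (Real.exp M)
    ((cfg M y I R c).W) y (Nat.log 2 I + 1) (2 ^ (cfg M y I R c).R.card)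
    (c0 * (2 ^ I / ((cfg M y I R c).Rp * I)) / 3 ^ κ * ((cfg M y I R c).W / 2 ^ M))
    (chg h (2 ^ I))
    (∏ j, (((cfg M y I R c).S j + 1 / (I : ℝ) ^ 2 +
        (cfg M y I R c).R.card / 2 ^ ((cfg M y I R c).κ j)) ^ (cfg M y I R c).k j /
        (((cfg M y I R c).k j).factorial : ℝ))) (2 ^ M) (Real.sqrt 3) (Real.sqrt (2 ^ I))
    (2 ^ (rr M y)) hc0 hC hIR (by positivity) (Real.exp_pos _) hWpos hyR (by positivity)
    (by
      have : R.card ≤ 2 := hRC.card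
      calc (2:ℝ) ^ (cfg M y I R c).R.card ≤ 2 ^ 2 :=
            pow_le_pow_right₀ (by norm_num) this
        _ = 4 := by norm_num)
    (by positivity) (by positivity) hprod (by positivity) (by positivity) hs3 (by positivity)
    (by
      unfold Cfg.U
      rw [Real.sqrt_mul (by norm_num)]
      rfl)
    (by
      rw [Real.sq_sqrt (by positivity)]
      refine le_of_eq ?_
      field_simp)
    hA
  refine le_trans ?_ hB
  have h8 := h8' y (by omega) I hI2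
  push_cast at h8
  have hr2' : (y:ℝ) ^ (2 * M - 1) ≤ 2 ^ (rr M y) := by exact_mod_cast hr2.le
  have hzp : (y : ℝ) ^ (2 * M - 3 : ℤ) = (y:ℝ) ^ (2 * M - 1) / (y:ℝ) ^ 2 := by
    have e1 : (2 * M - 3 : ℤ) = ((2 * M - 1 : ℕ) : ℤ) - ((2 : ℕ) : ℤ) := by
      have : 1 ≤ 2 * M := by omega
      push_cast [this]
      ring
    rw [e1, zpow_sub₀ hyR.ne', zpow_natCast, zpow_natCast]
  rw [hzp]
  have hsI : 0 < Real.sqrt (2 ^ I) := Real.sqrt_pos.2 (by positivity)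
  have hLpos : (0:ℝ) < (Nat.log 2 I : ℝ) + 1 := by positivity
  have hexp : 0 < Real.exp M := Real.exp_pos _
  rw [div_mul_eq_mul_div, le_div_iff₀ (by positivity)] at h8
  rw [← mul_div_assoc, div_le_div_iff₀ (by positivity) (by positivity)]
  calc Real.sqrt (2 ^ I) * (y:ℝ) ^ (2 * M - 1) *
        (8 * 2 ^ M * C * Real.exp M * Real.sqrt 3 * y * ((Nat.log 2 I : ℝ) + 1))
      = Real.sqrt (2 ^ I) * (y:ℝ) ^ (2 * M - 1) * y *
        (((Nat.log 2 I : ℝ) + 1) * (8 * 2 ^ M * C * Real.exp M * Real.sqrt 3)) := by ring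
    _ ≤ Real.sqrt (2 ^ I) * 2 ^ (rr M y) * y * (c0 * y) := by
        apply mul_le_mul _ h8 (by positivity) (by positivity)
        apply mul_le_mul_of_nonneg_right _ hyR.le
        exact mul_le_mul_of_nonneg_left hr2' hsI.le
    _ = c0 * Real.sqrt (2 ^ I) * 2 ^ (rr M y) * (y:ℝ) ^ 2 := by ring

end Pool.Agent.NH75.PC
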