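import Pool.Agent.NH75.PC.Stm
import Pool.Agent.R836.PP.Trans

set_option autoImplicit false

/-!
# Parity changes of the partition function: linear patterns
-/

namespace Pool.Agent.NH75.PC

open Finset Polynomial

/-- the shift -/
noncomputable def shift : Module.End (ZMod 2) (ℕ → ZMod 2) where
  toFun a n := a (n + 1)
  map_add' _ _ := rfl
  map_smul' _ _ := rfl

theorem shift_pow (i : ℕ) (a : ℕ → ZMod 2) (n : ℕ) : (shift ^ i) a n = a (n + i) := by
  induction i generalizing n with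
  | zero => simp
  | succ i ih =>
    rw [pow_succ', Module.End.mul_apply]
    change (shift ^ i) a (n + 1) = _
    rw [ih]
    congr 1
    ring

theorem aeval_shift (A : (ZMod 2)[X]) (a : ℕ → ZMod 2) (n : ℕ) :
    (aeval shift A) a n = ∑ i ∈ range (A.natDegree + 1), A.coeff i * a (n + i) := by
  rw [aeval_eq_sum_range, LinearMap.sum_apply, Finset.sum_apply]
  refine Finset.sum_congr rfl fun i _ => ?_
  rw [LinearMap.smul_apply, Pi.smul_apply, shift_pow, smul_eq_mul]

/-- the polynomial of a pattern -/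
noncomputable def poly {L : ℕ} (c : Fin (L + 1) → ZMod 2) : (ZMod 2)[X] :=
  ∑ i : Fin (L + 1), C (c i) * X ^ (i : ℕ)

theorem aeval_poly {L : ℕ} (c : Fin (L + 1) → ZMod 2) (a : ℕ → ZMod 2) (n : ℕ) :
    (aeval shift (poly c)) a n = ∑ i : Fin (L + 1), c i * a (n + i) := by
  unfold poly
  rw [map_sum, LinearMap.sum_apply, Finset.sum_apply]
  refine Finset.sum_congr rfl fun i _ => ?_
  rw [map_mul, aeval_C, map_pow, aeval_X, Module.End.mul_apply]
  rw [Module.algebraMap_end_apply, Pi.smul_apply, shift_pow, smul_eq_mul]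

theorem aeval_one_X (h : ℕ) (a : ℕ → ZMod 2) (n : ℕ) :
    (aeval shift (1 + X ^ h : (ZMod 2)[X])) a n = a n + a (n + h) := by
  rw [map_add, map_one, map_pow, aeval_X, LinearMap.add_apply, Pi.add_apply, shift_pow]
  rfl

/-- the number of nonzero values -/
def nz (a : ℕ → ZMod 2) (x : ℕ) : ℕ := ((range (x + 1)).filter (fun n => a n ≠ 0)).card

theorem nz_add (a : ℕ → ZMod 2) (x d : ℕ) : nz a (x + d) ≤ nz a x + d := by
  unfold nz
  have h : (range (x + d + 1)).filter (fun n => a n ≠ 0) ⊆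
      (range (x + 1)).filter (fun n => a n ≠ 0) ∪ (Finset.Ico (x + 1) (x + 1 + d)) := by
    intro n hn
    rw [mem_filter, mem_range] at hn
    rw [mem_union, mem_filter, mem_range, Finset.mem_Ico]
    by_cases h : n < x + 1
    · exact Or.inl ⟨h, hn.2⟩
    · exact Or.inr ⟨by omega, by omega⟩
  refine (card_le_card h).trans ((card_union_le _ _).trans ?_)
  rw [Nat.card_Ico]
  omega

theorem nz_aeval (A : (ZMod 2)[X]) (a : ℕ → ZMod 2) (x : ℕ) :
    nz (aeval shift A a) x ≤ (A.natDegree + 1) * (nz a x + A.natDegree) := by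
  classical
  set d := A.natDegree with hd
  have h1 : (range (x + 1)).filter (fun n => aeval shift A a n ≠ 0) ⊆
      (range (d + 1)).biUnion (fun i => (range (x + 1)).filter (fun n => a (n + i) ≠ 0)) := by
    intro n hn
    rw [mem_filter, aeval_shift] at hn
    obtain ⟨i, hi, hne⟩ := Finset.exists_ne_zero_of_sum_ne_zero hn.2
    rw [mem_biUnion]
    exact ⟨i, hi, by rw [mem_filter]; exact ⟨hn.1, right_ne_zero_of_mul hne⟩⟩
  have h2 : ∀ i ∈ range (d + 1), ((range (x + 1)).filter (fun n => a (n + i) ≠ 0)).card ≤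
      nz a x + d := by
    intro i hi
    rw [mem_range] at hi
    refine le_trans ?_ (nz_add a x d)
    unfold nz
    refine Finset.card_le_card_of_injOn (fun n => n + i) ?_ ?_
    · intro n hn
      rw [mem_coe, mem_filter, mem_range] at hn ⊢
      have := hn.1
      exact ⟨by simp only; omega, hn.2⟩
    · intro n _ m _ h
      simpa using h
  have h4 : nz (aeval shift A a) x ≤ (d + 1) * (nz a x + d) := by
    refine (card_le_card h1).trans (card_biUnion_le.trans ?_)
    refine (Finset.sum_le_sum h2).trans (le_of_eq ?_)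
    rw [Finset.sum_const, card_range, smul_eq_mul]
  exact h4

theorem nz_shift (a : ℕ → ZMod 2) (x s : ℕ) : nz a x ≤ nz (aeval shift (X ^ s : (ZMod 2)[X]) a) x + s := by
  have h : nz a x ≤ ((range (x + 1)).filter (fun n => a (n + s) ≠ 0)).card + s := by
    unfold nz
    have h1 : (range (x + 1)).filter (fun n => a n ≠ 0) ⊆
        (((range (x + 1)).filter (fun n => a (n + s) ≠ 0)).image (fun n => n + s)) ∪ range s := by
      intro n hn
      rw [mem_filter, mem_range] at hn
      rw [mem_union, mem_image, mem_range]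
      by_cases h : n < s
      · exact Or.inr h
      · left
        refine ⟨n - s, ?_, by omega⟩
        rw [mem_filter, mem_range, Nat.sub_add_cancel (by omega)]
        exact ⟨by omega, hn.2⟩
    refine (card_le_card h1).trans ((card_union_le _ _).trans ?_)
    rw [card_range]
    exact Nat.add_le_add_right card_image_le _
  refine h.trans (le_of_eq ?_)
  unfold nz
  congr 3
  funext n
  rw [map_pow, aeval_X, shift_pow]

/-- the parities of the partition numbers -/
def pp (n : ℕ) : ZMod 2 := (Fintype.card (Nat.Partition n) : ZMod 2)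

theorem chg_eq (h x : ℕ) : chg h x = nz (aeval shift (1 + X ^ h : (ZMod 2)[X]) pp) x := by
  unfold chg nz
  congr 1
  apply Finset.filter_congr
  intro n _
  rw [aeval_one_X]
  unfold pp
  rw [← Nat.cast_add, ZMod.natCast_ne_zero_iff_odd]

theorem dvd_aux (h k : ℕ) : ∃ D : (ZMod 2)[X],
    ((1 + X ^ h) * (1 + X ^ k)) * D = 1 + X ^ (2 * (h * k)) := by
  have h2 : (2 : (ZMod 2)[X]) = 0 := by
    have : ((2 : ℕ) : (ZMod 2)[X]) = 0 := CharP.cast_eq_zero _ 2
    exact_mod_cast this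
  have key : ∀ a b : ℕ, (1 + X ^ a : (ZMod 2)[X]) ∣ 1 + X ^ (a * b) := by
    intro a b
    have e1 : (X ^ a - 1 : (ZMod 2)[X]) ∣ (X ^ a) ^ b - 1 ^ b := sub_dvd_pow_sub_pow _ _ b
    have e2 : ∀ z : (ZMod 2)[X], z - 1 = 1 + z := by
      intro z
      linear_combination -h2
    rw [one_pow, ← pow_mul, e2, e2] at e1
    exact e1
  obtain ⟨D1, hD1⟩ := key h k
  obtain ⟨D2, hD2⟩ := key k h
  refine ⟨D1 * D2, ?_⟩
  have e3 : (1 + X ^ (2 * (h * k)) : (ZMod 2)[X]) = (1 + X ^ (h * k)) * (1 + X ^ (k * h)) := by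
    rw [mul_comm k h]
    have : (X ^ (2 * (h * k)) : (ZMod 2)[X]) = X ^ (h * k) * X ^ (h * k) := by
      rw [← pow_add]
      congr 1
      ring
    rw [this]
    linear_combination -(X ^ (h * k) : (ZMod 2)[X]) * h2
  rw [e3, hD1, hD2]
  ring

theorem nz_count (L : ℕ) (c : Fin (L + 1) → ZMod 2) (s h k : ℕ)
    (hc : poly c ∣ X ^ s * (1 + X ^ h)) : ∃ A B : ℕ, 1 ≤ A ∧ ∀ x : ℕ,
    chg (2 * (h * k)) x ≤ A * (nz (fun n => aeval shift (poly c) pp n +
      aeval shift (poly c) pp (n + k)) x) + B := by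
  obtain ⟨D, hD⟩ := hc
  obtain ⟨D2, hD2⟩ := dvd_aux h k
  have e1 : (1 + X ^ k) * poly c * (D * D2) = X ^ s * (1 + X ^ (2 * (h * k))) := by
    rw [← hD2]
    linear_combination -(1 + X ^ k) * D2 * hD
  set d := (D * D2).natDegree with hd
  refine ⟨d + 1, (d + 1) * d + s, by omega, fun x => ?_⟩
  rw [chg_eq]
  refine (nz_shift _ x s).trans ?_
  rw [← Module.End.mul_apply, ← map_mul, ← e1, mul_comm ((1 + X ^ k) * poly c), map_mul,
    Module.End.mul_apply]
  have e2 : (aeval shift ((1 + X ^ k) * poly c)) pp = fun n => aeval shift (poly c) pp n +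
      aeval shift (poly c) pp (n + k) := by
    funext n
    rw [map_mul, Module.End.mul_apply, aeval_one_X]
  rw [e2]
  have e3 := nz_aeval (D * D2) (fun n => aeval shift (poly c) pp n +
      aeval shift (poly c) pp (n + k)) x
  rw [← hd] at e3
  calc _ ≤ (d + 1) * (nz (fun n => aeval shift (poly c) pp n +
      aeval shift (poly c) pp (n + k)) x + d) + s := Nat.add_le_add_right e3 s
    _ = _ := by ring

theorem nz_le_updown (a : ℕ → ZMod 2) (k x : ℕ) : nz (fun n => a n + a (n + k)) x ≤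
    ((range (x + 1)).filter (fun n => a n = 0 ∧ a (n + k) = 1)).card +
    ((range (x + 1)).filter (fun n => a n = 1 ∧ a (n + k) = 0)).card := by
  unfold nz
  refine le_trans (card_le_card ?_) (card_union_le _ _)
  intro n hn
  rw [mem_filter] at hn
  rw [mem_union, mem_filter, mem_filter]
  obtain ⟨h4, h5⟩ := hn
  simp only at h5
  rcases Pool.Agent.R836.PP.zmod_two (a n) with h6 | h6 <;>
    rcases Pool.Agent.R836.PP.zmod_two (a (n + k)) with h7 | h7
  · rw [h6, h7] at h5
    exact absurd rfl h5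
  · exact Or.inl ⟨h4, h6, h7⟩
  · exact Or.inr ⟨h4, h6, h7⟩
  · rw [h6, h7] at h5
    exact absurd (by decide) h5

theorem ev_log_rpow (K δ : ℝ) (hδ : 0 < δ) : ∃ x0 : ℝ, ∀ x : ℝ, x0 ≤ x →
    1 ≤ x ∧ 1 ≤ Real.log x ∧ K ≤ Real.log x ^ δ := by
  have h1 : Filter.Tendsto (fun x : ℝ => Real.log x ^ δ) Filter.atTop Filter.atTop :=
    (tendsto_rpow_atTop hδ).comp Real.tendsto_log_atTop
  have h2 := (h1.eventually_ge_atTop K).and
    ((Real.tendsto_log_atTop.eventually_ge_atTop 1).and (Filter.eventually_ge_atTop (1 : ℝ)))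
  obtain ⟨x0, hx0⟩ := Filter.eventually_atTop.1 h2
  exact ⟨x0, fun x hx => ⟨(hx0 x hx).2.2, (hx0 x hx).2.1, (hx0 x hx).1⟩⟩

/-- the final form -/
theorem patterns (hF : FinalA) (L : ℕ) (c : Fin (L + 1) → ZMod 2) (s h : ℕ) (hh : ¬ 3 ∣ h)
    (hc : poly c ∣ X ^ s * (1 + X ^ h)) (k : ℕ) (hk : ¬ 3 ∣ k) (ε : ℝ) (hε : 0 < ε) :
    ∃ x0 : ℝ, ∀ x : ℕ, x0 ≤ x →
      Real.sqrt x * Real.log x ^ (1 - ε) ≤ (((range (x + 1)).filter (fun n =>
        ∑ i : Fin (L + 1), c i * pp (n + i) = 0 ∧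
        ∑ i : Fin (L + 1), c i * pp (n + k + i) = 1)).card : ℝ) ∧
      Real.sqrt x * Real.log x ^ (1 - ε) ≤ (((range (x + 1)).filter (fun n =>
        ∑ i : Fin (L + 1), c i * pp (n + i) = 1 ∧
        ∑ i : Fin (L + 1), c i * pp (n + k + i) = 0)).card : ℝ) := by
  obtain ⟨A, B, hA, hAB⟩ := nz_count L c s h k hc
  set e : ℝ := min ε 1 with he
  have he0 : 0 < e := lt_min hε one_pos
  have he1 : e ≤ 1 := min_le_right _ _
  have hee : e ≤ ε := min_le_left _ _
  have h3 : ¬ 3 ∣ 2 * (h * k) := by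
    intro hd
    rcases (Nat.Prime.dvd_mul Nat.prime_three).1 hd with h1 | h1
    · omega
    · rcases (Nat.Prime.dvd_mul Nat.prime_three).1 h1 with h2 | h2
      · exact hh h2
      · exact hk h2
  obtain ⟨x1, hx1⟩ := hF (2 * (h * k)) h3 (e / 2) (by positivity)
  obtain ⟨x2, hx2⟩ := ev_log_rpow (2 * A + A * k + B) (e / 2) (by positivity)
  refine ⟨max x1 x2, fun x hx => ?_⟩
  have g1 := hx1 x (le_trans (le_max_left _ _) hx)
  obtain ⟨g2, g3, g4⟩ := hx2 x (le_trans (le_max_right _ _) hx)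
  set S : ℕ → ZMod 2 := aeval shift (poly c) pp with hS
  have hSe : ∀ n, ∑ i : Fin (L + 1), c i * pp (n + i) = S n := fun n => (aeval_poly c pp n).symm
  simp only [hSe]
  set U := (range (x + 1)).filter (fun n => S n = 0 ∧ S (n + k) = 1) with hU
  set V := (range (x + 1)).filter (fun n => S n = 1 ∧ S (n + k) = 0) with hV
  have h5 := Pool.Agent.R836.PP.updown S (x + 1) k
  rw [← hU, ← hV, abs_le] at h5
  have h6 : (U.card : ℝ) - V.card ≤ k := by exact_mod_cast h5.2
  have h7 : -(k : ℝ) ≤ (U.card : ℝ) - V.card := by exact_mod_cast h5.1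
  have h8 := nz_le_updown S k x
  rw [← hU, ← hV] at h8
  have h9 := (hAB x).trans (Nat.add_le_add_right (Nat.mul_le_mul_left A h8) B)
  have h10 : (chg (2 * (h * k)) x : ℝ) ≤ A * ((U.card : ℝ) + V.card) + B := by exact_mod_cast h9
  have hlog0 : 0 < Real.log x := by linarith
  set Y := Real.sqrt x * Real.log x ^ (1 - e) with hY
  have hY1 : 1 ≤ Y := by
    rw [hY]
    have e1 : 1 ≤ Real.sqrt x := Real.one_le_sqrt.2 g2
    have e2 : 1 ≤ Real.log x ^ (1 - e) := Real.one_le_rpow g3 (by linarith)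
    nlinarith
  have hYle : Real.sqrt x * Real.log x ^ (1 - ε) ≤ Y := by
    rw [hY]
    apply mul_le_mul_of_nonneg_left _ (Real.sqrt_nonneg _)
    exact Real.rpow_le_rpow_of_exponent_le g3 (by linarith)
  have hYeq : Real.sqrt x * Real.log x ^ (1 - e / 2) = Y * Real.log x ^ (e / 2) := by
    rw [hY, mul_assoc, ← Real.rpow_add hlog0]
    congr 2
    ring
  rw [hYeq] at g1
  have hAR : (1 : ℝ) ≤ A := by exact_mod_cast hA
  have hBR : (0 : ℝ) ≤ B := Nat.cast_nonneg _
  have hkR : (0 : ℝ) ≤ k := Nat.cast_nonneg _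
  have h11 : Y * (2 * A + A * k + B) ≤ A * ((U.card : ℝ) + V.card) + B :=
    (mul_le_mul_of_nonneg_left g4 (by linarith)).trans (g1.trans h10)
  have h12 : (A : ℝ) * (2 * Y + k) ≤ A * ((U.card : ℝ) + V.card) := by
    have e1 : (A : ℝ) * k + B ≤ Y * (A * k + B) := by
      have : 0 ≤ (A : ℝ) * k + B := by positivity
      nlinarith
    nlinarith
  have h13 : 2 * Y + k ≤ (U.card : ℝ) + V.card := le_of_mul_le_mul_left h12 (by linarith)
  constructor <;> linarith

end Pool.Agent.NH75.PC
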