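import Pool.Agent.NH75.PC.Stm
import Pool.Agent.H307R2.OP.T3

set_option autoImplicit false

/-!
# Part S: tuples in a class modulo `3 ^ κ` represented by a small kernel (helper17)
-/

namespace Pool.Agent.NH75.PC

open Finset Pool.Agent.H307R2.OP

namespace SmallAux

theorem cop_three {M : ℕ} (g : Cfg M) (hg : g.Ok) {A : Fin M → Finset ℕ} (hA : A ∈ g.Fam) (κ : ℕ) :
    Nat.Coprime (g.Rp * g.Q A) (3 ^ κ) := by
  apply Nat.Coprime.pow_right
  apply Nat.Coprime.mul_left
  · unfold Cfg.Rp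
    apply Nat.Coprime.prod_left
    intro q hq
    obtain ⟨h1, h2, -⟩ := hg.hR q hq
    rw [Nat.coprime_primes h1 Nat.prime_three]
    omega
  · unfold Cfg.Q
    apply Nat.Coprime.prod_left
    intro i _
    apply Nat.Coprime.prod_left
    intro q hq
    unfold Cfg.Fam at hA
    rw [Fintype.mem_piFinset] at hA
    have h1 := hA i
    rw [mem_powersetCard] at h1
    have h2 := h1.1 hq
    have h3 := t3_blk_prime g i h2
    rw [Nat.coprime_primes h3 Nat.prime_three]
    unfold Cfg.Blk PB at h2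
    rw [mem_sdiff, mem_filter, mem_Ioc] at h2
    have h4 : 2 ^ 3 ≤ 2 ^ g.κ i := Nat.pow_le_pow_right (by norm_num) (hg.hκ i)
    omega

/-- The number of large primes of a family member in a class. -/
theorem card_PrA {N0 : ℕ} (hBT : ∀ a q N : ℕ, 1 ≤ q → N0 ≤ N →
    (((range N).filter (fun k => (a + k * q).Prime)).card : ℝ) ≤
      9 / 2 * ((q : ℝ) / Nat.totient q) * (N / Real.log N))
    {M : ℕ} (g : Cfg M) (hg : g.Ok) (hI0 : 2 * N0 ≤ g.I) {κ a : ℕ} (hκ : 1 ≤ κ)
    (h3κ : 3 ^ (κ + 1) ≤ 2 ^ (g.I / 100)) {A : Fin M → Finset ℕ} (hA : A ∈ g.Fam) :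
    (((g.Pr A).filter (fun p => g.Rp * g.Q A * p % 3 ^ κ = a % 3 ^ κ)).card : ℝ) ≤
      27 * (2 ^ g.I / (g.Rp * g.I)) / 3 ^ κ * (1 / (g.Q A : ℝ)) := by
  classical
  have hRQ := hg.hRQ A hA
  have hI := hg.hI
  have hRp0 := t3_Rp_pos g hg
  have hQ0 := t3_Q_pos g hA
  obtain ⟨q, hq⟩ : ∃ q : ℕ, q = 3 ^ κ := ⟨_, rfl⟩
  have hq1 : 1 ≤ q := by rw [hq]; exact Nat.one_le_pow _ _ (by norm_num)
  have hqle : q ≤ 2 ^ (g.I / 100) := by
    rw [hq]
    exact (Nat.pow_le_pow_right (by norm_num) (by omega)).trans h3κ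
  rcases Finset.eq_empty_or_nonempty
    ((g.Pr A).filter (fun p => g.Rp * g.Q A * p % 3 ^ κ = a % 3 ^ κ)) with he | ⟨p0, hp0⟩
  · rw [he, Finset.card_empty, Nat.cast_zero]
    positivity
  rw [← hq] at hp0 ⊢
  rw [mem_filter] at hp0
  set x : ℕ := 2 ^ g.I / (g.Rp * g.Q A) with hx
  have hxlow : 2 ^ (g.I - g.I / 8) ≤ x := by
    rw [hx, Nat.le_div_iff_mul_le (by positivity)]
    calc 2 ^ (g.I - g.I / 8) * (g.Rp * g.Q A) ≤ 2 ^ (g.I - g.I / 8) * 2 ^ (g.I / 8) :=
          Nat.mul_le_mul_left _ hRQ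
      _ = 2 ^ g.I := by rw [← pow_add]; congr 1; omega
  obtain ⟨N, hN⟩ : ∃ N : ℕ, N = x / q + 1 := ⟨_, rfl⟩
  -- the set is contained in an arithmetic progression
  have hcardle : (((g.Pr A).filter (fun p => g.Rp * g.Q A * p % q = a % q)).card) ≤
      ((range N).filter (fun k => (p0 % q + k * q).Prime)).card := by
    refine Finset.card_le_card_of_injOn (fun p => p / q) ?_ ?_
    · intro p hp
      rw [Finset.mem_coe, mem_filter] at hp
      rw [Finset.mem_coe, mem_filter, mem_range]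
      obtain ⟨hp1, hp2⟩ := hp
      have hmod : p % q = p0 % q := by
        have h1 : g.Rp * g.Q A * p ≡ g.Rp * g.Q A * p0 [MOD q] := by
          unfold Nat.ModEq
          rw [hp2, hp0.2]
        have hc : Nat.gcd q (g.Rp * g.Q A) = 1 := by
          rw [hq]
          exact (cop_three g hg hA κ).symm
        exact Nat.ModEq.cancel_left_of_coprime hc h1
      unfold Cfg.Pr at hp1
      rw [mem_filter, mem_Ioc] at hp1
      constructor
      · rw [hN]
        exact Nat.lt_succ_of_le (Nat.div_le_div_right hp1.1.2)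
      · have : p0 % q + p / q * q = p := by
          rw [← hmod, mul_comm]
          exact Nat.mod_add_div p q
        rw [this]
        exact hp1.2.1
    · intro p hp p' hp' he
      rw [Finset.mem_coe, mem_filter] at hp hp'
      have hmod : ∀ p ∈ g.Pr A, g.Rp * g.Q A * p % q = a % q → p % q = p0 % q := by
        intro p hp1 hp2
        have h1 : g.Rp * g.Q A * p ≡ g.Rp * g.Q A * p0 [MOD q] := by
          unfold Nat.ModEq
          rw [hp2, hp0.2]
        have hc : Nat.gcd q (g.Rp * g.Q A) = 1 := by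
          rw [hq]
          exact (cop_three g hg hA κ).symm
        exact Nat.ModEq.cancel_left_of_coprime hc h1
      simp only at he
      rw [← Nat.mod_add_div p q, ← Nat.mod_add_div p' q, he, hmod p hp.1 hp.2, hmod p' hp'.1 hp'.2]
  -- size of `N`
  have hqpos : 0 < q := hq1
  have hqR : (0 : ℝ) < q := by exact_mod_cast hqpos
  have hpow : 2 ^ (g.I - g.I / 8 - g.I / 100) * q ≤ x := by
    refine le_trans ?_ hxlow
    calc 2 ^ (g.I - g.I / 8 - g.I / 100) * q ≤
        2 ^ (g.I - g.I / 8 - g.I / 100) * 2 ^ (g.I / 100) := Nat.mul_le_mul_left _ hqle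
      _ = 2 ^ (g.I - g.I / 8) := by rw [← pow_add]; congr 1; omega
  have hNlow : 2 ^ (g.I - g.I / 8 - g.I / 100) ≤ N := by
    rw [hN]
    exact ((Nat.le_div_iff_mul_le hqpos).2 hpow).trans (Nat.le_succ _)
  have hNN0 : N0 ≤ N := by
    have h1 : g.I - g.I / 8 - g.I / 100 < 2 ^ (g.I - g.I / 8 - g.I / 100) := Nat.lt_two_pow_self
    omega
  have hlog : (g.I : ℝ) / 2 ≤ Real.log N := by
    have h1 : Real.log ((2:ℝ) ^ (g.I - g.I / 8 - g.I / 100)) ≤ Real.log N := by
      apply Real.log_le_log (by positivity)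
      exact_mod_cast hNlow
    rw [Real.log_pow] at h1
    have h2 : (86:ℝ) * g.I ≤ 100 * ((g.I - g.I / 8 - g.I / 100 : ℕ) : ℝ) := by
      have : 86 * g.I ≤ 100 * (g.I - g.I / 8 - g.I / 100) := by omega
      exact_mod_cast this
    have h3 := Real.log_two_gt_d9
    have h4 : (0:ℝ) ≤ g.I := Nat.cast_nonneg _
    nlinarith
  have hIpos : (0:ℝ) < g.I := by
    have : 0 < g.I := by omega
    exact_mod_cast this
  have hRpR : (0:ℝ) < g.Rp := by exact_mod_cast hRp0
  have hQR : (0:ℝ) < g.Q A := by exact_mod_cast hQ0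
  have hxR : (x:ℝ) ≤ 2 ^ g.I / (g.Rp * g.Q A) := by
    have := @Nat.cast_div_le ℝ _ _ _ (2 ^ g.I) (g.Rp * g.Q A)
    rw [← hx] at this
    push_cast at this
    exact this
  have hqx : q ≤ x := by
    refine le_trans ?_ hpow
    exact Nat.le_mul_of_pos_left _ (by positivity)
  have hNup : (N : ℝ) ≤ 2 * (x / q) := by
    have h1 : ((x / q : ℕ) : ℝ) ≤ (x : ℝ) / q := Nat.cast_div_le
    have h2 : (1 : ℝ) ≤ (x : ℝ) / q := by
      rw [le_div_iff₀ hqR, one_mul]
      exact_mod_cast hqx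
    rw [hN]
    push_cast
    linarith
  have htot : (q : ℝ) / Nat.totient q = 3 / 2 := by
    have h1 : Nat.totient q = 3 ^ (κ - 1) * (3 - 1) := by
      rw [hq, Nat.totient_prime_pow Nat.prime_three (by omega)]
    have h2 : (q : ℝ) = 3 ^ (κ - 1) * 3 := by
      rw [hq]
      push_cast
      rw [← pow_succ]
      congr 1
      omega
    rw [h1, h2]
    push_cast
    have h3 : (3 : ℝ) ^ (κ - 1) ≠ 0 := by positivity
    field_simp
  have hN0' : (0 : ℝ) ≤ N := Nat.cast_nonneg N
  have hq3 : (q : ℝ) = 3 ^ κ := by rw [hq]; push_cast; rfl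
  calc (((g.Pr A).filter (fun p => g.Rp * g.Q A * p % q = a % q)).card : ℝ)
      ≤ (((range N).filter (fun k => (p0 % q + k * q).Prime)).card : ℝ) := by
        exact_mod_cast hcardle
    _ ≤ 9 / 2 * ((q : ℝ) / Nat.totient q) * (N / Real.log N) := hBT _ _ _ hq1 hNN0
    _ = 9 / 2 * (3 / 2) * (N / Real.log N) := by rw [htot]
    _ ≤ 9 / 2 * (3 / 2) * (N / ((g.I : ℝ) / 2)) := by
        refine mul_le_mul_of_nonneg_left ?_ (by norm_num)
        exact div_le_div_of_nonneg_left hN0' (by positivity) hlog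
    _ ≤ 9 / 2 * (3 / 2) * ((2 * ((2 ^ g.I / (g.Rp * g.Q A)) / q)) / ((g.I : ℝ) / 2)) := by
        refine mul_le_mul_of_nonneg_left ?_ (by norm_num)
        refine div_le_div_of_nonneg_right ?_ (by positivity)
        refine hNup.trans ?_
        refine mul_le_mul_of_nonneg_left ?_ (by norm_num)
        exact div_le_div_of_nonneg_right hxR hqR.le
    _ = _ := by
        rw [hq3]
        field_simp
        norm_num

end SmallAux

open SmallAux in
/-- part S -/
theorem tupSmallA (h1 : QRStmt) (h2 : ESStmt) (h3 : TupStmt) (h4 : BT4) : TupSmallA := by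
  obtain ⟨N0, hBT⟩ := h4
  refine ⟨27, by norm_num, 2 * N0, ?_⟩
  intro M g hg hgI κ a hκ h3κ δ hδ j θ hθ0 hθ1 hblk
  classical
  set B' : Fin M → Finset ℕ := fun i =>
    if i = j then (g.Blk j).filter (fun q => J q δ ≠ -1) else g.Blk i with hB'
  have hB'sub : ∀ i, B' i ⊆ g.Blk i := by
    intro i
    simp only [hB']
    split_ifs with h
    · rw [h]; exact Finset.filter_subset _ _
    · exact Finset.Subset.refl _
  set Fam' : Finset (Fin M → Finset ℕ) :=
    Fintype.piFinset (fun i => powersetCard (g.k i) (B' i)) with hFam'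
  have hFsub : Fam' ⊆ g.Fam := by
    intro A hA
    rw [hFam', Fintype.mem_piFinset] at hA
    unfold Cfg.Fam
    rw [Fintype.mem_piFinset]
    intro i
    have := hA i
    rw [mem_powersetCard] at this ⊢
    exact ⟨this.1.trans (hB'sub i), this.2⟩
  have hsub : (TupA g κ a).filter (fun t => Rep g.r δ (g.N t)) ⊆
      Fam'.sigma (fun A => (g.Pr A).filter (fun p => g.Rp * g.Q A * p % 3 ^ κ = a % 3 ^ κ)) := by
    intro t ht
    unfold TupA at ht
    rw [mem_filter, mem_filter] at ht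
    have ht1 := ht.1.1
    unfold Cfg.Tup at ht1
    rw [mem_sigma] at ht1 ⊢
    refine ⟨?_, ?_⟩
    · have hF := ht1.1
      unfold Cfg.Fam at hF
      rw [Fintype.mem_piFinset] at hF
      rw [hFam', Fintype.mem_piFinset]
      intro i
      have := hF i
      rw [mem_powersetCard] at this ⊢
      refine ⟨?_, this.2⟩
      simp only [hB']
      split_ifs with h
      · intro q hq
        rw [mem_filter]
        subst h
        refine ⟨this.1 hq, ?_⟩
        intro hJ
        obtain ⟨s, s1, s2, s3, s4, s5, s6, s7, s8⟩ := h3 M g hg t ht.1.1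
        have hqs := s6 i hq
        exact h1.kill g.r δ (g.N t) q hδ (s1 q hqs).1 (s1 q hqs).2.1 hJ (s7 q hqs).1
          (s7 q hqs).2 ht.2
      · exact this.1
    · rw [mem_filter]
      exact ⟨ht1.2, ht.1.2⟩
  set K : ℝ := 27 * (2 ^ g.I / (g.Rp * g.I)) / 3 ^ κ with hK
  have hK0 : 0 ≤ K := by rw [hK]; positivity
  have hinv : ∀ A : Fin M → Finset ℕ, (1 / (g.Q A : ℝ)) = ∏ i, ∏ q ∈ A i, (1 / (q : ℝ)) := by
    intro A
    unfold Cfg.Q
    push_cast
    simp only [one_div, Finset.prod_inv_distrib]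
  have hS0 : ∀ i, 0 ≤ g.S i := by
    intro i; unfold Cfg.S; positivity
  have hterm : ∀ i, ∑ A ∈ powersetCard (g.k i) (B' i), ∏ q ∈ A, (1 / (q:ℝ)) ≤
      (g.S i ^ g.k i / ((g.k i).factorial : ℝ)) * (if i = j then (1 - θ) ^ g.k j else 1) := by
    intro i
    refine (h2.up (B' i) (fun q => 1 / (q:ℝ)) (g.k i) (fun q _ => by positivity)).trans ?_
    by_cases hij : i = j
    · subst hij
      simp only [hB', if_true]
      rw [div_mul_eq_mul_div]
      apply div_le_div_of_nonneg_right _ (by positivity)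
      rw [← mul_pow, mul_comm (g.S i)]
      exact pow_le_pow_left₀ (Finset.sum_nonneg (fun q _ => by positivity)) hblk _
    · simp only [hB', if_neg hij, mul_one]
      apply le_of_eq
      rfl
  have hprod : ∑ A ∈ Fam', (1 / (g.Q A : ℝ)) ≤ g.W * (1 - θ) ^ g.k j := by
    calc ∑ A ∈ Fam', (1 / (g.Q A : ℝ)) = ∑ A ∈ Fam', ∏ i, ∏ q ∈ A i, (1 / (q : ℝ)) :=
          Finset.sum_congr rfl (fun A _ => hinv A)
      _ = ∏ i, ∑ A ∈ powersetCard (g.k i) (B' i), ∏ q ∈ A, (1 / (q:ℝ)) :=
          h2.fam M B' g.k (fun q => 1 / (q:ℝ))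
      _ ≤ ∏ i, ((g.S i ^ g.k i / ((g.k i).factorial : ℝ)) *
            (if i = j then (1 - θ) ^ g.k j else 1)) := by
          apply Finset.prod_le_prod
          · intro i _
            exact Finset.sum_nonneg (fun A _ => Finset.prod_nonneg (fun q _ => by positivity))
          · intro i _
            exact hterm i
      _ = g.W * (1 - θ) ^ g.k j := by
          rw [Finset.prod_mul_distrib, Finset.prod_ite_eq' Finset.univ j, if_pos (Finset.mem_univ j)]
          rfl
  calc (((TupA g κ a).filter (fun t => Rep g.r δ (g.N t))).card : ℝ)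
      ≤ ((Fam'.sigma (fun A => (g.Pr A).filter
          (fun p => g.Rp * g.Q A * p % 3 ^ κ = a % 3 ^ κ))).card : ℝ) := by
        exact_mod_cast Finset.card_le_card hsub
    _ = ∑ A ∈ Fam', (((g.Pr A).filter
          (fun p => g.Rp * g.Q A * p % 3 ^ κ = a % 3 ^ κ)).card : ℝ) := by
        rw [Finset.card_sigma]; push_cast; rfl
    _ ≤ ∑ A ∈ Fam', K * (1 / (g.Q A : ℝ)) :=
        Finset.sum_le_sum (fun A hA => card_PrA hBT g hg hgI hκ h3κ (hFsub hA))
    _ = K * ∑ A ∈ Fam', (1 / (g.Q A : ℝ)) := by rw [Finset.mul_sum]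
    _ ≤ K * (g.W * (1 - θ) ^ g.k j) := mul_le_mul_of_nonneg_left hprod hK0
    _ = _ := by ring

end Pool.Agent.NH75.PC
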