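import Pool.Agent.H307R2.OP.Final
import Pool.Agent.NH75.PC.Low3
import Pool.Agent.NH75.PC.Alg
import Pool.Agent.NH75.PC.GoodA
import Pool.Agent.NH75.PC.LargeA
import Pool.Agent.NH75.PC.SmallA
import Pool.Agent.NH75.PC.BadA
import Pool.Agent.NH75.PC.MainA
import Pool.Agent.NH75.PC.FinA
import Pool.Agent.NH75.PC.Pat

set_option autoImplicit false

/-!
# Parity changes of the partition function (MP_ebc808_nt): the assembly
-/

namespace Pool.Agent.NH75.PC

open Pool.Agent.H307R2.OP

theorem tupLowA_main : TupLowA := Low.tupLowA bt4 pc es par_main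

theorem goodCountA_main : GoodCountA := goodCountA qr es tup sv sig_main

theorem badTotalA_main : BadTotalA :=
  badTotalA qr tup (tupLargeA qr es tup) (tupSmallA qr es tup bt4) (tupZeroA tup)
    badSum_main badNum_main strongBad_main par_main

theorem finalA_main : FinalA :=
  finalA (mainYA oc_main algA tup tupLowA_main goodCountA_main par_main rChoice_main
    badTotalA_main)

end Pool.Agent.NH75.PC
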