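import Pool.Agent.NH75.PC.Stm2
import Pool.Agent.NH75.PC.Pat

set_option autoImplicit false

/-!
# Parity changes of the partition function: all linear patterns
-/

namespace Pool.Agent.NH75.PC

open Finset Polynomial

/-- every nonzero polynomial over `F_2` divides some `X ^ s * (1 + X ^ H)` -/
theorem exists_period (A : (ZMod 2)[X]) (hA : A ≠ 0) :
    ∃ s H : ℕ, 0 < H ∧ A ∣ X ^ s * (1 + X ^ H) := by
  have h2 : (2 : (ZMod 2)[X]) = 0 := by
    have : ((2 : ℕ) : (ZMod 2)[X]) = 0 := CharP.cast_eq_zero _ 2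
    exact_mod_cast this
  have hfin : Module.Finite (ZMod 2) (AdjoinRoot A) := (AdjoinRoot.powerBasis hA).finite
  have hfin2 : Finite (AdjoinRoot A) := Module.finite_of_finite (ZMod 2)
  obtain ⟨i, j, hij, he⟩ := Finite.exists_ne_map_eq_of_infinite
    (fun n : ℕ => AdjoinRoot.mk A (X ^ n))
  have key : ∀ i j : ℕ, i < j → AdjoinRoot.mk A (X ^ i) = AdjoinRoot.mk A (X ^ j) →
      A ∣ X ^ i * (1 + X ^ (j - i)) := by
    intro i j hij he
    have h1 : AdjoinRoot.mk A (X ^ j - X ^ i) = 0 := by rw [map_sub, he, sub_self]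
    rw [AdjoinRoot.mk_eq_zero] at h1
    have e1 : (X ^ j : (ZMod 2)[X]) = X ^ i * X ^ (j - i) := by
      rw [← pow_add]
      congr 1
      omega
    rw [e1] at h1
    have e2 : (X ^ i * (1 + X ^ (j - i)) : (ZMod 2)[X]) = X ^ i * X ^ (j - i) - X ^ i := by
      linear_combination (X ^ i : (ZMod 2)[X]) * h2
    rw [e2]
    exact h1
  rcases Nat.lt_or_gt_of_ne hij with h | h
  · exact ⟨i, j - i, by omega, key i j h he⟩
  · exact ⟨j, i - j, by omega, key j i h he.symm⟩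

theorem one_add_dvd (a b : ℕ) : (1 + X ^ a : (ZMod 2)[X]) ∣ 1 + X ^ (a * b) := by
  have h2 : (2 : (ZMod 2)[X]) = 0 := by
    have : ((2 : ℕ) : (ZMod 2)[X]) = 0 := CharP.cast_eq_zero _ 2
    exact_mod_cast this
  have e1 : (X ^ a - 1 : (ZMod 2)[X]) ∣ (X ^ a) ^ b - 1 ^ b := sub_dvd_pow_sub_pow _ _ b
  have e2 : ∀ z : (ZMod 2)[X], z - 1 = 1 + z := by
    intro z
    linear_combination -h2
  rw [one_pow, ← pow_mul, e2, e2] at e1
  exact e1

theorem exists_even_val (H : ℕ) (hH : 0 < H) :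
    ∃ b v h : ℕ, Even v ∧ ¬ 3 ∣ h ∧ H * b = 3 ^ v * h := by
  obtain ⟨e, h, hh, rfl⟩ := Nat.exists_eq_pow_mul_and_not_dvd hH.ne' 3 (by norm_num)
  rcases Nat.even_or_odd e with he | he
  · exact ⟨1, e, h, he, hh, by ring⟩
  · exact ⟨3, e + 1, h, he.add_one, hh, by ring⟩

theorem nz_countV (A : (ZMod 2)[X]) (hA : A ≠ 0) : ∃ v h a b : ℕ, Even v ∧ ¬ 3 ∣ h ∧ 1 ≤ a ∧
    ∀ x : ℕ, chg (3 ^ v * h) x ≤ a * nz (aeval shift A pp) x + b := by
  obtain ⟨s, H, hH, hd⟩ := exists_period A hA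
  obtain ⟨c, v, h, hv, hh, he⟩ := exists_even_val H hH
  have hd2 : A ∣ X ^ s * (1 + X ^ (3 ^ v * h)) := by
    rw [← he]
    exact hd.trans (mul_dvd_mul_left _ (one_add_dvd H c))
  obtain ⟨D, hD⟩ := hd2
  set d := D.natDegree with hdd
  refine ⟨v, h, d + 1, (d + 1) * d + s, hv, hh, by omega, fun x => ?_⟩
  rw [chg_eq]
  refine (nz_shift _ x s).trans ?_
  rw [← Module.End.mul_apply, ← map_mul, hD, mul_comm A, map_mul, Module.End.mul_apply]
  have e3 := nz_aeval D (aeval shift A pp) x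
  rw [← hdd] at e3
  calc _ ≤ (d + 1) * (nz (aeval shift A pp) x + d) + s := Nat.add_le_add_right e3 s
    _ = _ := by ring

theorem poly_ne_zero {L : ℕ} (c : Fin (L + 1) → ZMod 2) (hc : c ≠ 0) : poly c ≠ 0 := by
  intro h
  apply hc
  funext i
  have h1 := congrArg (fun p : (ZMod 2)[X] => p.coeff (i : ℕ)) h
  unfold poly at h1
  simp only [finsetSum_coeff, coeff_C_mul, coeff_X_pow, coeff_zero] at h1
  rw [Finset.sum_eq_single i] at h1
  · simpa using h1
  · intro j _ hj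
    rw [if_neg (fun h => hj (Fin.ext h.symm)), mul_zero]
  · intro h
    exact absurd (mem_univ i) h

/-- **all linear patterns** -/
theorem patternsV (hF : FinalV) (L : ℕ) (c : Fin (L + 1) → ZMod 2) (hc : c ≠ 0) (k : ℕ)
    (hk : 0 < k) (ε : ℝ) (hε : 0 < ε) :
    ∃ x0 : ℝ, ∀ x : ℕ, x0 ≤ x →
      Real.sqrt x * Real.log x ^ (1 - ε) ≤ (((range (x + 1)).filter (fun n =>
        ∑ i : Fin (L + 1), c i * pp (n + i) = 0 ∧
        ∑ i : Fin (L + 1), c i * pp (n + k + i) = 1)).card : ℝ) ∧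
      Real.sqrt x * Real.log x ^ (1 - ε) ≤ (((range (x + 1)).filter (fun n =>
        ∑ i : Fin (L + 1), c i * pp (n + i) = 1 ∧
        ∑ i : Fin (L + 1), c i * pp (n + k + i) = 0)).card : ℝ) := by
  have hk1 : (1 + X ^ k : (ZMod 2)[X]) ≠ 0 := by
    intro h
    have h1 := congrArg (fun p : (ZMod 2)[X] => p.coeff 0) h
    simp only [coeff_add, coeff_one_zero, coeff_X_pow, coeff_zero] at h1
    rw [if_neg (by omega), add_zero] at h1
    exact absurd h1 (by decide)
  obtain ⟨v, h, A, B, hv, hh, hA, hAB⟩ := nz_countV ((1 + X ^ k) * poly c)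
    (mul_ne_zero hk1 (poly_ne_zero c hc))
  set S : ℕ → ZMod 2 := aeval shift (poly c) pp with hS
  have e2 : (aeval shift ((1 + X ^ k) * poly c)) pp = fun n => S n + S (n + k) := by
    funext n
    rw [map_mul, Module.End.mul_apply, aeval_one_X]
  rw [e2] at hAB
  set e : ℝ := min ε 1 with he
  have he0 : 0 < e := lt_min hε one_pos
  have he1 : e ≤ 1 := min_le_right _ _
  have hee : e ≤ ε := min_le_left _ _
  obtain ⟨x1, hx1⟩ := hF v h hv hh (e / 2) (by positivity)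
  obtain ⟨x2, hx2⟩ := ev_log_rpow (2 * A + A * k + B) (e / 2) (by positivity)
  refine ⟨max x1 x2, fun x hx => ?_⟩
  have g1 := hx1 x (le_trans (le_max_left _ _) hx)
  obtain ⟨g2, g3, g4⟩ := hx2 x (le_trans (le_max_right _ _) hx)
  have hSe : ∀ n, ∑ i : Fin (L + 1), c i * pp (n + i) = S n := fun n => (aeval_poly c pp n).symm
  simp only [hSe]
  set U := (range (x + 1)).filter (fun n => S n = 0 ∧ S (n + k) = 1) with hU
  set V := (range (x + 1)).filter (fun n => S n = 1 ∧ S (n + k) = 0) with hV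
  have h5 := Pool.Agent.R836.PP.updown S (x + 1) k
  rw [← hU, ← hV, abs_le] at h5
  have h6 : (U.card : ℝ) - V.card ≤ k := by exact_mod_cast h5.2
  have h7 : -(k : ℝ) ≤ (U.card : ℝ) - V.card := by exact_mod_cast h5.1
  have h8 := nz_le_updown S k x
  rw [← hU, ← hV] at h8
  have h9 := (hAB x).trans (Nat.add_le_add_right (Nat.mul_le_mul_left A h8) B)
  have h10 : (chg (3 ^ v * h) x : ℝ) ≤ A * ((U.card : ℝ) + V.card) + B := by exact_mod_cast h9
  have hlog0 : 0 < Real.log x := by linarith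
  set Y := Real.sqrt x * Real.log x ^ (1 - e) with hY
  have hY1 : 1 ≤ Y := by
    rw [hY]
    have e1 : 1 ≤ Real.sqrt x := Real.one_le_sqrt.2 g2
    have e2 : 1 ≤ Real.log x ^ (1 - e) := Real.one_le_rpow g3 (by linarith)
    nlinarith
  have hYle : Real.sqrt x * Real.log x ^ (1 - ε) ≤ Y := by
    rw [hY]
    apply mul_le_mul_of_nonneg_left _ (Real.sqrt_nonneg _)
    exact Real.rpow_le_rpow_of_exponent_le g3 (by linarith)
  have hYeq : Real.sqrt x * Real.log x ^ (1 - e / 2) = Y * Real.log x ^ (e / 2) := by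
    rw [hY, mul_assoc, ← Real.rpow_add hlog0]
    congr 2
    ring
  rw [hYeq] at g1
  have hAR : (1 : ℝ) ≤ A := by exact_mod_cast hA
  have hBR : (0 : ℝ) ≤ B := Nat.cast_nonneg _
  have hkR : (0 : ℝ) ≤ k := Nat.cast_nonneg _
  have h11 : Y * (2 * A + A * k + B) ≤ A * ((U.card : ℝ) + V.card) + B :=
    (mul_le_mul_of_nonneg_left g4 (by linarith)).trans (g1.trans h10)
  have h12 : (A : ℝ) * (2 * Y + k) ≤ A * ((U.card : ℝ) + V.card) := by
    have e1 : (A : ℝ) * k + B ≤ Y * (A * k + B) := by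
      have : 0 ≤ (A : ℝ) * k + B := by positivity
      nlinarith
    nlinarith
  have h13 : 2 * Y + k ≤ (U.card : ℝ) + V.card := le_of_mul_le_mul_left h12 (by linarith)
  constructor <;> linarith

end Pool.Agent.NH75.PC
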