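import Pool.Agent.NH75.PC.Stm2
import Pool.Agent.NH75.PC.SmallA

set_option autoImplicit false

/-!
# Part S, second round: tuples in a class modulo `3 ^ κ` represented by a small kernel
(the argument of `tupSmallA`, with `3 ^ v * N` in the place of `N`)
-/

namespace Pool.Agent.NH75.PC

open Finset Pool.Agent.H307R2.OP

namespace SmallVAux

/-- a prime at least five divides `3 ^ v * N` exactly if it divides `N` -/
theorem kill3 (h1 : QRStmt) {r δ N q : ℕ} (v : ℕ) (hδ : Adm δ) (hq : q.Prime) (hq5 : 5 ≤ q)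
    (hJ : J q δ = -1) (h : q ∣ N) (h' : ¬ q ^ 2 ∣ N) : ¬ RepC r δ (3 ^ v * N) := by
  rintro ⟨s, u, -, hsu⟩
  have hc : Nat.Coprime q (3 ^ v) := by
    apply Nat.Coprime.pow_right
    rw [Nat.coprime_primes hq Nat.prime_three]
    omega
  refine h1.kill r δ (3 ^ v * N) q hδ hq hq5 hJ (h.mul_left _) ?_ ⟨s, u, hsu⟩
  intro h2
  exact h' ((Nat.Coprime.pow_left 2 hc).dvd_of_dvd_mul_left h2)

end SmallVAux

open SmallAux SmallVAux in
/-- part S -/
theorem tupSmallV (h1 : QRStmt) (h2 : ESStmt) (h3 : TupStmt) (h4 : BT4) : TupSmallV := by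
  obtain ⟨N0, hBT⟩ := h4
  refine ⟨27, by norm_num, 2 * N0, ?_⟩
  intro v M g hg hgI κ a hκ h3κ δ hδ j θ hθ0 hθ1 hblk
  classical
  set B' : Fin M → Finset ℕ := fun i =>
    if i = j then (g.Blk j).filter (fun q => J q δ ≠ -1) else g.Blk i with hB'
  have hB'sub : ∀ i, B' i ⊆ g.Blk i := by
    intro i
    simp only [hB']
    split_ifs with h
    · rw [h]; exact Finset.filter_subset _ _
    · exact Finset.Subset.refl _
  set Fam' : Finset (Fin M → Finset ℕ) :=
    Fintype.piFinset (fun i => powersetCard (g.k i) (B' i)) with hFam'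
  have hFsub : Fam' ⊆ g.Fam := by
    intro A hA
    rw [hFam', Fintype.mem_piFinset] at hA
    unfold Cfg.Fam
    rw [Fintype.mem_piFinset]
    intro i
    have := hA i
    rw [mem_powersetCard] at this ⊢
    exact ⟨this.1.trans (hB'sub i), this.2⟩
  have hsub : (TupA g κ a).filter (fun t => RepC g.r δ (3 ^ v * g.N t)) ⊆
      Fam'.sigma (fun A => (g.Pr A).filter (fun p => g.Rp * g.Q A * p % 3 ^ κ = a % 3 ^ κ)) := by
    intro t ht
    unfold TupA at ht
    rw [mem_filter, mem_filter] at ht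
    have ht1 := ht.1.1
    unfold Cfg.Tup at ht1
    rw [mem_sigma] at ht1 ⊢
    refine ⟨?_, ?_⟩
    · have hF := ht1.1
      unfold Cfg.Fam at hF
      rw [Fintype.mem_piFinset] at hF
      rw [hFam', Fintype.mem_piFinset]
      intro i
      have := hF i
      rw [mem_powersetCard] at this ⊢
      refine ⟨?_, this.2⟩
      simp only [hB']
      split_ifs with h
      · intro q hq
        rw [mem_filter]
        subst h
        refine ⟨this.1 hq, ?_⟩
        intro hJ
        obtain ⟨s, s1, s2, s3, s4, s5, s6, s7, s8⟩ := h3 M g hg t ht.1.1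
        have hqs := s6 i hq
        exact kill3 h1 v hδ (s1 q hqs).1 (s1 q hqs).2.1 hJ (s7 q hqs).1
          (s7 q hqs).2 ht.2
      · exact this.1
    · rw [mem_filter]
      exact ⟨ht1.2, ht.1.2⟩
  set K : ℝ := 27 * (2 ^ g.I / (g.Rp * g.I)) / 3 ^ κ with hK
  have hK0 : 0 ≤ K := by rw [hK]; positivity
  have hinv : ∀ A : Fin M → Finset ℕ, (1 / (g.Q A : ℝ)) = ∏ i, ∏ q ∈ A i, (1 / (q : ℝ)) := by
    intro A
    unfold Cfg.Q
    push_cast
    simp only [one_div, Finset.prod_inv_distrib]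
  have hS0 : ∀ i, 0 ≤ g.S i := by
    intro i; unfold Cfg.S; positivity
  have hterm : ∀ i, ∑ A ∈ powersetCard (g.k i) (B' i), ∏ q ∈ A, (1 / (q:ℝ)) ≤
      (g.S i ^ g.k i / ((g.k i).factorial : ℝ)) * (if i = j then (1 - θ) ^ g.k j else 1) := by
    intro i
    refine (h2.up (B' i) (fun q => 1 / (q:ℝ)) (g.k i) (fun q _ => by positivity)).trans ?_
    by_cases hij : i = j
    · subst hij
      simp only [hB', if_true]
      rw [div_mul_eq_mul_div]
      apply div_le_div_of_nonneg_right _ (by positivity)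
      rw [← mul_pow, mul_comm (g.S i)]
      exact pow_le_pow_left₀ (Finset.sum_nonneg (fun q _ => by positivity)) hblk _
    · simp only [hB', if_neg hij, mul_one]
      apply le_of_eq
      rfl
  have hprod : ∑ A ∈ Fam', (1 / (g.Q A : ℝ)) ≤ g.W * (1 - θ) ^ g.k j := by
    calc ∑ A ∈ Fam', (1 / (g.Q A : ℝ)) = ∑ A ∈ Fam', ∏ i, ∏ q ∈ A i, (1 / (q : ℝ)) :=
          Finset.sum_congr rfl (fun A _ => hinv A)
      _ = ∏ i, ∑ A ∈ powersetCard (g.k i) (B' i), ∏ q ∈ A, (1 / (q:ℝ)) :=
          h2.fam M B' g.k (fun q => 1 / (q:ℝ))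
      _ ≤ ∏ i, ((g.S i ^ g.k i / ((g.k i).factorial : ℝ)) *
            (if i = j then (1 - θ) ^ g.k j else 1)) := by
          apply Finset.prod_le_prod
          · intro i _
            exact Finset.sum_nonneg (fun A _ => Finset.prod_nonneg (fun q _ => by positivity))
          · intro i _
            exact hterm i
      _ = g.W * (1 - θ) ^ g.k j := by
          rw [Finset.prod_mul_distrib, Finset.prod_ite_eq' Finset.univ j, if_pos (Finset.mem_univ j)]
          rfl
  calc (((TupA g κ a).filter (fun t => RepC g.r δ (3 ^ v * g.N t))).card : ℝ)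
      ≤ ((Fam'.sigma (fun A => (g.Pr A).filter
          (fun p => g.Rp * g.Q A * p % 3 ^ κ = a % 3 ^ κ))).card : ℝ) := by
        exact_mod_cast Finset.card_le_card hsub
    _ = ∑ A ∈ Fam', (((g.Pr A).filter
          (fun p => g.Rp * g.Q A * p % 3 ^ κ = a % 3 ^ κ)).card : ℝ) := by
        rw [Finset.card_sigma]; push_cast; rfl
    _ ≤ ∑ A ∈ Fam', K * (1 / (g.Q A : ℝ)) :=
        Finset.sum_le_sum (fun A hA => card_PrA hBT g hg hgI hκ h3κ (hFsub hA))
    _ = K * ∑ A ∈ Fam', (1 / (g.Q A : ℝ)) := by rw [Finset.mul_sum]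
    _ ≤ K * (g.W * (1 - θ) ^ g.k j) := mul_le_mul_of_nonneg_left hprod hK0
    _ = _ := by ring

end Pool.Agent.NH75.PC
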