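import Pool.Agent.NH75.PC.Final
import Pool.Agent.NH75.PC.CoefV
import Pool.Agent.NH75.PC.GoodV
import Pool.Agent.NH75.PC.LargeV
import Pool.Agent.NH75.PC.SmallV
import Pool.Agent.NH75.PC.BadV
import Pool.Agent.NH75.PC.MainV
import Pool.Agent.NH75.PC.FinV
import Pool.Agent.NH75.PC.PatV

set_option autoImplicit false

/-!
# Changes of all linear patterns at all distances (MP_ebc808_nt): the assembly
-/

namespace Pool.Agent.NH75.PC

open Pool.Agent.H307R2.OP

theorem goodCountV_main : GoodCountV := goodCountV qr es sv sig_main

theorem badTotalV_main : BadTotalV :=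
  badTotalV qr tup (tupLargeV qr es tup) (tupSmallV qr es tup bt4) (tupZeroV tup)
    badSum_main badNum_main strongBad_main par_main

theorem finalV_main : FinalV :=
  finalV (mainYV ocV algA tup tupLowA_main goodCountV_main par_main rChoice_main
    badTotalV_main)

end Pool.Agent.NH75.PC
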