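import Pool.Agent.NH75.PC.Mix

set_option autoImplicit false

/-!
# Nonprincipal characters modulo `3 ^ κ` are not almost constant on a set which satisfies a
Brun-Titchmarsh inequality and is equidistributed modulo 9
-/

namespace Pool.Agent.NH75.PC.NP

open Finset Mix

/-- a nontrivial ninth root of unity is far from `1` -/
theorem root9 (w : ℂ) (h9 : w ^ 9 = 1) (h1 : w ≠ 1) : 1 / 4 ≤ ‖w - 1‖ := by
  have hn : ‖w‖ = 1 := Complex.norm_eq_one_of_pow_eq_one h9 (by norm_num)
  have hs : ∑ i ∈ range 9, w ^ i = 0 := by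
    have h := mul_geom_sum w 9
    rw [h9, sub_self] at h
    rcases mul_eq_zero.1 h with h | h
    · exact absurd (sub_eq_zero.1 h) h1
    · exact h
  have hb : ∀ i : ℕ, ‖w ^ i - 1‖ ≤ i * ‖w - 1‖ := by
    intro i
    induction i with
    | zero => simp
    | succ i ih =>
      have e : w ^ (i + 1) - 1 = w * (w ^ i - 1) + (w - 1) := by ring
      rw [e]
      refine (norm_add_le _ _).trans ?_
      rw [norm_mul, hn, one_mul]
      push_cast
      linarith
  have h2 : ∑ i ∈ range 9, (w ^ i - 1) = -9 := by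
    rw [Finset.sum_sub_distrib, hs]
    simp
  have h3 : (9 : ℝ) ≤ ∑ i ∈ range 9, ‖w ^ i - 1‖ := by
    have h4 := norm_sum_le (range 9) (fun i => w ^ i - 1)
    rw [h2] at h4
    simpa using h4
  have h5 : ∑ i ∈ range 9, ‖w ^ i - 1‖ ≤ ∑ i ∈ range 9, (i : ℝ) * ‖w - 1‖ :=
    Finset.sum_le_sum fun i _ => hb i
  rw [← Finset.sum_mul] at h5
  have h6 : ∑ i ∈ range 9, (i : ℝ) = 36 := by
    simp [Finset.sum_range_succ]
    norm_num
  rw [h6] at h5
  linarith

theorem near (z x : ℂ) (hz : ‖z‖ = 1) (hx : ‖x‖ = 1) (h : 1 - 1 / 200 < (star z * x).re) :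
    ‖x - z‖ < 1 / 10 := by
  have h1 : ‖x - z‖ ^ 2 = 2 - 2 * (star z * x).re := by
    have e1 : ‖x - z‖ ^ 2 = ‖x‖ ^ 2 - 2 * (star z * x).re + ‖z‖ ^ 2 := by
      rw [← Complex.normSq_eq_norm_sq, ← Complex.normSq_eq_norm_sq, ← Complex.normSq_eq_norm_sq,
        Complex.normSq_apply, Complex.normSq_apply, Complex.normSq_apply]
      simp only [Complex.sub_re, Complex.sub_im, Complex.mul_re, Complex.star_def,
        Complex.conj_re, Complex.conj_im]
      ring
    rw [e1, hz, hx]; ring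
  have h2 : ‖x - z‖ ^ 2 < (1 / 10) ^ 2 := by rw [h1]; linarith
  exact lt_of_pow_lt_pow_left₀ 2 (by norm_num) h2

variable {n : ℕ} [NeZero n]

open Classical in
theorem bad_card (χ : DirichletCharacter ℂ n) (g : (ZMod n)ˣ) (hg : χ g ^ 9 = 1)
    (hg3 : χ g ^ 3 ≠ 1) (z : ℂ) (hz : ‖z‖ = 1) :
    9 * ((univ : Finset (ZMod n)ˣ).filter (fun b : (ZMod n)ˣ => 1 - 1 / 200 < (star z * χ (b : ZMod n)).re)).card ≤
      n.totient := by
  set S := (univ : Finset (ZMod n)ˣ).filter (fun b : (ZMod n)ˣ => 1 - 1 / 200 < (star z * χ (b : ZMod n)).re) with hS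
  have hord : orderOf (χ (g : ZMod n)) = 9 := by
    have := orderOf_eq_prime_pow (x := χ (g : ZMod n)) (p := 3) (n := 1)
      (by rw [pow_one]; exact hg3) (by norm_num; exact hg)
    simpa using this
  have hinj : ∀ i j : ℕ, i < j → j < 9 → ∀ b ∈ S, ∀ b' ∈ S, g ^ i * b = g ^ j * b' → False := by
    intro i j hij hj b hb b' hb' he
    rw [hS, mem_filter] at hb hb'
    have h1 : b = g ^ (j - i) * b' := by
      have : g ^ j = g ^ i * g ^ (j - i) := by rw [← pow_add]; congr 1; omega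
      rw [this, mul_assoc] at he
      exact mul_left_cancel he
    set w : ℂ := χ (g : ZMod n) ^ (j - i) with hw
    have h2 : χ (b : ZMod n) = w * χ (b' : ZMod n) := by
      rw [h1, Units.val_mul, map_mul, Units.val_pow_eq_pow_val, map_pow]
    have hw9 : w ^ 9 = 1 := by
      rw [hw, ← pow_mul, mul_comm, pow_mul, hg, one_pow]
    have hw1 : w ≠ 1 := by
      intro h
      have h3 := orderOf_dvd_of_pow_eq_one h
      rw [hord] at h3
      have := Nat.le_of_dvd (by omega) h3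
      omega
    have h4 := root9 w hw9 hw1
    have n1 := DirichletCharacter.unit_norm_eq_one χ b
    have n2 := DirichletCharacter.unit_norm_eq_one χ b'
    have h5 := near z _ hz n1 hb.2
    have h6 := near z _ hz n2 hb'.2
    have h7 : ‖χ (b : ZMod n) - χ (b' : ZMod n)‖ = ‖w - 1‖ := by
      rw [h2, show w * χ (b' : ZMod n) - χ (b' : ZMod n) = (w - 1) * χ (b' : ZMod n) by ring,
        norm_mul, n2, mul_one]
    have h8 : ‖χ (b : ZMod n) - χ (b' : ZMod n)‖ ≤ ‖χ (b : ZMod n) - z‖ + ‖χ (b' : ZMod n) - z‖ := by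
      have e : χ (b : ZMod n) - χ (b' : ZMod n) =
        (χ (b : ZMod n) - z) - (χ (b' : ZMod n) - z) := by ring
      rw [e]
      exact norm_sub_le _ _
    linarith
  have hcard : ((range 9) ×ˢ S).card ≤ (univ : Finset (ZMod n)ˣ).card := by
    refine Finset.card_le_card_of_injOn (fun x => g ^ x.1 * x.2) (fun _ _ => Finset.mem_coe.2 (mem_univ _)) ?_
    rintro ⟨i, b⟩ hx ⟨j, b'⟩ hx' he
    rw [mem_coe, mem_product, mem_range] at hx hx'
    simp only at hx hx' he
    rcases lt_trichotomy i j with h | h | h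
    · exact (hinj i j h hx'.1 b hx.2 b' hx'.2 he).elim
    · subst h
      rw [mul_left_cancel he]
    · exact (hinj j i h hx.1 b' hx'.2 b hx.2 he.symm).elim
  rw [card_product, card_range, card_univ, ZMod.card_units_eq_totient] at hcard
  exact hcard

open Classical in
theorem case1 (χ : DirichletCharacter ℂ n) (g : (ZMod n)ˣ) (hg : χ g ^ 9 = 1)
    (hg3 : χ g ^ 3 ≠ 1) (V : Finset ℕ) (hV : ∀ q ∈ V, q.Coprime n)
    (hC : ∀ b : ZMod n, ((V.filter (fun q : ℕ => (q : ZMod n) = b)).card : ℝ) * n.totient ≤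
      5 * V.card) : ‖cs χ V‖ ≤ (1 - 1 / 500) * V.card := by
  rcases eq_or_ne (cs χ V) 0 with h0 | h0
  · rw [h0, norm_zero]
    positivity
  have hr0 : 0 < ‖cs χ V‖ := norm_pos_iff.2 h0
  set z : ℂ := cs χ V / ‖cs χ V‖ with hz
  have hz1 : ‖z‖ = 1 := by
    rw [hz, norm_div, Complex.norm_real, norm_norm, div_self hr0.ne']
  have hzc : star z * cs χ V = ((‖cs χ V‖ : ℝ) : ℂ) := by
    have hne : ((‖cs χ V‖ : ℝ) : ℂ) ≠ 0 := by exact_mod_cast hr0.ne'
    have h1 : cs χ V = ((‖cs χ V‖ : ℝ) : ℂ) * z := by rw [hz]; field_simp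
    conv_lhs => rw [h1]
    have h2 : star z * z = 1 := by
      rw [Complex.star_def, Complex.conj_mul', hz1]; norm_num
    calc star z * (((‖cs χ V‖ : ℝ) : ℂ) * z) = ((‖cs χ V‖ : ℝ) : ℂ) * (star z * z) := by ring
      _ = _ := by rw [h2, mul_one]
  have hnorm : ‖cs χ V‖ = ∑ q ∈ V, (star z * χ (q : ZMod n)).re := by
    have h1 := congrArg Complex.re hzc
    rw [Complex.ofReal_re] at h1
    rw [← h1]
    unfold cs
    rw [Finset.mul_sum, Complex.re_sum]
  set Vb := V.filter (fun q : ℕ => 1 - 1 / 200 < (star z * χ (q : ZMod n)).re) with hVb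
  have hterm : ∀ q ∈ V, (star z * χ (q : ZMod n)).re ≤
      (1 - 1 / 200) + (if 1 - 1 / 200 < (star z * χ (q : ZMod n)).re then 1 / 200 else 0) := by
    intro q _
    split_ifs with h
    · have h1 := Complex.abs_re_le_norm (star z * χ (q : ZMod n))
      rw [norm_mul, norm_star, hz1, one_mul] at h1
      have h2 := DirichletCharacter.norm_le_one χ (q : ZMod n)
      have h3 := (abs_le.1 h1).2
      linarith
    · push Not at h
      linarith
  have hsum : ‖cs χ V‖ ≤ (1 - 1 / 200) * V.card + 1 / 200 * Vb.card := by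
    rw [hnorm]
    refine (Finset.sum_le_sum hterm).trans (le_of_eq ?_)
    rw [Finset.sum_add_distrib, Finset.sum_const, nsmul_eq_mul, ← Finset.sum_filter,
      Finset.sum_const, nsmul_eq_mul]
    ring
  -- the bad ones
  set S := (univ : Finset (ZMod n)ˣ).filter (fun b : (ZMod n)ˣ => 1 - 1 / 200 < (star z * χ (b : ZMod n)).re) with hS
  have hbad := bad_card χ g hg hg3 z hz1
  rw [← hS] at hbad
  have hn0 : 0 < n.totient := Nat.totient_pos.2 (Nat.pos_of_ne_zero (NeZero.ne n))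
  have hsub : Vb ⊆ S.biUnion (fun b => V.filter (fun q : ℕ => (q : ZMod n) = (b : ZMod n))) := by
    intro q hq
    rw [hVb, mem_filter] at hq
    have hu : IsUnit ((q : ℕ) : ZMod n) := (ZMod.isUnit_iff_coprime q n).2 (hV q hq.1)
    obtain ⟨u, hu⟩ := hu
    rw [mem_biUnion]
    refine ⟨u, ?_, ?_⟩
    · rw [hS, mem_filter]
      refine ⟨mem_univ _, ?_⟩
      rw [hu]; exact hq.2
    · rw [mem_filter]
      exact ⟨hq.1, hu.symm⟩
  have hcard : (Vb.card : ℝ) ≤ 5 / 9 * V.card := by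
    have h1 : (Vb.card : ℝ) ≤ ∑ b ∈ S,
        ((V.filter (fun q : ℕ => (q : ZMod n) = (b : ZMod n))).card : ℝ) := by
      have := (Finset.card_le_card hsub).trans Finset.card_biUnion_le
      exact_mod_cast this
    have h2 : (Vb.card : ℝ) * n.totient ≤ (S.card : ℝ) * (5 * V.card) := by
      calc (Vb.card : ℝ) * n.totient ≤ (∑ b ∈ S,
            ((V.filter (fun q : ℕ => (q : ZMod n) = (b : ZMod n))).card : ℝ)) * n.totient := by
            gcongr
        _ = ∑ b ∈ S, ((V.filter (fun q : ℕ => (q : ZMod n) = (b : ZMod n))).card : ℝ) *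
              n.totient := by rw [Finset.sum_mul]
        _ ≤ ∑ b ∈ S, 5 * (V.card : ℝ) := Finset.sum_le_sum fun b _ => hC _
        _ = (S.card : ℝ) * (5 * V.card) := by rw [Finset.sum_const, nsmul_eq_mul]
    have h3 : 9 * (S.card : ℝ) ≤ n.totient := by exact_mod_cast hbad
    have h4 : (0 : ℝ) < n.totient := by exact_mod_cast hn0
    have h5 : (Vb.card : ℝ) * n.totient ≤ (5 / 9 * V.card) * n.totient := by
      calc (Vb.card : ℝ) * n.totient ≤ (S.card : ℝ) * (5 * V.card) := h2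
        _ ≤ (n.totient / 9) * (5 * V.card) := by
            apply mul_le_mul_of_nonneg_right _ (mul_nonneg (by norm_num) (Nat.cast_nonneg _))
            rw [le_div_iff₀ (by norm_num), mul_comm]
            exact h3
        _ = _ := by ring
    exact le_of_mul_le_mul_right h5 h4
  have hv0 : (0 : ℝ) ≤ V.card := Nat.cast_nonneg _
  linarith

/-- existence of an element of order 9 in the image -/
theorem exists_g (κ : ℕ) (χ : DirichletCharacter ℂ (3 ^ κ)) (h6 : χ ^ 6 ≠ 1) :
    ∃ g : (ZMod (3 ^ κ))ˣ, χ g ^ 9 = 1 ∧ χ g ^ 3 ≠ 1 := by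
  obtain ⟨u, hu⟩ : ∃ u : (ZMod (3 ^ κ))ˣ, χ u ^ 6 ≠ 1 := by
    by_contra hcon
    push Not at hcon
    apply h6
    ext u
    rw [MulChar.pow_apply_coe, hcon u, MulChar.one_apply_coe]
  set x : ℂ := χ (u : ZMod (3 ^ κ)) with hx
  have hxt : x ^ (3 ^ κ).totient = 1 := by
    have h1 : u ^ (3 ^ κ).totient = 1 := ZMod.pow_totient u
    have h2 : χ ((u ^ (3 ^ κ).totient : (ZMod (3 ^ κ))ˣ) : ZMod (3 ^ κ)) = 1 := by
      rw [h1]; simp
    rw [Units.val_pow_eq_pow_val, map_pow] at h2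
    exact h2
  have hod : orderOf x ∣ 2 * 3 ^ κ := by
    have h1 := orderOf_dvd_of_pow_eq_one hxt
    refine h1.trans ?_
    rcases Nat.eq_zero_or_pos κ with h | h
    · subst h
      have e : (3 ^ 0).totient = 1 := by decide
      rw [e]
      exact one_dvd _
    · rw [Nat.totient_prime_pow Nat.prime_three h]
      rw [mul_comm]
      exact mul_dvd_mul (by norm_num) (pow_dvd_pow 3 (Nat.sub_le _ _))
  have ho6 : ¬ orderOf x ∣ 6 := fun h => hu (orderOf_dvd_iff_pow_eq_one.1 h)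
  have ho9 : 9 ∣ orderOf x := by
    obtain ⟨a, b, ha, hb, hab⟩ := (Nat.dvd_mul).1 hod
    obtain ⟨j, hj, rfl⟩ := (Nat.dvd_prime_pow Nat.prime_three).1 hb
    by_cases hj2 : 2 ≤ j
    · rw [← hab]
      exact Dvd.dvd.mul_left (by
        calc 9 = 3 ^ 2 := by norm_num
          _ ∣ 3 ^ j := pow_dvd_pow 3 hj2) a
    · exfalso
      apply ho6
      rw [← hab]
      have : 3 ^ j ∣ 3 := by
        calc 3 ^ j ∣ 3 ^ 1 := pow_dvd_pow 3 (by omega)
          _ = 3 := pow_one 3
      calc a * 3 ^ j ∣ 2 * 3 := mul_dvd_mul ha this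
        _ = 6 := by norm_num
  have ho0 : 0 < orderOf x := by
    rcases Nat.eq_zero_or_pos (orderOf x) with h | h
    · exfalso
      rw [h] at hod
      have := Nat.eq_zero_of_zero_dvd hod
      have h3 : 0 < 2 * 3 ^ κ := by positivity
      omega
    · exact h
  obtain ⟨m, hm⟩ := ho9
  refine ⟨u ^ m, ?_, ?_⟩
  · rw [Units.val_pow_eq_pow_val, map_pow, ← hx, ← pow_mul, mul_comm, ← hm, pow_orderOf_eq_one]
  · rw [Units.val_pow_eq_pow_val, map_pow, ← hx, ← pow_mul]
    apply pow_ne_one_of_lt_orderOf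
    · omega
    · omega

/-- case 2: characters of order dividing 6 factor through the modulus 9 -/
theorem factors (κ : ℕ) (hκ : 2 ≤ κ) (χ : DirichletCharacter ℂ (3 ^ κ)) (h6 : χ ^ 6 = 1) :
    ∃ (hd : 9 ∣ 3 ^ κ) (χ0 : DirichletCharacter ℂ 9), χ = DirichletCharacter.changeLevel hd χ0 := by
  classical
  have hd : 9 ∣ 3 ^ κ := by
    calc 9 = 3 ^ 2 := by norm_num
      _ ∣ 3 ^ κ := pow_dvd_pow 3 hκ
  have hcyc : IsCyclic (ZMod (3 ^ κ))ˣ := by
    have := (ZMod.isCyclic_units_iff_of_odd (n := 3 ^ κ) (Odd.pow (by decide))).2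
      ⟨3, κ, Nat.prime_three, by decide, rfl⟩
    exact this
  set G := (ZMod (3 ^ κ))ˣ with hG
  set φ : G →* G := powMonoidHom 6 with hφ
  set π : G →* (ZMod 9)ˣ := ZMod.unitsMap hd with hπ
  have hle : φ.range ≤ π.ker := by
    rintro _ ⟨x, rfl⟩
    rw [MonoidHom.mem_ker, hφ, powMonoidHom_apply, map_pow]
    have h1 : (π x) ^ (Nat.totient 9) = 1 := ZMod.pow_totient _
    have h2 : Nat.totient 9 = 6 := by decide
    rwa [h2] at h1
  have hcard : Nat.card π.ker ≤ Nat.card φ.range := by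
    have h1 : Nat.card π.ker * Nat.card π.range = Nat.card G := by
      rw [← Subgroup.card_mul_index π.ker, Subgroup.index_ker]
    have h2 : Nat.card φ.ker * Nat.card φ.range = Nat.card G := by
      rw [← Subgroup.card_mul_index φ.ker, Subgroup.index_ker]
    have h3 : Nat.card π.range = 6 := by
      have : π.range = ⊤ := MonoidHom.range_eq_top.2 (ZMod.unitsMap_surjective hd)
      rw [this, Subgroup.card_top, Nat.card_eq_fintype_card, ZMod.card_units_eq_totient]
      decide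
    have h4 : Nat.card φ.ker ≤ 6 := by
      have h5 := IsCyclic.card_pow_eq_one_le (α := G) (n := 6) (by norm_num)
      refine le_trans (le_of_eq ?_) h5
      rw [Nat.card_eq_fintype_card]
      refine Fintype.card_of_subtype _ ?_
      intro x
      rw [mem_filter, MonoidHom.mem_ker, hφ, powMonoidHom_apply]
      simp
    have h6 : Nat.card π.ker * 6 = Nat.card φ.ker * Nat.card φ.range := by
      rw [h2, ← h1, h3]
    nlinarith
  have heq : φ.range = π.ker := Subgroup.eq_of_le_of_card_ge hle hcard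
  refine ⟨hd, ?_⟩
  have hf : DirichletCharacter.FactorsThrough χ 9 := by
    rw [DirichletCharacter.factorsThrough_iff_ker_unitsMap hd, ← hπ, ← heq]
    rintro _ ⟨x, rfl⟩
    rw [MonoidHom.mem_ker, hφ, powMonoidHom_apply, map_pow]
    ext
    rw [Units.val_pow_eq_pow_val]
    have h7 : (χ ^ 6) (x : ZMod (3 ^ κ)) = 1 := by
      rw [h6]; simp
    rw [MulChar.pow_apply_coe] at h7
    exact h7
  exact ⟨hf.χ₀, hf.eq_changeLevel⟩

open Classical in
/-- **nonprincipal characters modulo `3 ^ κ` are not almost constant** -/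
theorem main (κ : ℕ) (hκ : 2 ≤ κ) (V : Finset ℕ) (hV : ∀ q ∈ V, q.Coprime 3)
    (hC : ∀ b : ZMod (3 ^ κ), ((V.filter (fun q : ℕ => (q : ZMod (3 ^ κ)) = b)).card : ℝ) *
      (3 ^ κ).totient ≤ 5 * V.card)
    (h9 : ∀ b : ZMod 9, IsUnit b →
      |((V.filter (fun q : ℕ => (q : ZMod 9) = b)).card : ℝ) - V.card / 6| ≤ V.card / 100)
    (χ : DirichletCharacter ℂ (3 ^ κ)) (hχ : χ ≠ 1) : ‖cs χ V‖ ≤ (1 - 1 / 500) * V.card := by
  have hV' : ∀ q ∈ V, q.Coprime (3 ^ κ) := fun q hq => Nat.Coprime.pow_right κ (hV q hq)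
  by_cases h6 : χ ^ 6 = 1
  · obtain ⟨hd, χ0, hχ0⟩ := factors κ hκ χ h6
    have hne : χ0 ≠ 1 := by
      rintro rfl
      apply hχ
      rw [hχ0, DirichletCharacter.changeLevel_one]
    have e1 : cs χ V = ∑ q ∈ V, χ0 (q : ZMod 9) := by
      unfold cs
      refine Finset.sum_congr rfl fun q hq => ?_
      obtain ⟨u, hu⟩ := (ZMod.isUnit_iff_coprime q (3 ^ κ)).2 (hV' q hq)
      rw [← hu, hχ0, DirichletCharacter.changeLevel_eq_cast_of_dvd, hu, ZMod.cast_natCast hd]
    have e2 : ∑ q ∈ V, χ0 (q : ZMod 9) = ∑ b : ZMod 9,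
        (((V.filter (fun q : ℕ => (q : ZMod 9) = b)).card : ℝ) - V.card / 6 : ℝ) * χ0 b := by
      have h1 : ∑ q ∈ V, χ0 (q : ZMod 9) = ∑ b : ZMod 9,
          ((V.filter (fun q : ℕ => (q : ZMod 9) = b)).card : ℂ) * χ0 b := by
        rw [← Finset.sum_fiberwise V (fun q : ℕ => (q : ZMod 9))]
        refine Finset.sum_congr rfl fun b _ => ?_
        rw [Finset.sum_congr rfl (g := fun _ => χ0 b)]
        · rw [Finset.sum_const, nsmul_eq_mul]
        · intro q hq
          rw [(mem_filter.1 hq).2]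
      have h2 : ∑ b : ZMod 9, χ0 b = 0 := MulChar.sum_eq_zero_of_ne_one hne
      rw [h1]
      have h3 : ∀ b : ZMod 9, ((((V.filter (fun q : ℕ => (q : ZMod 9) = b)).card : ℝ) -
          V.card / 6 : ℝ) : ℂ) * χ0 b =
          ((V.filter (fun q : ℕ => (q : ZMod 9) = b)).card : ℂ) * χ0 b - (V.card / 6 : ℂ) * χ0 b := by
        intro b
        push_cast
        ring
      rw [Finset.sum_congr rfl fun b _ => h3 b, Finset.sum_sub_distrib, ← Finset.mul_sum, h2]
      ring
    rw [e1, e2]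
    have h4 : ∀ b : ZMod 9, ‖(((((V.filter (fun q : ℕ => (q : ZMod 9) = b)).card : ℝ) -
          V.card / 6 : ℝ) : ℂ) * χ0 b)‖ ≤ (V.card : ℝ) / 100 := by
      intro b
      rw [norm_mul, Complex.norm_real, Real.norm_eq_abs]
      by_cases hb : IsUnit b
      · have h5 := h9 b hb
        have h7 := DirichletCharacter.norm_le_one χ0 b
        calc |((V.filter (fun q : ℕ => (q : ZMod 9) = b)).card : ℝ) - V.card / 6| * ‖χ0 b‖
            ≤ (V.card / 100) * 1 := by
              apply mul_le_mul h5 h7 (norm_nonneg _) (by positivity)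
          _ = _ := by ring
      · rw [MulChar.map_nonunit χ0 hb, norm_zero, mul_zero]
        positivity
    have h5 := (norm_sum_le (univ : Finset (ZMod 9)) (fun b : ZMod 9 =>
      (((((V.filter (fun q : ℕ => (q : ZMod 9) = b)).card : ℝ) -
          V.card / 6 : ℝ) : ℂ) * χ0 b))).trans (Finset.sum_le_sum fun b _ => h4 b)
    rw [Finset.sum_const, card_univ, ZMod.card, nsmul_eq_mul] at h5
    refine h5.trans ?_
    have h0 : (0 : ℝ) ≤ V.card := Nat.cast_nonneg _
    push_cast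
    linarith
  · obtain ⟨g, hg, hg3⟩ := exists_g κ χ h6
    exact case1 χ g hg hg3 V hV' hC

end Pool.Agent.NH75.PC.NP
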