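import Pool.Agent.NH75.PC.Stm
import Pool.Agent.NH75.PC.NP
import Pool.Agent.NH75.PC.AN
import Pool.Agent.H307R2.OP.T1

set_option autoImplicit false

/-!
# Lower bound for the number of tuples in a class modulo `3 ^ κ`
-/

namespace Pool.Agent.NH75.PC.Low

open Finset Pool.Agent.H307R2.OP

/-! ### non-injective functions -/

theorem noninj_pair (B : ℕ) (V : Finset ℕ) (i j : Fin B) (hij : i ≠ j) :
    ((Fintype.piFinset (fun _ : Fin B => V)).filter (fun q : Fin B → ℕ => q i = q j)).card ≤
      V.card ^ (B - 1) := by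
  classical
  have h : ((Fintype.piFinset (fun _ : Fin B => V)).filter (fun q : Fin B → ℕ => q i = q j)).card ≤
      (Fintype.piFinset (fun _ : {l : Fin B // l ≠ i} => V)).card := by
    refine Finset.card_le_card_of_injOn (fun q l => q l.1) ?_ ?_
    · intro q hq
      rw [mem_coe, mem_filter, Fintype.mem_piFinset] at hq
      rw [mem_coe, Fintype.mem_piFinset]
      exact fun l => hq.1 l.1
    · intro q hq q' hq' he
      rw [mem_coe, mem_filter] at hq hq'
      funext l
      by_cases hl : l = i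
      · subst hl
        rw [hq.2, hq'.2]
        exact congrFun he ⟨j, fun h => hij h.symm⟩
      · exact congrFun he ⟨l, hl⟩
  refine h.trans (le_of_eq ?_)
  rw [Fintype.card_piFinset, Finset.prod_const, card_univ, Fintype.card_subtype_compl]
  simp

theorem noninj (B : ℕ) (V : Finset ℕ) :
    ((Fintype.piFinset (fun _ : Fin B => V)).filter
      (fun q : Fin B → ℕ => ¬ Function.Injective q)).card ≤ B ^ 2 * V.card ^ (B - 1) := by
  classical
  have hsub : (Fintype.piFinset (fun _ : Fin B => V)).filter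
      (fun q : Fin B → ℕ => ¬ Function.Injective q) ⊆
      ((univ : Finset (Fin B × Fin B)).filter (fun x => x.1 ≠ x.2)).biUnion (fun x =>
        (Fintype.piFinset (fun _ : Fin B => V)).filter (fun q : Fin B → ℕ => q x.1 = q x.2)) := by
    intro q hq
    rw [mem_filter] at hq
    obtain ⟨hq1, hq2⟩ := hq
    unfold Function.Injective at hq2
    push Not at hq2
    obtain ⟨i, j, he, hij⟩ := hq2
    rw [mem_biUnion]
    exact ⟨(i, j), by simp [hij], by rw [mem_filter]; exact ⟨hq1, he⟩⟩
  refine (card_le_card hsub).trans (card_biUnion_le.trans ?_)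
  calc ∑ x ∈ (univ : Finset (Fin B × Fin B)).filter (fun x => x.1 ≠ x.2),
        ((Fintype.piFinset (fun _ : Fin B => V)).filter (fun q : Fin B → ℕ => q x.1 = q x.2)).card
      ≤ ∑ _x ∈ (univ : Finset (Fin B × Fin B)).filter (fun x => x.1 ≠ x.2), V.card ^ (B - 1) :=
        Finset.sum_le_sum fun x hx => noninj_pair B V x.1 x.2 (mem_filter.1 hx).2
    _ ≤ ∑ _x : Fin B × Fin B, V.card ^ (B - 1) :=
        Finset.sum_le_sum_of_subset (filter_subset _ _)
    _ = B ^ 2 * V.card ^ (B - 1) := by
        rw [Finset.sum_const, card_univ, Fintype.card_prod, Fintype.card_fin, smul_eq_mul, sq]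

open Classical in
/-- solutions with distinct `q_i` -/
theorem inj_count (n : ℕ) [NeZero n] (B : ℕ) (hB : 1 ≤ B) (V P : Finset ℕ)
    (hV : ∀ q ∈ V, q.Coprime n) (hP : ∀ q ∈ P, q.Coprime n) (ρ : ℝ) (hρ0 : 0 ≤ ρ)
    (hCV : ∀ b : ZMod n, ((V.filter (fun q : ℕ => (q : ZMod n) = b)).card : ℝ) * n.totient ≤
      60 * V.card)
    (hCP : ∀ b : ZMod n, ((P.filter (fun q : ℕ => (q : ZMod n) = b)).card : ℝ) * n.totient ≤
      60 * P.card)
    (hρ : ∀ χ : DirichletCharacter ℂ n, χ ≠ 1 → ‖Mix.cs χ V‖ ≤ ρ * V.card)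
    (hsmall : 60 * ρ ^ (B - 1) ≤ 1 / 4) (hbig : 240 * (B : ℝ) ^ 2 ≤ V.card)
    (b : ZMod n) (hb : IsUnit b) :
    (V.card : ℝ) ^ B * P.card * (1 / 2) ≤ (n.totient : ℝ) *
      (((((Fintype.piFinset (fun _ : Fin B => V)) ×ˢ P).filter
      (fun x : (Fin B → ℕ) × ℕ => b = (∏ i, ((x.1 i : ℕ) : ZMod n)) * (x.2 : ZMod n))).filter
        (fun x => Function.Injective x.1)).card : ℝ) := by
  have hm := Mix.mix B hB V P hV hP 60 ρ (by norm_num) hρ0 hCV hCP hρ b hb
  set Z := ((Fintype.piFinset (fun _ : Fin B => V)) ×ˢ P).filter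
      (fun x : (Fin B → ℕ) × ℕ => b = (∏ i, ((x.1 i : ℕ) : ZMod n)) * (x.2 : ZMod n)) with hZ
  have hsplit : (Z.card : ℝ) = ((Z.filter (fun x => Function.Injective x.1)).card : ℝ) +
      ((Z.filter (fun x => ¬ Function.Injective x.1)).card : ℝ) := by
    have := Finset.card_filter_add_card_filter_not (s := Z)
      (fun x : (Fin B → ℕ) × ℕ => Function.Injective x.1)
    rw [← this]
    push_cast
    rfl
  have hv0 : (0 : ℝ) < V.card := by
    have : (1 : ℝ) ≤ B := by exact_mod_cast hB
    nlinarith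
  -- the non-injective ones
  have hnon : (n.totient : ℝ) * ((Z.filter (fun x => ¬ Function.Injective x.1)).card : ℝ) ≤
      ((B : ℝ) ^ 2 * (V.card : ℝ) ^ (B - 1)) * (60 * P.card) := by
    set F := (Fintype.piFinset (fun _ : Fin B => V)).filter
      (fun q : Fin B → ℕ => ¬ Function.Injective q) with hF
    have hsub : Z.filter (fun x => ¬ Function.Injective x.1) ⊆
        (F ×ˢ P).filter (fun x : (Fin B → ℕ) × ℕ =>
          b = (∏ i, ((x.1 i : ℕ) : ZMod n)) * (x.2 : ZMod n)) := by
      intro x hx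
      rw [mem_filter, hZ, mem_filter, mem_product] at hx
      rw [mem_filter, mem_product, hF, mem_filter]
      exact ⟨⟨⟨hx.1.1.1, hx.2⟩, hx.1.1.2⟩, hx.1.2⟩
    have h1 : ((F ×ˢ P).filter (fun x : (Fin B → ℕ) × ℕ =>
          b = (∏ i, ((x.1 i : ℕ) : ZMod n)) * (x.2 : ZMod n))).card =
        ∑ q ∈ F, (P.filter (fun p : ℕ => b = (∏ i, ((q i : ℕ) : ZMod n)) * (p : ZMod n))).card := by
      rw [Finset.card_filter, Finset.sum_product]
      exact Finset.sum_congr rfl fun q _ => (Finset.card_filter _ _).symm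
    have h2 : ∀ q ∈ F, (n.totient : ℝ) *
        ((P.filter (fun p : ℕ => b = (∏ i, ((q i : ℕ) : ZMod n)) * (p : ZMod n))).card : ℝ) ≤
        60 * P.card := by
      intro q hq
      rw [hF, mem_filter, Fintype.mem_piFinset] at hq
      have hu : IsUnit (∏ i, ((q i : ℕ) : ZMod n)) := by
        rw [← Nat.cast_prod, ZMod.isUnit_iff_coprime]
        exact Nat.Coprime.prod_left fun i _ => hV _ (hq.1 i)
      obtain ⟨u, hu⟩ := hu
      have h3 : P.filter (fun p : ℕ => b = (∏ i, ((q i : ℕ) : ZMod n)) * (p : ZMod n)) ⊆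
          P.filter (fun p : ℕ => (p : ZMod n) = (u⁻¹ : (ZMod n)ˣ) * b) := by
        intro p hp
        rw [mem_filter] at hp ⊢
        refine ⟨hp.1, ?_⟩
        rw [hp.2, ← hu, ← mul_assoc, Units.inv_mul, one_mul]
      have h4 := hCP ((u⁻¹ : (ZMod n)ˣ) * b)
      have h5 : ((P.filter (fun p : ℕ => b = (∏ i, ((q i : ℕ) : ZMod n)) * (p : ZMod n))).card : ℝ) ≤
          ((P.filter (fun p : ℕ => (p : ZMod n) = (u⁻¹ : (ZMod n)ˣ) * b)).card : ℝ) := by
        exact_mod_cast card_le_card h3
      rw [mul_comm]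
      exact (mul_le_mul_of_nonneg_right h5 (Nat.cast_nonneg _)).trans h4
    have h6 : ((Z.filter (fun x => ¬ Function.Injective x.1)).card : ℝ) ≤
        ∑ q ∈ F, ((P.filter (fun p : ℕ =>
          b = (∏ i, ((q i : ℕ) : ZMod n)) * (p : ZMod n))).card : ℝ) := by
      have := card_le_card hsub
      rw [h1] at this
      exact_mod_cast this
    calc (n.totient : ℝ) * ((Z.filter (fun x => ¬ Function.Injective x.1)).card : ℝ)
        ≤ (n.totient : ℝ) * ∑ q ∈ F, ((P.filter (fun p : ℕ =>
          b = (∏ i, ((q i : ℕ) : ZMod n)) * (p : ZMod n))).card : ℝ) :=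
          mul_le_mul_of_nonneg_left h6 (Nat.cast_nonneg _)
      _ = ∑ q ∈ F, (n.totient : ℝ) * ((P.filter (fun p : ℕ =>
          b = (∏ i, ((q i : ℕ) : ZMod n)) * (p : ZMod n))).card : ℝ) := by rw [Finset.mul_sum]
      _ ≤ ∑ q ∈ F, 60 * (P.card : ℝ) := Finset.sum_le_sum h2
      _ = (F.card : ℝ) * (60 * P.card) := by rw [Finset.sum_const, nsmul_eq_mul]
      _ ≤ ((B : ℝ) ^ 2 * (V.card : ℝ) ^ (B - 1)) * (60 * P.card) := by
          apply mul_le_mul_of_nonneg_right _ (mul_nonneg (by norm_num) (Nat.cast_nonneg _))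
          have := noninj B V
          exact_mod_cast this
  have hpow : (V.card : ℝ) ^ B = (V.card : ℝ) ^ (B - 1) * V.card := by
    obtain ⟨k, rfl⟩ : ∃ k, B = k + 1 := ⟨B - 1, by omega⟩
    rw [Nat.add_sub_cancel, pow_succ]
  have hp0 : (0 : ℝ) ≤ P.card := Nat.cast_nonneg _
  have h7 : ((B : ℝ) ^ 2 * (V.card : ℝ) ^ (B - 1)) * (60 * P.card) ≤
      (V.card : ℝ) ^ B * P.card * (1 / 4) := by
    rw [hpow]
    have h8 : 0 ≤ (V.card : ℝ) ^ (B - 1) * P.card := by positivity
    nlinarith
  have h9 : (V.card : ℝ) ^ B * P.card * (3 / 4) ≤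
      (V.card : ℝ) ^ B * P.card * (1 - 60 * ρ ^ (B - 1)) := by
    apply mul_le_mul_of_nonneg_left _ (by positivity)
    linarith
  rw [hsplit, mul_add] at hm
  linarith

/-! ### the configuration with fewer primes in one block -/

variable {M : ℕ}

/-- `B` primes fewer in the block `j0` -/
def less (g : Cfg M) (j0 : Fin M) (B : ℕ) : Cfg M :=
  { g with k := Function.update g.k j0 (g.k j0 - B) }

/-- add the values of `q` to the block `j0` -/
def addq (j0 : Fin M) (B : ℕ) (A : Fin M → Finset ℕ) (q : Fin B → ℕ) : Fin M → Finset ℕ :=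
  Function.update A j0 (A j0 ∪ univ.image q)

theorem prod_split (j0 : Fin M) (A : Fin M → Finset ℕ) :
    ∏ j, ∏ q ∈ A j, q = (∏ q ∈ A j0, q) * ∏ j ∈ univ.erase j0, ∏ q ∈ A j, q :=
  (Finset.mul_prod_erase univ _ (mem_univ j0)).symm

theorem Q_addq (g : Cfg M) (j0 : Fin M) (B : ℕ) (A : Fin M → Finset ℕ) (q : Fin B → ℕ)
    (hq : Function.Injective q) (hd : ∀ i, q i ∉ A j0) :
    g.Q (addq j0 B A q) = g.Q A * ∏ i, q i := by
  classical
  unfold Cfg.Q
  rw [prod_split j0 A, prod_split j0 (addq j0 B A q)]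
  have h1 : ∏ j ∈ univ.erase j0, ∏ q ∈ addq j0 B A q j, q = ∏ j ∈ univ.erase j0, ∏ q ∈ A j, q := by
    refine Finset.prod_congr rfl fun j hj => ?_
    unfold addq
    rw [Function.update_of_ne (ne_of_mem_erase hj)]
  have h2 : ∏ q ∈ addq j0 B A q j0, q = (∏ q ∈ A j0, q) * ∏ i, q i := by
    unfold addq
    rw [Function.update_self, prod_union, Finset.prod_image (fun a _ b _ h => hq h)]
    rw [Finset.disjoint_left]
    intro x hx hx2
    obtain ⟨i, -, rfl⟩ := mem_image.1 hx2
    exact hd i hx
  rw [h1, h2]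
  ring

theorem addq_fam (g : Cfg M) (j0 : Fin M) (B : ℕ) (hB : B ≤ g.k j0) {A : Fin M → Finset ℕ}
    (hA : A ∈ (less g j0 B).Fam) (q : Fin B → ℕ) (hq : Function.Injective q)
    (hd : ∀ i, q i ∈ g.Blk j0 \ A j0) : addq j0 B A q ∈ g.Fam := by
  classical
  unfold Cfg.Fam at hA ⊢
  rw [Fintype.mem_piFinset] at hA ⊢
  intro j
  have hAj := mem_powersetCard.1 (hA j)
  have hAj1 : A j ⊆ g.Blk j := hAj.1
  rw [mem_powersetCard]
  by_cases hj : j = j0
  · subst hj
    have hk : (A j).card = g.k j - B := by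
      rw [hAj.2]
      unfold less
      simp
    unfold addq
    rw [Function.update_self]
    refine ⟨union_subset hAj1 ?_, ?_⟩
    · intro x hx
      obtain ⟨i, -, rfl⟩ := mem_image.1 hx
      exact (mem_sdiff.1 (hd i)).1
    · rw [card_union_of_disjoint, card_image_of_injective _ hq, card_univ, Fintype.card_fin, hk]
      · omega
      · rw [Finset.disjoint_left]
        intro x hx hx2
        obtain ⟨i, -, rfl⟩ := mem_image.1 hx2
        exact (mem_sdiff.1 (hd i)).2 hx
  · have hk : (A j).card = g.k j := by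
      rw [hAj.2]
      unfold less
      simp [Function.update_of_ne hj]
    unfold addq
    rw [Function.update_of_ne hj]
    exact ⟨hAj1, hk⟩

open Classical in
/-- the injection of the extended family into the tuples -/
theorem card_sigma_le (g : Cfg M) (j0 : Fin M) (B : ℕ) (hB : B ≤ g.k j0) (κ a : ℕ)
    (hR : 0 < g.Rp)
    (Z : (Fin M → Finset ℕ) → Finset ((Fin B → ℕ) × ℕ))
    (hZ : ∀ A ∈ (less g j0 B).Fam, ∀ x ∈ Z A, Function.Injective x.1 ∧
      (∀ i, x.1 i ∈ g.Blk j0 \ A j0) ∧ (x.2.Prime ∧ x.2 % 8 = g.c) ∧ 2 ^ (g.I / 2) < x.2 ∧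
      g.Rp * g.Q A * (∏ i, x.1 i) * x.2 ≤ 2 ^ g.I ∧
      (g.Rp * g.Q A * (∏ i, x.1 i) * x.2) % 3 ^ κ = a % 3 ^ κ) :
    ∑ A ∈ (less g j0 B).Fam, (Z A).card ≤ (TupA g κ a).card * g.k j0 ^ B := by
  rw [← card_sigma]
  have h1 : ((less g j0 B).Fam.sigma Z).card ≤
      ((TupA g κ a).sigma (fun t => Fintype.piFinset (fun _ : Fin B => t.1 j0))).card := by
    have hkey : ∀ x ∈ (less g j0 B).Fam.sigma Z, addq j0 B x.1 x.2.1 ∈ g.Fam ∧
        g.Q (addq j0 B x.1 x.2.1) = g.Q x.1 * ∏ i, x.2.1 i ∧ (∀ i, x.2.1 i ∉ x.1 j0) := by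
      rintro ⟨A, q, p⟩ hx
      rw [mem_sigma] at hx
      obtain ⟨hq1, hq2, -⟩ := hZ A hx.1 (q, p) hx.2
      exact ⟨addq_fam g j0 B hB hx.1 q hq1 hq2,
        Q_addq g j0 B A q hq1 (fun i => (mem_sdiff.1 (hq2 i)).2),
        fun i => (mem_sdiff.1 (hq2 i)).2⟩
    refine Finset.card_le_card_of_injOn
      (fun x => ⟨⟨addq j0 B x.1 x.2.1, x.2.2⟩, x.2.1⟩) ?_ ?_
    · intro x hx
      rw [mem_coe] at hx
      obtain ⟨k1, k2, k3⟩ := hkey x hx
      obtain ⟨A, q, p⟩ := x
      rw [mem_sigma] at hx
      obtain ⟨hq1, hq2, hq3, hq4, hq5, hq6⟩ := hZ A hx.1 (q, p) hx.2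
      simp only at k1 k2 k3 hq1 hq2 hq3 hq4 hq5 hq6
      rw [mem_coe, mem_sigma]
      constructor
      · unfold TupA
        rw [mem_filter]
        constructor
        · unfold Cfg.Tup
          rw [mem_sigma]
          refine ⟨k1, ?_⟩
          unfold Cfg.Pr
          simp only
          rw [mem_filter, mem_Ioc, k2]
          refine ⟨⟨hq4, ?_⟩, hq3⟩
          have hQpos : 0 < g.Rp * (g.Q A * ∏ i, q i) := by
            rcases Nat.eq_zero_or_pos (g.Rp * (g.Q A * ∏ i, q i)) with h | h
            · exfalso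
              rcases Nat.eq_zero_or_pos (g.Q A * ∏ i, q i) with h' | h'
              · rw [← k2] at h'
                have hpos : 0 < g.Q (addq j0 B A q) := by
                  unfold Cfg.Q
                  refine Finset.prod_pos fun j _ => Finset.prod_pos fun r hr => ?_
                  unfold Cfg.Fam at k1
                  rw [Fintype.mem_piFinset] at k1
                  have := (mem_powersetCard.1 (k1 j)).1 hr
                  unfold Cfg.Blk PB at this
                  rw [mem_sdiff, mem_filter] at this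
                  exact this.1.2.1.pos
                omega
              · have := Nat.mul_pos hR h'
                omega
            · exact h
          rw [Nat.le_div_iff_mul_le hQpos]
          calc p * (g.Rp * (g.Q A * ∏ i, q i)) = g.Rp * g.Q A * (∏ i, q i) * p := by ring
            _ ≤ 2 ^ g.I := hq5
        · unfold Cfg.N
          simp only
          rw [k2, ← mul_assoc]
          exact hq6
      · rw [Fintype.mem_piFinset]
        intro i
        simp only
        unfold addq
        rw [Function.update_self]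
        exact mem_union_right _ (mem_image_of_mem q (mem_univ i))
    · intro x hx x' hx' he
      rw [mem_coe] at hx hx'
      obtain ⟨k1, k2, k3⟩ := hkey x hx
      obtain ⟨k1', k2', k3'⟩ := hkey x' hx'
      obtain ⟨A, q, p⟩ := x
      obtain ⟨A', q', p'⟩ := x'
      simp only at k3 k3' he
      have e1 := (Sigma.mk.inj_iff.1 he).1
      have e2 : q = q' := eq_of_heq (Sigma.mk.inj_iff.1 he).2
      have e3 := (Sigma.mk.inj_iff.1 e1).1
      have e4 : p = p' := eq_of_heq (Sigma.mk.inj_iff.1 e1).2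
      subst e2
      subst e4
      have e5 : A = A' := by
        funext j
        by_cases hj : j = j0
        · subst hj
          have e6 := congrFun e3 j
          unfold addq at e6
          rw [Function.update_self, Function.update_self] at e6
          ext r
          constructor
          · intro hr
            have : r ∈ A' j ∪ univ.image q := by
              rw [← e6]; exact mem_union_left _ hr
            rcases mem_union.1 this with h | h
            · exact h
            · obtain ⟨i, -, rfl⟩ := mem_image.1 h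
              exact absurd hr (k3 i)
          · intro hr
            have : r ∈ A j ∪ univ.image q := by
              rw [e6]; exact mem_union_left _ hr
            rcases mem_union.1 this with h | h
            · exact h
            · obtain ⟨i, -, rfl⟩ := mem_image.1 h
              exact absurd hr (k3' i)
        · have e6 := congrFun e3 j
          unfold addq at e6
          rw [Function.update_of_ne hj, Function.update_of_ne hj] at e6
          exact e6
      rw [e5]
  refine h1.trans (le_of_eq ?_)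
  rw [card_sigma]
  have h2 : ∀ t ∈ TupA g κ a, (Fintype.piFinset (fun _ : Fin B => t.1 j0)).card = g.k j0 ^ B := by
    intro t ht
    unfold TupA at ht
    rw [mem_filter] at ht
    have hT := ht.1
    unfold Cfg.Tup at hT
    rw [mem_sigma] at hT
    have hF := hT.1
    unfold Cfg.Fam at hF
    rw [Fintype.mem_piFinset] at hF
    rw [Fintype.card_piFinset, Finset.prod_const, card_univ, Fintype.card_fin,
      (mem_powersetCard.1 (hF j0)).2]
  rw [Finset.sum_congr rfl h2, Finset.sum_const, smul_eq_mul]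

end Pool.Agent.NH75.PC.Low
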