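import Pool.Agent.NH75.PC.Low

set_option autoImplicit false

/-!
# Lower bound for the number of tuples in a class modulo `3 ^ κ`: the numerical part
-/

namespace Pool.Agent.NH75.PC.Low

open Finset Pool.Agent.H307R2.OP

variable {M : ℕ}

theorem W_less (g : Cfg M) (j0 : Fin M) (B : ℕ) (hB : B ≤ g.k j0) :
    (less g j0 B).W * g.S j0 ^ B = g.W * ((g.k j0).descFactorial B : ℝ) := by
  classical
  unfold Cfg.W
  rw [← Finset.mul_prod_erase univ _ (mem_univ j0),
    ← Finset.mul_prod_erase univ (fun j => g.S j ^ g.k j / ((g.k j).factorial : ℝ)) (mem_univ j0)]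
  have h1 : ∏ j ∈ univ.erase j0, ((less g j0 B).S j ^ (less g j0 B).k j /
      (((less g j0 B).k j).factorial : ℝ)) =
      ∏ j ∈ univ.erase j0, (g.S j ^ g.k j / ((g.k j).factorial : ℝ)) := by
    refine Finset.prod_congr rfl fun j hj => ?_
    have hk : (less g j0 B).k j = g.k j := by
      unfold less
      simp only
      rw [Function.update_of_ne (ne_of_mem_erase hj)]
    rw [hk]
    rfl
  have hk0 : (less g j0 B).k j0 = g.k j0 - B := by
    unfold less
    simp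
  have hS0 : (less g j0 B).S j0 = g.S j0 := rfl
  rw [h1, hk0, hS0]
  have hf : ((g.k j0).factorial : ℝ) = ((g.k j0 - B).factorial : ℝ) *
      ((g.k j0).descFactorial B : ℝ) := by
    rw [← Nat.factorial_mul_descFactorial hB]
    push_cast
    rfl
  have hp : g.S j0 ^ g.k j0 = g.S j0 ^ (g.k j0 - B) * g.S j0 ^ B := by
    rw [← pow_add]
    congr 1
    omega
  have hf1 : ((g.k j0 - B).factorial : ℝ) ≠ 0 := by exact_mod_cast Nat.factorial_ne_zero _
  have hf2 : ((g.k j0).descFactorial B : ℝ) ≠ 0 := by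
    have : 0 < (g.k j0).descFactorial B := Nat.descFactorial_pos.2 hB
    exact_mod_cast this.ne'
  rw [hf, hp]
  field_simp

theorem desc_ge (k B : ℕ) (h : 2 * B ≤ k) : ((k : ℝ) / 2) ^ B ≤ (k.descFactorial B : ℝ) := by
  have h1 : (k + 1 - B) ^ B ≤ k.descFactorial B := Nat.pow_sub_le_descFactorial k B
  have h2 : ((k + 1 - B : ℕ) : ℝ) ^ B ≤ (k.descFactorial B : ℝ) := by exact_mod_cast h1
  refine le_trans (pow_le_pow_left₀ (by positivity) ?_ B) h2
  have h3 : k ≤ 2 * (k + 1 - B) := by omega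
  have h4 : (k : ℝ) ≤ 2 * ((k + 1 - B : ℕ) : ℝ) := by exact_mod_cast h3
  linarith

/-- the product of a member of the smaller family -/
theorem RQ_le (g : Cfg M) (hg : g.Ok) (j0 : Fin M) (B : ℕ) (hB : B ≤ g.k j0)
    (hbig : g.k j0 ≤ (g.Blk j0).card) {A : Fin M → Finset ℕ} (hA : A ∈ (less g j0 B).Fam) :
    g.Rp * g.Q A ≤ 2 ^ (g.I / 8) := by
  classical
  unfold Cfg.Fam at hA
  rw [Fintype.mem_piFinset] at hA
  have hA0 := mem_powersetCard.1 (hA j0)
  have hk0 : (less g j0 B).k j0 = g.k j0 - B := by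
    unfold less
    simp
  have hA01 : A j0 ⊆ g.Blk j0 := hA0.1
  obtain ⟨X, hX1, hX2, hX3⟩ := Finset.exists_subsuperset_card_eq hA01
    (show (A j0).card ≤ g.k j0 by rw [hA0.2, hk0]; omega) hbig
  set A' := Function.update A j0 X with hA'
  have hA'F : A' ∈ g.Fam := by
    unfold Cfg.Fam
    rw [Fintype.mem_piFinset]
    intro j
    rw [mem_powersetCard]
    by_cases hj : j = j0
    · subst hj
      rw [hA', Function.update_self]
      exact ⟨hX2, hX3⟩
    · rw [hA', Function.update_of_ne hj]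
      have h1 := mem_powersetCard.1 (hA j)
      have hk : (less g j0 B).k j = g.k j := by
        unfold less
        simp only
        rw [Function.update_of_ne hj]
      rw [hk] at h1
      exact h1
  refine le_trans ?_ (hg.hRQ A' hA'F)
  apply Nat.mul_le_mul_left
  unfold Cfg.Q
  apply Finset.prod_le_prod'
  intro j _
  by_cases hj : j = j0
  · subst hj
    rw [hA', Function.update_self]
    apply Finset.prod_le_prod_of_subset_of_one_le' hX1
    intro q hq _
    have := hX2 hq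
    unfold Cfg.Blk PB at this
    rw [mem_sdiff, mem_filter] at this
    exact this.1.2.1.one_lt.le
  · rw [hA', Function.update_of_ne hj]

theorem sum_pos_Q (g : Cfg M) {A : Fin M → Finset ℕ} (hA : ∀ j, A j ⊆ g.Blk j) : 0 < g.Q A := by
  unfold Cfg.Q
  refine Finset.prod_pos fun j _ => Finset.prod_pos fun q hq => ?_
  have := hA j hq
  unfold Cfg.Blk PB at this
  rw [mem_sdiff, mem_filter] at this
  exact this.1.2.1.pos

theorem num_id (v t T r q I : ℝ) (ht : t ≠ 0) (hr : r ≠ 0) (hq : q ≠ 0) (hI : I ≠ 0) :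
    1 / 40 * (v / t) * (T / (r * I)) * (1 / q) =
      v * (1 / 20 * (T / (r * q * t * I))) * (1 / 2) := by
  field_simp
  ring

open Classical in
/-- the bound for one member of the smaller family -/
theorem one_family (hbt : BT4) (hpc : PCStmt) (B : ℕ) (hB : 1 ≤ B)
    (hρ : 60 * (1 - 1 / 500 : ℝ) ^ (B - 1) ≤ 1 / 4) : ∃ i0 : ℕ, ∀ (M : ℕ) (g : Cfg M)
    (j0 : Fin M), g.Ok → i0 ≤ g.κ j0 → g.κ j0 ≤ g.I → B ^ 2 + 2 * B ≤ g.k j0 →
    1000 * (g.k j0 + g.R.card) ≤ (PB (g.κ j0) 5).card →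
    100 * ((g.κ j0 + 1) * B) ≤ g.I → ∀ κ a : ℕ, 2 ≤ κ → a % 3 ≠ 0 →
    8 * 3 ^ κ ≤ 2 ^ (g.κ j0 / 50) → ∀ A ∈ (less g j0 B).Fam,
    ∃ Z : Finset ((Fin B → ℕ) × ℕ), (∀ x ∈ Z, Function.Injective x.1 ∧
      (∀ i, x.1 i ∈ g.Blk j0 \ A j0) ∧ (x.2.Prime ∧ x.2 % 8 = g.c) ∧ 2 ^ (g.I / 2) < x.2 ∧
      g.Rp * g.Q A * (∏ i, x.1 i) * x.2 ≤ 2 ^ g.I ∧
      (g.Rp * g.Q A * (∏ i, x.1 i) * x.2) % 3 ^ κ = a % 3 ^ κ) ∧
      1 / 40 * (g.S j0 / 4) ^ B * (2 ^ g.I / (g.Rp * g.I)) * (1 / (g.Q A : ℝ)) ≤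
        (Z.card : ℝ) * 3 ^ κ := by
  obtain ⟨i1, h1⟩ := AN.block_class hbt hpc
  obtain ⟨i2, h2⟩ := AN.block9 hpc (1 / 1000) (by norm_num)
  obtain ⟨i3, h3⟩ := AN.pr_class hbt hpc
  obtain ⟨i4, h4⟩ := AN.pr_low hpc
  refine ⟨i1 + i2 + i3 + i4 + 10, fun M g j0 hg hi hiI hk hPB hBI κ a hκ ha hκ3 A hA => ?_⟩
  have : NeZero (3 ^ κ) := ⟨by positivity⟩
  have hAsub : ∀ j, A j ⊆ g.Blk j := by
    intro j
    unfold Cfg.Fam at hA
    rw [Fintype.mem_piFinset] at hA
    exact (mem_powersetCard.1 (hA j)).1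
  have hAc : (A j0).card ≤ g.k j0 := by
    unfold Cfg.Fam at hA
    rw [Fintype.mem_piFinset] at hA
    have := (mem_powersetCard.1 (hA j0)).2
    rw [this]
    unfold less
    simp
  set i := g.κ j0 with hidef
  set PBi := PB i 5 with hPBi
  set V := g.Blk j0 \ A j0 with hV
  have hVsub : V ⊆ PBi := by
    intro q hq
    rw [hV, mem_sdiff] at hq
    have := hq.1
    unfold Cfg.Blk at this
    exact (mem_sdiff.1 this).1
  have hcardV : PBi.card ≤ V.card + (g.k j0 + g.R.card) := by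
    have e1 : PBi ⊆ V ∪ (A j0 ∪ g.R) := by
      intro q hq
      rw [mem_union, mem_union, hV, mem_sdiff]
      unfold Cfg.Blk
      rw [mem_sdiff]
      tauto
    have e2 := card_le_card e1
    have e3 := card_union_le V (A j0 ∪ g.R)
    have e4 := card_union_le (A j0) g.R
    omega
  have hPR : (1000 : ℝ) * ((g.k j0 + g.R.card : ℕ) : ℝ) ≤ PBi.card := by exact_mod_cast hPB
  have hcV : (PBi.card : ℝ) ≤ V.card + ((g.k j0 + g.R.card : ℕ) : ℝ) := by exact_mod_cast hcardV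
  have hV999 : 999 / 1000 * (PBi.card : ℝ) ≤ V.card := by linarith
  have hVle : (V.card : ℝ) ≤ PBi.card := by exact_mod_cast card_le_card hVsub
  have hVpr : ∀ q ∈ V, q.Prime ∧ 2 ^ i < q ∧ q ≤ 2 ^ (i + 1) := by
    intro q hq
    have := hVsub hq
    rw [hPBi] at this
    unfold PB at this
    rw [mem_filter, mem_Ioc] at this
    exact ⟨this.2.1, this.1.1, this.1.2⟩
  have h2i : 2 ^ 10 ≤ 2 ^ i := Nat.pow_le_pow_right (by norm_num) (by omega)
  have hV3 : ∀ q ∈ V, q.Coprime 3 := by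
    intro q hq
    obtain ⟨hp, hq1, -⟩ := hVpr q hq
    exact (Nat.coprime_primes hp Nat.prime_three).2 (by omega)
  -- the class bounds
  have hCV5 : ∀ b : ZMod (3 ^ κ), ((V.filter (fun q : ℕ => (q : ZMod (3 ^ κ)) = b)).card : ℝ) *
      (3 ^ κ).totient ≤ 5 * V.card := by
    intro b
    have e1 := h1 i (by omega) κ (by omega) hκ3 b
    have e2 : ((V.filter (fun q : ℕ => (q : ZMod (3 ^ κ)) = b)).card : ℝ) ≤
        ((PBi.filter (fun q : ℕ => (q : ZMod (3 ^ κ)) = b)).card : ℝ) := by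
      exact_mod_cast card_le_card (filter_subset_filter _ hVsub)
    refine (mul_le_mul_of_nonneg_right e2 (Nat.cast_nonneg _)).trans (e1.trans ?_)
    rw [← hPBi]
    have : (0 : ℝ) ≤ PBi.card := Nat.cast_nonneg _
    linarith
  have hV9 : ∀ b : ZMod 9, IsUnit b →
      |((V.filter (fun q : ℕ => (q : ZMod 9) = b)).card : ℝ) - V.card / 6| ≤ V.card / 100 := by
    intro b hb
    have e1 := h2 i (by omega) b hb
    rw [← hPBi] at e1
    have e2 : ((V.filter (fun q : ℕ => (q : ZMod 9) = b)).card : ℝ) ≤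
        ((PBi.filter (fun q : ℕ => (q : ZMod 9) = b)).card : ℝ) := by
      exact_mod_cast card_le_card (filter_subset_filter _ hVsub)
    have e3 : ((PBi.filter (fun q : ℕ => (q : ZMod 9) = b)).card : ℝ) ≤
        ((V.filter (fun q : ℕ => (q : ZMod 9) = b)).card : ℝ) + ((PBi \ V).card : ℝ) := by
      have : PBi.filter (fun q : ℕ => (q : ZMod 9) = b) ⊆
          V.filter (fun q : ℕ => (q : ZMod 9) = b) ∪ (PBi \ V) := by
        intro q hq
        rw [mem_filter] at hq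
        by_cases h : q ∈ V
        · exact mem_union_left _ (mem_filter.2 ⟨h, hq.2⟩)
        · exact mem_union_right _ (mem_sdiff.2 ⟨hq.1, h⟩)
      have e4 := (card_le_card this).trans (card_union_le _ _)
      exact_mod_cast e4
    have e5 : ((PBi \ V).card : ℝ) = PBi.card - V.card := by
      rw [card_sdiff_of_subset hVsub, Nat.cast_sub (card_le_card hVsub)]
    rw [e5] at e3
    have e6 := abs_le.1 e1
    rw [abs_le]
    constructor <;> linarith [e6.1, e6.2]
  have hρV : ∀ χ : DirichletCharacter ℂ (3 ^ κ), χ ≠ 1 →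
      ‖Mix.cs χ V‖ ≤ (1 - 1 / 500) * V.card := fun χ hχ => NP.main κ hκ V hV3 hCV5 hV9 χ hχ
  -- the large primes
  have hRpos : 0 < g.Rp := by
    unfold Cfg.Rp
    exact Finset.prod_pos (fun q hq => (hg.hR q hq).1.pos)
  have hQpos : 0 < g.Q A := sum_pos_Q g hAsub
  have hBlk : g.k j0 ≤ (g.Blk j0).card := by
    have e1 : V.card ≤ (g.Blk j0).card := card_le_card sdiff_subset
    have e2 : (g.k j0 : ℝ) ≤ V.card := by
      have : (g.k j0 : ℝ) ≤ ((g.k j0 + g.R.card : ℕ) : ℝ) := by push_cast; linarith [Nat.cast_nonneg (α := ℝ) g.R.card]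
      have h0 : (0 : ℝ) ≤ ((g.k j0 + g.R.card : ℕ) : ℝ) := Nat.cast_nonneg _
      linarith
    have e3 : g.k j0 ≤ V.card := by exact_mod_cast e2
    omega
  have hRQ := RQ_le g hg j0 B (by omega) hBlk hA
  set D := g.Rp * g.Q A * 2 ^ ((i + 1) * B) with hD
  have hD1 : 1 ≤ D := Nat.mul_pos (Nat.mul_pos hRpos hQpos) (by positivity)
  have hD6 : D ≤ 2 ^ (g.I / 6) := by
    calc D ≤ 2 ^ (g.I / 8) * 2 ^ (g.I / 100) := by
          apply Nat.mul_le_mul hRQ
          apply Nat.pow_le_pow_right (by norm_num)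
          omega
      _ = 2 ^ (g.I / 8 + g.I / 100) := by rw [pow_add]
      _ ≤ 2 ^ (g.I / 6) := by
          apply Nat.pow_le_pow_right (by norm_num)
          have := hg.hI
          omega
  set P := (Ioc (2 ^ (g.I / 2)) (2 ^ g.I / D)).filter (fun p => p.Prime ∧ p % 8 = g.c) with hP
  have hκI : 8 * 3 ^ κ ≤ 2 ^ (g.I / 50) :=
    hκ3.trans (Nat.pow_le_pow_right (by norm_num) (Nat.div_le_div_right hiI))
  have hCP : ∀ b : ZMod (3 ^ κ), ((P.filter (fun q : ℕ => (q : ZMod (3 ^ κ)) = b)).card : ℝ) *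
      (3 ^ κ).totient ≤ 60 * P.card := fun b =>
    h3 g.I D g.c (by omega) hD1 hD6 hg.hc κ (by omega) hκI b
  have hPlow := h4 g.I D g.c (by omega) hD1 hD6 hg.hc
  rw [← hP] at hPlow
  have hPpr : ∀ p ∈ P, (p.Prime ∧ p % 8 = g.c) ∧ 2 ^ (g.I / 2) < p ∧ p ≤ 2 ^ g.I / D := by
    intro p hp
    rw [hP, mem_filter, mem_Ioc] at hp
    exact ⟨hp.2, hp.1.1, hp.1.2⟩
  have hP3 : ∀ p ∈ P, p.Coprime 3 := by
    intro p hp
    obtain ⟨⟨hpp, -⟩, hp1, -⟩ := hPpr p hp
    have : 2 ^ 2 ≤ 2 ^ (g.I / 2) := Nat.pow_le_pow_right (by norm_num) (by have := hg.hI; omega)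
    exact (Nat.coprime_primes hpp Nat.prime_three).2 (by omega)
  -- the class
  have hm3 : Nat.Coprime (g.Rp * g.Q A) (3 ^ κ) := by
    apply Nat.Coprime.pow_right
    apply Nat.Coprime.mul_left
    · unfold Cfg.Rp
      refine Nat.Coprime.prod_left fun q hq => ?_
      exact (Nat.coprime_primes (hg.hR q hq).1 Nat.prime_three).2 (by have := (hg.hR q hq).2.1; omega)
    · unfold Cfg.Q
      refine Nat.Coprime.prod_left fun j _ => Nat.Coprime.prod_left fun q hq => ?_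
      have := hAsub j hq
      unfold Cfg.Blk PB at this
      rw [mem_sdiff, mem_filter, mem_Ioc] at this
      have h8 : 2 ^ 3 ≤ 2 ^ g.κ j := Nat.pow_le_pow_right (by norm_num) (hg.hκ j)
      exact (Nat.coprime_primes this.1.2.1 Nat.prime_three).2 (by omega)
  obtain ⟨um, hum⟩ := (ZMod.isUnit_iff_coprime (g.Rp * g.Q A) (3 ^ κ)).2 hm3
  have haU : IsUnit ((a : ℕ) : ZMod (3 ^ κ)) := by
    rw [ZMod.isUnit_iff_coprime]
    apply Nat.Coprime.pow_right
    exact (Nat.coprime_comm.1 ((Nat.Prime.coprime_iff_not_dvd Nat.prime_three).2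
      (by omega)))
  set b : ZMod (3 ^ κ) := (um⁻¹ : (ZMod (3 ^ κ))ˣ) * (a : ZMod (3 ^ κ)) with hb
  have hbU : IsUnit b := by
    rw [hb]
    exact (Units.isUnit _).mul haU
  have hBsq : 240 * (B : ℝ) ^ 2 ≤ V.card := by
    have e1 : ((B ^ 2 + 2 * B : ℕ) : ℝ) ≤ g.k j0 := by exact_mod_cast hk
    push_cast at e1
    have e2 : (g.k j0 : ℝ) ≤ ((g.k j0 + g.R.card : ℕ) : ℝ) := by
      push_cast; linarith [Nat.cast_nonneg (α := ℝ) g.R.card]
    have e3 : (0 : ℝ) ≤ B := Nat.cast_nonneg _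
    nlinarith
  have hcount := inj_count (3 ^ κ) B hB V P (fun q hq => Nat.Coprime.pow_right κ (hV3 q hq))
    (fun q hq => Nat.Coprime.pow_right κ (hP3 q hq)) (1 - 1 / 500) (by norm_num)
    (fun b => (hCV5 b).trans (by
      apply mul_le_mul_of_nonneg_right (by norm_num) (Nat.cast_nonneg _)))
    hCP hρV hρ hBsq b hbU
  refine ⟨(((Fintype.piFinset (fun _ : Fin B => V)) ×ˢ P).filter
      (fun x : (Fin B → ℕ) × ℕ => b = (∏ i, ((x.1 i : ℕ) : ZMod (3 ^ κ))) *
        (x.2 : ZMod (3 ^ κ)))).filter (fun x => Function.Injective x.1), ?_, ?_⟩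
  · intro x hx
    rw [mem_filter, mem_filter, mem_product, Fintype.mem_piFinset] at hx
    obtain ⟨⟨⟨hx1, hx2⟩, hx3⟩, hx4⟩ := hx
    obtain ⟨hp1, hp2, hp3⟩ := hPpr x.2 hx2
    refine ⟨hx4, hx1, hp1, hp2, ?_, ?_⟩
    · have e1 : ∏ i', x.1 i' ≤ 2 ^ ((i + 1) * B) := by
        calc ∏ i', x.1 i' ≤ ∏ _i' : Fin B, 2 ^ (i + 1) :=
              Finset.prod_le_prod' fun i' _ => (hVpr _ (hx1 i')).2.2
          _ = 2 ^ ((i + 1) * B) := by
              rw [Finset.prod_const, card_univ, Fintype.card_fin, ← pow_mul]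
      calc g.Rp * g.Q A * (∏ i', x.1 i') * x.2 ≤ g.Rp * g.Q A * 2 ^ ((i + 1) * B) * x.2 := by
            apply Nat.mul_le_mul_right
            exact Nat.mul_le_mul_left _ e1
        _ = D * x.2 := rfl
        _ ≤ D * (2 ^ g.I / D) := Nat.mul_le_mul_left _ hp3
        _ ≤ 2 ^ g.I := Nat.mul_div_le _ _
    · have e1 : (((g.Rp * g.Q A * (∏ i', x.1 i') * x.2 : ℕ)) : ZMod (3 ^ κ)) = (a : ZMod (3 ^ κ)) := by
        push_cast
        have e2 : ((g.Rp * g.Q A : ℕ) : ZMod (3 ^ κ)) = (g.Rp : ZMod (3 ^ κ)) * (g.Q A : ZMod (3 ^ κ)) := by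
          push_cast; ring
        rw [← e2, mul_assoc, ← hx3, ← hum, hb, ← mul_assoc, Units.mul_inv, one_mul]
      exact (ZMod.natCast_eq_natCast_iff _ _ _).1 e1
  · have hS : g.S j0 ≤ 2 * (V.card : ℝ) / 2 ^ i := by
      have e1 : g.S j0 ≤ ((g.Blk j0).card : ℝ) * (1 / 2 ^ i) := by
        unfold Cfg.S
        calc ∑ q ∈ g.Blk j0, (1 : ℝ) / q ≤ ∑ _q ∈ g.Blk j0, (1 : ℝ) / 2 ^ i := by
              refine Finset.sum_le_sum fun q hq => ?_
              unfold Cfg.Blk PB at hq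
              rw [mem_sdiff, mem_filter, mem_Ioc] at hq
              have : (2 : ℝ) ^ i ≤ q := by exact_mod_cast hq.1.1.1.le
              exact one_div_le_one_div_of_le (by positivity) this
          _ = _ := by rw [Finset.sum_const, nsmul_eq_mul]
      have e2 : ((g.Blk j0).card : ℝ) ≤ PBi.card := by
        have : g.Blk j0 ⊆ PBi := by
          unfold Cfg.Blk
          exact sdiff_subset
        exact_mod_cast card_le_card this
      have e3 : ((g.Blk j0).card : ℝ) ≤ 2 * V.card := by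
        have : (0 : ℝ) ≤ PBi.card := Nat.cast_nonneg _
        linarith
      calc g.S j0 ≤ ((g.Blk j0).card : ℝ) * (1 / 2 ^ i) := e1
        _ ≤ (2 * V.card) * (1 / 2 ^ i) := by
            apply mul_le_mul_of_nonneg_right e3 (by positivity)
        _ = _ := by ring
    have hS0 : 0 ≤ g.S j0 := by
      unfold Cfg.S
      positivity
    have hSB : (g.S j0 / 4) ^ B ≤ (V.card : ℝ) ^ B / 2 ^ ((i + 1) * B) := by
      have e1 : g.S j0 / 4 ≤ (V.card : ℝ) / 2 ^ (i + 1) := by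
        have : (V.card : ℝ) / 2 ^ (i + 1) = (2 * (V.card : ℝ) / 2 ^ i) / 4 := by
          rw [pow_succ]
          field_simp
          ring
        rw [this]
        linarith
      have e2 := pow_le_pow_left₀ (by positivity) e1 B
      rw [div_pow (V.card : ℝ), ← pow_mul] at e2
      exact e2
    have hIpos : (0 : ℝ) < g.I := by
      have : 0 < g.I := by have := hg.hI; omega
      exact_mod_cast this
    have hRR : (0 : ℝ) < g.Rp := by exact_mod_cast hRpos
    have hQR : (0 : ℝ) < g.Q A := by exact_mod_cast hQpos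
    have hDR : (D : ℝ) = g.Rp * g.Q A * 2 ^ ((i + 1) * B) := by rw [hD]; push_cast; ring
    have hf1 : 1 / 40 * (g.S j0 / 4) ^ B * (2 ^ g.I / (g.Rp * g.I)) * (1 / (g.Q A : ℝ)) ≤
        1 / 40 * ((V.card : ℝ) ^ B / 2 ^ ((i + 1) * B)) * (2 ^ g.I / (g.Rp * g.I)) *
          (1 / (g.Q A : ℝ)) := by
      apply mul_le_mul_of_nonneg_right _ (by positivity)
      apply mul_le_mul_of_nonneg_right _ (by positivity)
      exact mul_le_mul_of_nonneg_left hSB (by norm_num)
    have hf2 : 1 / 40 * ((V.card : ℝ) ^ B / 2 ^ ((i + 1) * B)) * (2 ^ g.I / (g.Rp * g.I)) *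
          (1 / (g.Q A : ℝ)) =
        (V.card : ℝ) ^ B * (1 / 20 * ((2 : ℝ) ^ g.I / (D * g.I))) * (1 / 2) := by
      rw [hDR]
      exact num_id _ _ _ _ _ _ (by positivity) hRR.ne' hQR.ne' hIpos.ne'
    have hf3 : (V.card : ℝ) ^ B * (1 / 20 * ((2 : ℝ) ^ g.I / (D * g.I))) * (1 / 2) ≤
        (V.card : ℝ) ^ B * P.card * (1 / 2) := by
      apply mul_le_mul_of_nonneg_right _ (by norm_num)
      exact mul_le_mul_of_nonneg_left hPlow (by positivity)
    have hfin : 1 / 40 * (g.S j0 / 4) ^ B * (2 ^ g.I / (g.Rp * g.I)) * (1 / (g.Q A : ℝ)) ≤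
        (V.card : ℝ) ^ B * P.card * (1 / 2) := by
      rw [hf2] at hf1
      exact hf1.trans hf3
    refine hfin.trans (hcount.trans ?_)
    rw [mul_comm]
    apply mul_le_mul_of_nonneg_left _ (Nat.cast_nonneg _)
    have : (3 ^ κ).totient ≤ 3 ^ κ := Nat.totient_le _
    exact_mod_cast this

end Pool.Agent.NH75.PC.Low
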