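import Mathlib

set_option autoImplicit false

/-!
# Products of primes in residue classes: the mixing lemma

`V`, `P` finite sets of integers prime to `n`, no class modulo `n` contains more than `C` times its
share, and no nonprincipal character is almost constant on `V`. Then the products
`q_1 ⋯ q_B p` are equidistributed modulo `n`, for `B` large.
-/

namespace Pool.Agent.NH75.PC.Mix

open Finset

variable {n : ℕ} [NeZero n]

/-- the character sum over `V` -/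
noncomputable def cs (χ : DirichletCharacter ℂ n) (V : Finset ℕ) : ℂ := ∑ q ∈ V, χ (q : ZMod n)

omit [NeZero n] in
theorem conj_eq (χ : DirichletCharacter ℂ n) {q : ZMod n} (hq : IsUnit q) :
    star (χ q) = χ q⁻¹ := by
  rw [MulChar.star_apply']
  obtain ⟨u, rfl⟩ := hq
  rw [MulChar.inv_apply, ZMod.inv_coe_unit, Ring.inverse_unit]

/-- Parseval -/
theorem parseval (V : Finset ℕ) (hV : ∀ q ∈ V, q.Coprime n) :
    ∑ χ : DirichletCharacter ℂ n, ‖cs χ V‖ ^ 2 =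
      (n.totient : ℝ) * ∑ q ∈ V, ((V.filter (fun q' : ℕ => (q' : ZMod n) = (q : ZMod n))).card : ℝ) := by
  have hu : ∀ q ∈ V, IsUnit ((q : ℕ) : ZMod n) := fun q hq =>
    (ZMod.isUnit_iff_coprime q n).2 (hV q hq)
  have h1 : ∀ χ : DirichletCharacter ℂ n, ((‖cs χ V‖ ^ 2 : ℝ) : ℂ) =
      ∑ q ∈ V, ∑ q' ∈ V, χ ((q : ZMod n)⁻¹) * χ (q' : ZMod n) := by
    intro χ
    have e1 : ((‖cs χ V‖ ^ 2 : ℝ) : ℂ) = star (cs χ V) * cs χ V := by
      rw [Complex.star_def, Complex.conj_mul']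
      push_cast
      rfl
    rw [e1]
    unfold cs
    rw [star_sum, Finset.sum_mul_sum]
    refine Finset.sum_congr rfl fun q hq => Finset.sum_congr rfl fun q' _ => ?_
    rw [conj_eq χ (hu q hq)]
  have h2 : ((∑ χ : DirichletCharacter ℂ n, ‖cs χ V‖ ^ 2 : ℝ) : ℂ) =
      (n.totient : ℂ) * ∑ q ∈ V, ((V.filter (fun q' : ℕ => (q' : ZMod n) = (q : ZMod n))).card : ℂ) := by
    push_cast
    have h3 : ∀ χ : DirichletCharacter ℂ n, ((‖cs χ V‖ : ℂ) ^ 2) =
        ∑ q ∈ V, ∑ q' ∈ V, χ ((q : ZMod n)⁻¹) * χ (q' : ZMod n) := by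
      intro χ
      rw [← h1 χ]
      push_cast
      rfl
    rw [Finset.sum_congr rfl fun χ _ => h3 χ, Finset.sum_comm, Finset.mul_sum]
    refine Finset.sum_congr rfl fun q hq => ?_
    rw [Finset.sum_comm]
    simp_rw [DirichletCharacter.sum_char_inv_mul_char_eq ℂ (hu q hq)]
    rw [← Finset.sum_filter, Finset.sum_const, nsmul_eq_mul, mul_comm]
    congr 3
    ext x
    simp only [Finset.mem_filter, eq_comm]
  exact_mod_cast h2

theorem parseval_le (V : Finset ℕ) (hV : ∀ q ∈ V, q.Coprime n) (C : ℝ)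
    (hC : ∀ b : ZMod n, ((V.filter (fun q : ℕ => (q : ZMod n) = b)).card : ℝ) * n.totient ≤
      C * V.card) :
    ∑ χ : DirichletCharacter ℂ n, ‖cs χ V‖ ^ 2 ≤ C * (V.card : ℝ) ^ 2 := by
  rw [parseval V hV, Finset.mul_sum]
  calc ∑ q ∈ V, (n.totient : ℝ) *
        ((V.filter (fun q' : ℕ => (q' : ZMod n) = (q : ZMod n))).card : ℝ)
      ≤ ∑ q ∈ V, C * (V.card : ℝ) := Finset.sum_le_sum fun q _ => by
        rw [mul_comm]; exact hC _
    _ = C * (V.card : ℝ) ^ 2 := by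
        rw [Finset.sum_const, nsmul_eq_mul]; ring

/-- the number of representations, by characters -/
theorem count_eq (B : ℕ) (V P : Finset ℕ) (b : ZMod n) (hb : IsUnit b) :
    (n.totient : ℂ) * ((((Fintype.piFinset (fun _ : Fin B => V)) ×ˢ P).filter
      (fun x : (Fin B → ℕ) × ℕ => b = (∏ i, ((x.1 i : ℕ) : ZMod n)) * (x.2 : ZMod n))).card : ℂ) =
      ∑ χ : DirichletCharacter ℂ n, χ b⁻¹ * (cs χ V ^ B * cs χ P) := by
  have h1 : ∀ χ : DirichletCharacter ℂ n, χ b⁻¹ * (cs χ V ^ B * cs χ P) =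
      ∑ x ∈ (Fintype.piFinset (fun _ : Fin B => V)) ×ˢ P,
        χ b⁻¹ * χ ((∏ i, ((x.1 i : ℕ) : ZMod n)) * (x.2 : ZMod n)) := by
    intro χ
    have e : cs χ V ^ B = ∑ q ∈ Fintype.piFinset (fun _ : Fin B => V),
        ∏ i, χ ((q i : ℕ) : ZMod n) := by
      have := Finset.prod_univ_sum (fun _ : Fin B => V)
        (fun (_ : Fin B) (q : ℕ) => χ ((q : ℕ) : ZMod n))
      rw [← this]
      unfold cs
      rw [Finset.prod_const, Finset.card_univ, Fintype.card_fin]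
    rw [e]
    unfold cs
    rw [Finset.sum_mul_sum, Finset.mul_sum, Finset.sum_product]
    refine Finset.sum_congr rfl fun q _ => ?_
    rw [Finset.mul_sum]
    refine Finset.sum_congr rfl fun p _ => ?_
    rw [map_mul, map_prod]
  rw [Finset.sum_congr rfl fun χ _ => h1 χ, Finset.sum_comm]
  simp_rw [DirichletCharacter.sum_char_inv_mul_char_eq ℂ hb]
  rw [← Finset.sum_filter, Finset.sum_const, nsmul_eq_mul, mul_comm]

/-- **the mixing lemma** -/
theorem mix (B : ℕ) (hB : 1 ≤ B) (V P : Finset ℕ) (hV : ∀ q ∈ V, q.Coprime n)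
    (hP : ∀ q ∈ P, q.Coprime n) (C ρ : ℝ) (hC0 : 0 ≤ C) (hρ0 : 0 ≤ ρ)
    (hCV : ∀ b : ZMod n, ((V.filter (fun q : ℕ => (q : ZMod n) = b)).card : ℝ) * n.totient ≤
      C * V.card)
    (hCP : ∀ b : ZMod n, ((P.filter (fun q : ℕ => (q : ZMod n) = b)).card : ℝ) * n.totient ≤
      C * P.card)
    (hρ : ∀ χ : DirichletCharacter ℂ n, χ ≠ 1 → ‖cs χ V‖ ≤ ρ * V.card)
    (b : ZMod n) (hb : IsUnit b) :
    ((V.card : ℝ) ^ B * P.card) * (1 - C * ρ ^ (B - 1)) ≤
      (n.totient : ℝ) * ((((Fintype.piFinset (fun _ : Fin B => V)) ×ˢ P).filter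
      (fun x : (Fin B → ℕ) × ℕ => b = (∏ i, ((x.1 i : ℕ) : ZMod n)) * (x.2 : ZMod n))).card : ℝ) := by
  classical
  obtain ⟨k, rfl⟩ : ∃ k, B = k + 1 := ⟨B - 1, by omega⟩
  rw [Nat.add_sub_cancel]
  have hc := count_eq (k + 1) V P b hb
  set T : ℝ := ((((Fintype.piFinset (fun _ : Fin (k + 1) => V)) ×ˢ P).filter
      (fun x : (Fin (k + 1) → ℕ) × ℕ =>
        b = (∏ i, ((x.1 i : ℕ) : ZMod n)) * (x.2 : ZMod n))).card : ℝ) with hT
  have hone : ∀ W : Finset ℕ, (∀ q ∈ W, q.Coprime n) → cs (1 : DirichletCharacter ℂ n) W = W.card := by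
    intro W hW
    unfold cs
    rw [Finset.sum_congr rfl fun q hq => MulChar.one_apply
      ((ZMod.isUnit_iff_coprime q n).2 (hW q hq))]
    simp
  have hsplit : ∑ χ : DirichletCharacter ℂ n, χ b⁻¹ * (cs χ V ^ (k + 1) * cs χ P) =
      (V.card : ℂ) ^ (k + 1) * P.card +
      ∑ χ ∈ (univ : Finset (DirichletCharacter ℂ n)).erase 1,
        χ b⁻¹ * (cs χ V ^ (k + 1) * cs χ P) := by
    rw [← Finset.add_sum_erase univ _ (Finset.mem_univ (1 : DirichletCharacter ℂ n))]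
    congr 1
    rw [hone V hV, hone P hP, MulChar.one_apply, one_mul]
    obtain ⟨u, rfl⟩ := hb
    rw [ZMod.inv_coe_unit]
    exact Units.isUnit _
  rw [hsplit] at hc
  have hre := congrArg Complex.re hc
  have hl : ((n.totient : ℂ) * ((((Fintype.piFinset (fun _ : Fin (k + 1) => V)) ×ˢ P).filter
      (fun x : (Fin (k + 1) → ℕ) × ℕ =>
        b = (∏ i, ((x.1 i : ℕ) : ZMod n)) * (x.2 : ZMod n))).card : ℂ)).re =
      (n.totient : ℝ) * T := by
    rw [hT, ← Complex.ofReal_natCast, ← Complex.ofReal_natCast, ← Complex.ofReal_mul,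
      Complex.ofReal_re]
  rw [hl, Complex.add_re] at hre
  have hmain : ((V.card : ℂ) ^ (k + 1) * P.card).re = (V.card : ℝ) ^ (k + 1) * P.card := by
    rw [← Complex.ofReal_natCast, ← Complex.ofReal_natCast, ← Complex.ofReal_pow,
      ← Complex.ofReal_mul, Complex.ofReal_re]
  rw [hmain] at hre
  set v : ℝ := (V.card : ℝ) with hv
  set w : ℝ := (P.card : ℝ) with hw
  have hv0 : 0 ≤ v := Nat.cast_nonneg _
  have hw0 : 0 ≤ w := Nat.cast_nonneg _
  -- the product of the two norms, summed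
  have hprod : ∑ χ : DirichletCharacter ℂ n, ‖cs χ V‖ * ‖cs χ P‖ ≤ C * (v * w) := by
    have hpV := parseval_le V hV C hCV
    have hpP := parseval_le P hP C hCP
    rw [← hv] at hpV
    rw [← hw] at hpP
    have h3 := Finset.sum_mul_sq_le_sq_mul_sq (univ : Finset (DirichletCharacter ℂ n))
      (fun χ => ‖cs χ V‖) (fun χ => ‖cs χ P‖)
    have h4 : (∑ χ : DirichletCharacter ℂ n, ‖cs χ V‖ * ‖cs χ P‖) ^ 2 ≤ (C * (v * w)) ^ 2 := by
      refine h3.trans ?_
      calc (∑ χ : DirichletCharacter ℂ n, ‖cs χ V‖ ^ 2) *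
            (∑ χ : DirichletCharacter ℂ n, ‖cs χ P‖ ^ 2) ≤ (C * v ^ 2) * (C * w ^ 2) := by
            apply mul_le_mul hpV hpP
            · exact Finset.sum_nonneg fun _ _ => by positivity
            · positivity
        _ = (C * (v * w)) ^ 2 := by ring
    exact le_of_sq_le_sq' h4 (by positivity)
  have herr : ‖∑ χ ∈ (univ : Finset (DirichletCharacter ℂ n)).erase 1,
      χ b⁻¹ * (cs χ V ^ (k + 1) * cs χ P)‖ ≤ (ρ * v) ^ k * (C * (v * w)) := by
    calc ‖∑ χ ∈ (univ : Finset (DirichletCharacter ℂ n)).erase 1,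
          χ b⁻¹ * (cs χ V ^ (k + 1) * cs χ P)‖
        ≤ ∑ χ ∈ (univ : Finset (DirichletCharacter ℂ n)).erase 1,
          ‖χ b⁻¹ * (cs χ V ^ (k + 1) * cs χ P)‖ := norm_sum_le _ _
      _ ≤ ∑ χ ∈ (univ : Finset (DirichletCharacter ℂ n)).erase 1,
          (ρ * v) ^ k * (‖cs χ V‖ * ‖cs χ P‖) := by
          refine Finset.sum_le_sum fun χ hχ => ?_
          have hχ1 : χ ≠ 1 := (Finset.mem_erase.1 hχ).1
          rw [norm_mul, norm_mul, norm_pow, pow_succ]
          have h5 : ‖χ b⁻¹‖ ≤ 1 := DirichletCharacter.norm_le_one χ _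
          have h6 : ‖cs χ V‖ ^ k ≤ (ρ * v) ^ k := pow_le_pow_left₀ (norm_nonneg _) (hρ χ hχ1) k
          calc ‖χ b⁻¹‖ * (‖cs χ V‖ ^ k * ‖cs χ V‖ * ‖cs χ P‖)
              ≤ 1 * (‖cs χ V‖ ^ k * ‖cs χ V‖ * ‖cs χ P‖) := by gcongr
            _ = ‖cs χ V‖ ^ k * (‖cs χ V‖ * ‖cs χ P‖) := by ring
            _ ≤ (ρ * v) ^ k * (‖cs χ V‖ * ‖cs χ P‖) := by gcongr
      _ ≤ ∑ χ : DirichletCharacter ℂ n, (ρ * v) ^ k * (‖cs χ V‖ * ‖cs χ P‖) :=
          Finset.sum_le_sum_of_subset_of_nonneg (Finset.erase_subset _ _)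
            (fun _ _ _ => by positivity)
      _ = (ρ * v) ^ k * ∑ χ : DirichletCharacter ℂ n, ‖cs χ V‖ * ‖cs χ P‖ := by
          rw [Finset.mul_sum]
      _ ≤ (ρ * v) ^ k * (C * (v * w)) := by gcongr
  have h7 := Complex.abs_re_le_norm (∑ χ ∈ (univ : Finset (DirichletCharacter ℂ n)).erase 1,
      χ b⁻¹ * (cs χ V ^ (k + 1) * cs χ P))
  have h8 := (abs_le.1 (h7.trans herr)).1
  have h9 : v ^ (k + 1) * w * (1 - C * ρ ^ k) = v ^ (k + 1) * w - (ρ * v) ^ k * (C * (v * w)) := by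
    rw [mul_pow, pow_succ]; ring
  rw [h9, hre]
  linarith
where
  le_of_sq_le_sq' {a c : ℝ} (h : a ^ 2 ≤ c ^ 2) (hc : 0 ≤ c) : a ≤ c := by
    by_contra hcon
    push Not at hcon
    nlinarith

end Pool.Agent.NH75.PC.Mix
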