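import Pool.Agent.H307R2.OP.DefsC
import Pool.Agent.H397R2.PP.Defs

set_option autoImplicit false

/-!
# Parity changes of the partition function (MP_ebc808_nt): definitions and statements of the parts

The tuple argument of `Pool.Agent.H307R2.OP` (odd values of `p`), restricted to the tuples whose
number `N` lies in a given residue class modulo a power `3 ^ κ` of three.
-/

namespace Pool.Agent.NH75.PC

open Finset Pool.Agent.H307R2.OP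

/-- the tuples whose number is in the class of `a` modulo `3 ^ κ` -/
def TupA {M : ℕ} (g : Cfg M) (κ a : ℕ) : Finset (Σ _ : Fin M → Finset ℕ, ℕ) :=
  g.Tup.filter (fun t => g.N t % 3 ^ κ = a % 3 ^ κ)

open Classical in
/-- part G: multiplicity of a good value, in a class modulo `3 ^ κ` (compare `GoodCount`) -/
def GoodCountA : Prop := ∃ C : ℝ, 0 < C ∧ ∃ I0 : ℕ, ∀ (M : ℕ) (g : Cfg M), g.Ok → I0 ≤ g.I →
  ∀ i0 : ℕ, 6 ≤ i0 → g.I ≤ 2 ^ i0 → 4000 * i0 * (Nat.log 2 g.I + 1) ≤ g.I →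
  (∀ j, i0 ≤ g.κ j ∧ g.κ j ≤ g.I) → ∑ j, g.k j + g.R.card ≤ g.I →
  ∀ κ a : ℕ, 1 ≤ κ → a % 3 ≠ 0 → 3 ^ (κ + 1) ≤ 2 ^ (g.I / 100) →
  ∀ δ s : ℕ, Adm δ → ¬ Bad g.I i0 δ → 1 ≤ s → δ * s ^ 2 ≤ 3 * 2 ^ g.I →
  (((TupA g κ a ×ˢ range (2 ^ g.I + 1)).filter
      (fun x => 3 * g.N x.1 = δ * s ^ 2 + 4 ^ g.r * x.2 ^ 2)).card : ℝ) ≤
    C * 2 ^ g.R.card * (g.U / (g.Rp * 3 ^ κ)) *
      (∏ j, ((g.S j + 1 / (g.I : ℝ) ^ 2 + g.R.card / 2 ^ (g.κ j)) ^ g.k j /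
        ((g.k j).factorial : ℝ))) * (i0 * (Nat.log 2 g.I + 1) / g.I)

open Classical in
/-- part L: tuples in the class represented by a large kernel (compare `TupLarge`) -/
def TupLargeA : Prop := ∀ (M : ℕ) (g : Cfg M), g.Ok → ∀ κ a : ℕ, 1 ≤ κ → a % 3 ≠ 0 →
  3 ^ (κ + 1) ≤ 2 ^ (g.I / 100) → ∀ δ : ℕ, Adm δ →
  (((TupA g κ a).filter (fun t => Rep g.r δ (g.N t))).card : ℝ) ≤
    Real.sqrt (3 * 2 ^ g.I / δ) * 2 ^ (∑ j, g.k j + g.R.card + 1) * (g.U / (g.Rp * 3 ^ κ)) * g.W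

open Classical in
/-- part S: tuples in the class represented by a small kernel that is not strongly biased
(compare `TupSmall`) -/
def TupSmallA : Prop := ∃ C : ℝ, 0 < C ∧ ∃ I0 : ℕ, ∀ (M : ℕ) (g : Cfg M), g.Ok → I0 ≤ g.I →
  ∀ κ a : ℕ, 1 ≤ κ → 3 ^ (κ + 1) ≤ 2 ^ (g.I / 100) → ∀ δ : ℕ, Adm δ →
  ∀ (j : Fin M) (θ : ℝ), 0 ≤ θ → θ ≤ 1 →
  ∑ q ∈ (g.Blk j).filter (fun q => J q δ ≠ -1), (1 : ℝ) / q ≤ (1 - θ) * g.S j →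
  (((TupA g κ a).filter (fun t => Rep g.r δ (g.N t))).card : ℝ) ≤
    C * (2 ^ g.I / (g.Rp * g.I)) / 3 ^ κ * g.W * (1 - θ) ^ (g.k j)

open Classical in
/-- part Z: tuples that come from `n = 0` or from an `n < 0` (compare `TupZero`) -/
def TupZeroA : Prop := ∀ (M : ℕ) (g : Cfg M), g.Ok → ∀ h : ℕ,
  ((g.Tup.filter (fun t => ∃ b ≤ h, ∃ u : ℕ, 3 * g.N t + 1 + 24 * b = 4 ^ g.r * u ^ 2)).card : ℝ) ≤
    (h + 1) * (2 ^ (g.I / 8) * (g.U + 5 * h + 3))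

open Classical in
/-- part B: the tuples of the class that are lost (compare `BadTotal` and `badTotalU`) -/
def BadTotalA : Prop := ∀ M : ℕ, 1 ≤ M → ∀ c1 : ℝ, 0 < c1 → ∀ h : ℕ, ∃ y0 : ℕ, ∀ y : ℕ, y0 ≤ y →
  ∀ I : ℕ, y ^ (2 * M + 4) ≤ I → I ≤ 2 * y ^ (2 * M + 4) → ∀ (R : Finset ℕ) (c : ℕ),
  RC M y I R c → ∀ κ a : ℕ, 1 ≤ κ → κ ≤ y ^ (2 * M - 1) → a % 3 ≠ 0 →
  (((TupA (cfg M y I R c) κ a).filter (fun t => (∃ δ : ℕ, Adm δ ∧ Bad I y δ ∧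
      Rep (rr M y) δ ((cfg M y I R c).N t)) ∨
      ∃ b ≤ h, ∃ u : ℕ, 3 * (cfg M y I R c).N t + 1 + 24 * b = 4 ^ (rr M y) * u ^ 2)).card : ℝ) ≤
    c1 * (2 ^ I / ((cfg M y I R c).Rp * I)) / 3 ^ κ * ((cfg M y I R c).W / 2 ^ M)

/-- part E: lower bound for the number of tuples in a class -/
def TupLowA : Prop := ∀ M : ℕ, 2 ≤ M → ∃ c0 : ℝ, 0 < c0 ∧ ∃ y0 : ℕ, ∀ y : ℕ, y0 ≤ y → ∀ I : ℕ,
  y ^ (2 * M + 4) ≤ I → I ≤ 2 * y ^ (2 * M + 4) → ∀ (R : Finset ℕ) (c : ℕ), RC M y I R c →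
  ∀ κ a : ℕ, 1 ≤ κ → κ ≤ y ^ (2 * M - 1) → a % 3 ≠ 0 →
  c0 * (2 ^ I / ((cfg M y I R c).Rp * I)) / 3 ^ κ * ((cfg M y I R c).W / 2 ^ M) ≤
    ((TupA (cfg M y I R c) κ a).card : ℝ)

/-- the number of `n ≤ x` such that the numbers of partitions of `n` and of `n + h` have different
parities -/
def chg (h x : ℕ) : ℕ :=
  ((range (x + 1)).filter (fun n =>
    Odd (Fintype.card (Nat.Partition n) + Fintype.card (Nat.Partition (n + h))))).card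

/-- part A: a coefficient `1` at `N` and a coefficient `0` at `N + 8 h` of `D ^ m` -/
def AlgA : Prop := ∀ r m N h : ℕ, 3 ≤ r → 3 * m + 1 = 4 ^ r →
  PowerSeries.coeff N (Pool.Agent.H397R2.PP.Db ^ m) = 1 →
  (N + 8 * h) % 3 ^ (2 ^ (r - 1)) = 3 ^ (2 ^ (r - 1) - 1) →
  (∃ n u : ℕ, Odd (Fintype.card (Nat.Partition n) + Fintype.card (Nat.Partition (n + h))) ∧
    24 * n + 4 ^ r * u ^ 2 = 3 * N + 1) ∨
  ∃ b ≤ h, ∃ u : ℕ, 3 * N + 1 + 24 * b = 4 ^ r * u ^ 2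

/-- part M: the counting theorem in terms of the parameter `y` -/
def MainYA : Prop := ∀ h : ℕ, ¬ 3 ∣ h → ∀ M : ℕ, 2 ≤ M → ∃ y0 : ℕ, ∀ y : ℕ, y0 ≤ y → ∀ I : ℕ,
  y ^ (2 * M + 4) ≤ I → I ≤ 2 * y ^ (2 * M + 4) →
  Real.sqrt (2 ^ I) * (y : ℝ) ^ (2 * M - 3 : ℤ) ≤ (chg h (2 ^ I) : ℝ)

/-- part F -/
def FinalA : Prop := ∀ h : ℕ, ¬ 3 ∣ h → ∀ ε : ℝ, 0 < ε → ∃ x0 : ℝ, ∀ x : ℕ, x0 ≤ x →
  Real.sqrt x * Real.log x ^ (1 - ε) ≤ (chg h x : ℝ)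

end Pool.Agent.NH75.PC
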