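import Pool.Agent.NH75.PC.Stm

set_option autoImplicit false

/-!
# Parity changes of the partition function (MP_ebc808_nt): the second round, distances divisible by 3

The same argument with `3 ^ v * N` in the place of `N` (`v` even), where `N` is the number of a tuple.
-/

namespace Pool.Agent.NH75.PC

open Finset Pool.Agent.H307R2.OP

/-- `3 N = δ s² + 4^r u²` with `s` prime to three -/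
def RepC (r δ N : ℕ) : Prop := ∃ s u : ℕ, ¬ 3 ∣ s ∧ 3 * N = δ * s ^ 2 + 4 ^ r * u ^ 2

open Classical in
/-- part G (compare `GoodCountA`) -/
def GoodCountV : Prop := ∀ v : ℕ, ∃ C : ℝ, 0 < C ∧ ∃ I0 : ℕ, ∀ (M : ℕ) (g : Cfg M), g.Ok →
  I0 ≤ g.I → ∀ i0 : ℕ, 6 ≤ i0 → g.I ≤ 2 ^ i0 → 4000 * i0 * (Nat.log 2 g.I + 1) ≤ g.I →
  (∀ j, i0 ≤ g.κ j ∧ g.κ j ≤ g.I) → ∑ j, g.k j + g.R.card ≤ g.I →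
  ∀ κ a : ℕ, 1 ≤ κ → a % 3 ≠ 0 → 3 ^ (κ + v + 1) ≤ 2 ^ (g.I / 100) →
  ∀ δ s : ℕ, Adm δ → ¬ Bad g.I i0 δ → 1 ≤ s → ¬ 3 ∣ s → δ * s ^ 2 ≤ 3 * (3 ^ v * 2 ^ g.I) →
  (((TupA g κ a ×ˢ range (2 ^ g.I + 1)).filter
      (fun x => 3 * (3 ^ v * g.N x.1) = δ * s ^ 2 + 4 ^ g.r * x.2 ^ 2)).card : ℝ) ≤
    C * 2 ^ g.R.card * (g.U / (g.Rp * 3 ^ κ)) *
      (∏ j, ((g.S j + 1 / (g.I : ℝ) ^ 2 + g.R.card / 2 ^ (g.κ j)) ^ g.k j /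
        ((g.k j).factorial : ℝ))) * (i0 * (Nat.log 2 g.I + 1) / g.I)

open Classical in
/-- part L (compare `TupLargeA`) -/
def TupLargeV : Prop := ∀ (v M : ℕ) (g : Cfg M), g.Ok → ∀ κ a : ℕ, 1 ≤ κ → a % 3 ≠ 0 →
  3 ^ (κ + v + 1) ≤ 2 ^ (g.I / 100) → ∀ δ : ℕ, Adm δ →
  (((TupA g κ a).filter (fun t => RepC g.r δ (3 ^ v * g.N t))).card : ℝ) ≤
    3 ^ v * (Real.sqrt (3 * 2 ^ g.I / δ) * 2 ^ (∑ j, g.k j + g.R.card + 1) *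
      (g.U / (g.Rp * 3 ^ κ)) * g.W)

open Classical in
/-- part S (compare `TupSmallA`) -/
def TupSmallV : Prop := ∃ C : ℝ, 0 < C ∧ ∃ I0 : ℕ, ∀ (v M : ℕ) (g : Cfg M), g.Ok → I0 ≤ g.I →
  ∀ κ a : ℕ, 1 ≤ κ → 3 ^ (κ + 1) ≤ 2 ^ (g.I / 100) → ∀ δ : ℕ, Adm δ →
  ∀ (j : Fin M) (θ : ℝ), 0 ≤ θ → θ ≤ 1 →
  ∑ q ∈ (g.Blk j).filter (fun q => J q δ ≠ -1), (1 : ℝ) / q ≤ (1 - θ) * g.S j →
  (((TupA g κ a).filter (fun t => RepC g.r δ (3 ^ v * g.N t))).card : ℝ) ≤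
    C * (2 ^ g.I / (g.Rp * g.I)) / 3 ^ κ * g.W * (1 - θ) ^ (g.k j)

open Classical in
/-- part Z (compare `TupZeroA`) -/
def TupZeroV : Prop := ∀ (v M : ℕ) (g : Cfg M), g.Ok → ∀ h : ℕ,
  ((g.Tup.filter (fun t => ∃ b ≤ h, ∃ u : ℕ,
      3 * (3 ^ v * g.N t) + 1 + 24 * b = 4 ^ g.r * u ^ 2)).card : ℝ) ≤
    (h + 1) * (2 ^ (g.I / 8) * (3 ^ v * g.U + 5 * h + 3))

open Classical in
/-- part B (compare `BadTotalA`) -/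
def BadTotalV : Prop := ∀ v M : ℕ, 1 ≤ M → ∀ c1 : ℝ, 0 < c1 → ∀ h : ℕ, ∃ y0 : ℕ, ∀ y : ℕ, y0 ≤ y →
  ∀ I : ℕ, y ^ (2 * M + 4) ≤ I → I + 2 * v ≤ 2 * y ^ (2 * M + 4) → ∀ (R : Finset ℕ) (c : ℕ),
  RC M y I R c → ∀ κ a : ℕ, 1 ≤ κ → κ ≤ y ^ (2 * M - 1) → a % 3 ≠ 0 →
  (((TupA (cfg M y I R c) κ a).filter (fun t => (∃ δ : ℕ, Adm δ ∧ Bad I y δ ∧
      RepC (rr M y) δ (3 ^ v * (cfg M y I R c).N t)) ∨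
      ∃ b ≤ h, ∃ u : ℕ,
        3 * (3 ^ v * (cfg M y I R c).N t) + 1 + 24 * b = 4 ^ (rr M y) * u ^ 2)).card : ℝ) ≤
    c1 * (2 ^ I / ((cfg M y I R c).Rp * I)) / 3 ^ κ * ((cfg M y I R c).W / 2 ^ M)

/-- the algebraic part: the coefficient at `3 ^ v` times a product of primes, `v` even -/
def OCV : Prop := ∀ r m v : ℕ, 3 ≤ r → 3 * m + 1 = 4 ^ r → Even v → ∀ s : Finset ℕ,
  (∀ q ∈ s, q.Prime ∧ 5 ≤ q ∧ (q % 8 = 3 ∨ q % 8 = 5)) → s.card = 2 ^ (r - 1) - 1 →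
  ((s.filter (fun q => q % 8 = 3)).card = 0 ∨ (s.filter (fun q => q % 8 = 3)).card = 2) →
  PowerSeries.coeff (3 ^ v * ∏ q ∈ s, q) (Pool.Agent.H397R2.PP.Db ^ m) = 1

/-- part M (compare `MainYA`) -/
def MainYV : Prop := ∀ v h : ℕ, Even v → ¬ 3 ∣ h → ∀ M : ℕ, 2 ≤ M → ∃ y0 : ℕ, ∀ y : ℕ, y0 ≤ y →
  ∀ I : ℕ, y ^ (2 * M + 4) ≤ I → I + 2 * v ≤ 2 * y ^ (2 * M + 4) →
  Real.sqrt (2 ^ I) * (y : ℝ) ^ (2 * M - 3 : ℤ) ≤ (chg (3 ^ v * h) (2 ^ (I + 2 * v)) : ℝ)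

/-- part F (compare `FinalA`) -/
def FinalV : Prop := ∀ v h : ℕ, Even v → ¬ 3 ∣ h → ∀ ε : ℝ, 0 < ε → ∃ x0 : ℝ, ∀ x : ℕ, x0 ≤ x →
  Real.sqrt x * Real.log x ^ (1 - ε) ≤ (chg (3 ^ v * h) x : ℝ)

end Pool.Agent.NH75.PC
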